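import Pool.Agent.H90.TQ.Bs
import Pool.Agent.H88.TQ.Fx

/-! Fibre integrals. -/

set_option autoImplicit false

open Set Filter Topology MeasureTheory
open scoped ContDiff InnerProductSpace

namespace Pool.Agent.H90.TQ

open Pool.Agent.H16 Pool.Agent.H72.CC Pool.Agent.H94.EP Pool.Agent.H87.EP Pool.Agent.H42.TQ Pool.Agent.H90.EP
open Pool.Agent.H87.NS hiding c1
open Pool.Agent.H16.TU hiding Sl

theorem pt_symm (z : ℝ) (q : ℝ × ℝ) : B_eq.symm (z, q) = pt q z := rfl

theorem fub {H : E3 → ℝ} (hi : Integrable H) :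
    Integrable (fun q : ℝ × ℝ => ∫ z, H (pt q z)) ∧ ∫ q : ℝ × ℝ, ∫ z, H (pt q z) = ∫ x, H x := by
  have h1 : ∫ x, H x = ∫ q, H (B_eq.symm q) := by
    have h := B_mp.integral_comp B_eq.measurableEmbedding (fun q => H (B_eq.symm q))
    rw [← h]
    congr 1
    funext x
    rw [Homeomorph.symm_apply_apply]
  have hi' : Integrable (fun q => H (B_eq.symm q)) := by
    refine (B_mp.integrable_comp_emb B_eq.measurableEmbedding).1 ?_
    have h : (fun q => H (B_eq.symm q)) ∘ B_eq = H := by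
      funext x
      show H (B_eq.symm (B_eq x)) = H x
      rw [Homeomorph.symm_apply_apply]
    rw [h]
    exact hi
  have h2 : Integrable (fun q : ℝ × ℝ => ∫ z, H (B_eq.symm (z, q))) := hi'.integral_prod_right
  refine ⟨h2, ?_⟩
  rw [h1]
  exact (integral_prod_symm (fun q : ℝ × (ℝ × ℝ) => H (B_eq.symm q)) hi').symm

/-- With a weight depending on the horizontal coordinates. -/
theorem fub_w {F : E3 → ℝ} (h : ℝ × ℝ → ℝ) (hi : Integrable (fun x : E3 => h (x 0, x 1) * F x)) :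
    Integrable (fun q : ℝ × ℝ => h q * ∫ z, F (pt q z)) ∧ ∫ q : ℝ × ℝ, h q * ∫ z, F (pt q z) = ∫ x : E3, h (x 0, x 1) * F x := by
  obtain ⟨h1, h2⟩ := fub hi
  have h3 : (fun q : ℝ × ℝ => ∫ z, h ((pt q z) 0, (pt q z) 1) * F (pt q z)) = fun q => h q * ∫ z, F (pt q z) := by
    funext q
    rw [← integral_const_mul]
    rfl
  rw [h3] at h1
  rw [h3] at h2
  exact ⟨h1, h2⟩

end Pool.Agent.H90.TQ
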