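import Pool.Agent.H42.TQ.Defs

/-! The averaged gain and the statements of the source terms. -/

set_option autoImplicit false

open Set Filter Topology MeasureTheory
open scoped ContDiff InnerProductSpace

namespace Pool.Agent.H90.TQ

open Pool.Agent.H16 Pool.Agent.H87.NS Pool.Agent.H72.CC Pool.Agent.H94.EP Pool.Agent.H42.TQ

/-- The gain averaged over the boxes. -/
noncomputable def GS (m r2 m0 L a : ℝ) (v : E3 → E3) : ℝ := (1 / L) * ∫ b, ph L a b * Gain m r2 m0 (Fb L b v)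

/-- The source term of the equation of `O` in the one-point functional (theorem `t1` of the file T1). -/
def T1P : Prop := ∃ C : ℝ, 1 ≤ C ∧ ∀ (ε K κ L a m τ : ℝ) (v : E3 → E3), Pool.Agent.H94.EP.Sl ε K κ v → C * K ≤ L → 0 < m → m ≤ 1 →
    0 < τ → τ ≤ 1 → C * ε ^ 2 ≤ τ * m →
    ∫ x, A1 L a x * (sO v x * GO v x) ≤ τ * GS m (rz κ) (mz κ L) L a v + C * ε ^ 2 / τ * YY κ L a v + 1 / 32 * DO L a v +
      C * (ε ^ 2 * Sc κ ^ 2 * (DJ L a v + GG L a v)) + C * GG L a v + C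

/-- The source term in the rate of the correction (theorem `nt` of the file Nt). -/
def NtP : Prop := ∃ C : ℝ, 1 ≤ C ∧ ∀ (ε K κ L a m τ : ℝ) (v : E3 → E3), Pool.Agent.H94.EP.Sl ε K κ v → C * K ≤ L → 0 < m → m ≤ 1 →
    0 < τ → τ ≤ 1 →
    |(1 / L) * ∫ b, ph L a b * dPsi m (rz κ) (mz κ L) (Fb L b v) (fun x => cb L b x * GO v x)| ≤
      τ * GS m (rz κ) (mz κ L) L a v + C * ε ^ 2 / τ * (YY κ L a v + Sc κ * DJ L a v + GG L a v) + 1 / 32 * DO L a v +
      C * (ε ^ 2 * Sc κ ^ 2 * (DJ L a v + GG L a v)) + C * GG L a v + C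

end Pool.Agent.H90.TQ
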