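import Pool.Agent.H42.TQ.A2
import Pool.Agent.H42.TQ.B1

/-! The pairing of an element of `Kc c` with a smooth fibre. -/

set_option autoImplicit false

open Set Filter Topology MeasureTheory
open scoped ContDiff InnerProductSpace

namespace Pool.Agent.H90.TQ

open Pool.Agent.H16 Pool.Agent.H87.NS Pool.Agent.H42.TQ

theorem A5_der {F : E3 → ℝ} (hF : ContDiff ℝ ∞ F) (q : ℝ × ℝ) (z : ℝ) :
    HasDerivAt (fun z => F (pt q z)) (pd 2 F (pt q z)) z := by
  have h1 : HasDerivAt (fun z => pt q z) (e 2) z := by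
    have h2 : (fun z => pt q z) = fun z => pt q 0 + z • (e 2 : E3) := by
      funext z
      apply ext3
      · show q.1 = q.1 + z * e 2 0
        simp [e_apply]
      · show q.2 = q.2 + z * e 2 1
        simp [e_apply]
      · show z = 0 + z * e 2 2
        simp [e_apply]
    rw [h2]
    have h3 : HasDerivAt (fun z : ℝ => z • (e 2 : E3)) ((1 : ℝ) • (e 2 : E3)) z := (hasDerivAt_id z).smul_const _
    rw [one_smul] at h3
    exact h3.const_add _
  exact (hF.differentiable (by simp) (pt q z)).hasFDerivAt.comp_hasDerivAt z h1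

/-- Integration by parts against an `L²` function. -/
theorem A5_ibp (p : Hz) {g g' : ℝ → ℝ} (hg : ∀ z, HasDerivAt g (g' z) z) (hg' : Continuous g') {a b : ℝ} (hb : g b = 0) :
    ∫ z in a..b, p z * g z = - ∫ z in a..b, (∫ s in a..z, p s) * g' z := by
  have hp := int_ii p a b
  have h1 := hp.absolutelyContinuousOnInterval_intervalIntegral (c := a) left_mem_uIcc
  have hgc : ContDiff ℝ 1 g := by
    rw [contDiff_one_iff_deriv]
    refine ⟨fun z => (hg z).differentiableAt, ?_⟩
    have : deriv g = g' := funext fun z => (hg z).deriv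
    rw [this]
    exact hg'
  have h2 : AbsolutelyContinuousOnInterval g a b := by
    have h3 : g = fun z => g a + ∫ s in a..z, g' s := by
      funext z
      rw [intervalIntegral.integral_eq_sub_of_hasDerivAt (fun s _ => hg s) (hg'.intervalIntegrable _ _)]
      ring
    rw [h3]
    have h4 := (hg'.intervalIntegrable (μ := volume) a b).absolutelyContinuousOnInterval_intervalIntegral (c := a) left_mem_uIcc
    exact (contDiff_const.contDiffOn.absolutelyContinuousOnInterval).add h4
  have h5 := h1.integral_mul_deriv_eq_deriv_mul h2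
  have h6 : deriv g = g' := funext fun z => (hg z).deriv
  rw [h6, hb, intervalIntegral.integral_same] at h5
  have h7 : ∫ z in a..b, deriv (fun z => ∫ s in a..z, p s) z * g z = ∫ z in a..b, p z * g z := by
    apply intervalIntegral.integral_congr_ae
    filter_upwards [hp.ae_hasDerivAt_integral] with z hz hz2
    rw [(hz (uIoc_subset_uIcc hz2) a left_mem_uIcc).deriv]
  rw [h7] at h5
  linarith

/-- The pairing is bounded by the total variation. -/
theorem A5_pair {c : ℝ} {p : Hz} (hp : p ∈ Kc c) {F : E3 → ℝ} (hF : Cs F) (q : ℝ × ℝ) :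
    |⟪p, fib F q⟫_ℝ| ≤ 2 * c * ∫ z, |pd 2 F (pt q z)| := by
  have hc := Kc_nonneg hp
  obtain ⟨R, hR, h1, -⟩ := hF.box
  have hF2 := hF.pd 2
  rw [fib_inner' hF]
  have e1 : ∫ z, p z * F (pt q z) = ∫ z in (-R)..R, p z * F (pt q z) := by
    rw [intervalIntegral.integral_of_le (by linarith), ← integral_indicator measurableSet_Ioc]
    congr 1
    funext z
    by_cases hz : z ∈ Ioc (-R) R
    · rw [indicator_of_mem hz]
    · rw [indicator_of_notMem hz, h1 q z, mul_zero]
      by_contra h
      rw [not_le] at h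
      have h2 := abs_lt.1 h
      exact hz ⟨h2.1, h2.2.le⟩
  have hb : F (pt q R) = 0 := h1 q R (le_abs_self R)
  rw [e1, A5_ibp p (A5_der hF.sm q) ((hF2.slice q).1) hb, abs_neg]
  have hi : Integrable (fun z => |pd 2 F (pt q z)|) :=
    ((hF2.slice q).1.integrable_of_hasCompactSupport (hF2.slice q).2).abs
  calc |∫ z in (-R)..R, (∫ s in (-R)..z, p s) * pd 2 F (pt q z)|
      ≤ ∫ z in (-R)..R, 2 * c * |pd 2 F (pt q z)| := by
        rw [← Real.norm_eq_abs]
        refine intervalIntegral.norm_integral_le_of_norm_le (by linarith) ?_ ((hi.const_mul _).intervalIntegrable)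
        refine Filter.Eventually.of_forall fun z _ => ?_
        rw [norm_mul, Real.norm_eq_abs, Real.norm_eq_abs]
        exact mul_le_mul_of_nonneg_right (hp _ _) (abs_nonneg _)
    _ ≤ ∫ z, 2 * c * |pd 2 F (pt q z)| := by
        rw [intervalIntegral.integral_of_le (by linarith)]
        exact setIntegral_le_integral (hi.const_mul _) (ae_of_all _ fun z => by positivity)
    _ = 2 * c * ∫ z, |pd 2 F (pt q z)| := integral_const_mul _ _

/-- The size of the projection. -/
theorem Pc_tv {c : ℝ} (hc : 0 ≤ c) {F : E3 → ℝ} (hF : Cs F) (q : ℝ × ℝ) :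
    ‖Pc c (fib F q)‖ ^ 2 ≤ 2 * c * ∫ z, |pd 2 F (pt q z)| := by
  have h1 := Pc_sq hc (fib F q)
  have h2 : ec c (fib F q) = ⟪fib F q, Pc c (fib F q)⟫_ℝ - ‖Pc c (fib F q)‖ ^ 2 / 2 := rfl
  have h3 := A5_pair (Pc_mem hc (fib F q)) hF q
  rw [real_inner_comm] at h3
  have h4 := (abs_le.1 h3).2
  linarith

end Pool.Agent.H90.TQ
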