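import Pool.Agent.H42.TQ.Defs

/-! The density in the parameter. -/

set_option autoImplicit false

open Set Filter Topology MeasureTheory
open scoped ContDiff

namespace Pool.Agent.H90.TQ

open Pool.Agent.H42.TQ

theorem rho_nn {m0 μ : ℝ} (h0 : 0 < m0) (h1 : m0 < 1) (hμ : 0 ≤ μ) : 0 ≤ rho m0 μ := by
  unfold rho
  have hl : 0 < Real.log (1 / m0) := Real.log_pos (by rw [lt_div_iff₀ h0]; linarith)
  apply div_nonneg _ hl.le
  have h2 : μ ≤ μ / m0 := by rw [le_div_iff₀ h0]; nlinarith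
  have h3 : max (1 - μ / m0) 0 ≤ max (1 - μ) 0 := max_le_max (by linarith) le_rfl
  have h4 := pow_le_pow_left₀ (le_max_right (1 - μ / m0) 0) h3 3
  linarith

theorem rho_le1 {m0 μ : ℝ} (h0 : 0 < m0) (h1 : m0 < 1) (hμ : 0 ≤ μ) : rho m0 μ ≤ 1 / Real.log (1 / m0) := by
  unfold rho
  have hl : 0 < Real.log (1 / m0) := Real.log_pos (by rw [lt_div_iff₀ h0]; linarith)
  rw [div_le_div_iff_of_pos_right hl]
  have h2 : max (1 - μ) 0 ≤ 1 := max_le (by linarith) (by norm_num)
  have h3 := pow_le_pow_left₀ (le_max_right (1 - μ) 0) h2 3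
  have h4 : 0 ≤ max (1 - μ / m0) 0 ^ 3 := pow_nonneg (le_max_right _ _) 3
  linarith

theorem rho_le2 {m0 μ : ℝ} (h0 : 0 < m0) (h1 : m0 < 1) (hμ : 0 ≤ μ) : rho m0 μ ≤ 3 * (μ / m0) / Real.log (1 / m0) := by
  unfold rho
  have hl : 0 < Real.log (1 / m0) := Real.log_pos (by rw [lt_div_iff₀ h0]; linarith)
  rw [div_le_div_iff_of_pos_right hl]
  have h2 : max (1 - μ) 0 ≤ 1 := max_le (by linarith) (by norm_num)
  have h3 := pow_le_pow_left₀ (le_max_right (1 - μ) 0) h2 3
  have h5 : 0 ≤ μ / m0 := by positivity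
  rcases le_or_gt (μ / m0) 1 with h | h
  · rw [max_eq_left (by linarith : (0 : ℝ) ≤ 1 - μ / m0)]
    nlinarith [mul_nonneg h5 h5, mul_nonneg (mul_nonneg h5 h5) (by linarith : (0 : ℝ) ≤ 3 - μ / m0)]
  · have h4 : 0 ≤ max (1 - μ / m0) 0 ^ 3 := pow_nonneg (le_max_right _ _) 3
    linarith

theorem rho_cont (m0 : ℝ) : Continuous (rho m0) := by
  unfold rho
  fun_prop

/-- The bound of the density divided by the parameter. -/
noncomputable def rb (m0 μ : ℝ) : ℝ := min (3 / m0) μ⁻¹ / Real.log (1 / m0)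

theorem rho_div {m0 μ : ℝ} (h0 : 0 < m0) (h1 : m0 < 1) (hμ : 0 < μ) : 0 ≤ rho m0 μ / μ ∧ rho m0 μ / μ ≤ rb m0 μ := by
  have hl : 0 < Real.log (1 / m0) := Real.log_pos (by rw [lt_div_iff₀ h0]; linarith)
  refine ⟨div_nonneg (rho_nn h0 h1 hμ.le) hμ.le, ?_⟩
  unfold rb
  rw [le_div_iff₀ hl, le_min_iff]
  constructor
  · have h2 := rho_le2 h0 h1 hμ.le
    rw [le_div_iff₀ hl] at h2
    calc rho m0 μ / μ * Real.log (1 / m0) = (rho m0 μ * Real.log (1 / m0)) / μ := by ring
      _ ≤ (3 * (μ / m0)) / μ := by gcongr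
      _ = 3 / m0 := by field_simp
  · have h2 := rho_le1 h0 h1 hμ.le
    rw [le_div_iff₀ hl] at h2
    calc rho m0 μ / μ * Real.log (1 / m0) = (rho m0 μ * Real.log (1 / m0)) / μ := by ring
      _ ≤ 1 / μ := by gcongr
      _ = μ⁻¹ := one_div μ

theorem rb_int {m0 : ℝ} (h0 : 0 < m0) (h1 : m0 < 1) (h3 : 3 ≤ Real.log (1 / m0)) :
    IntervalIntegrable (rb m0) volume 0 1 ∧ ∫ μ in (0 : ℝ)..1, rb m0 μ ≤ 2 := by
  have hl : 0 < Real.log (1 / m0) := by linarith
  have i1 : IntervalIntegrable (rb m0) volume 0 m0 := by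
    refine (intervalIntegrable_const (c := 3 / m0 / Real.log (1 / m0))).mono_fun' ?_ ?_
    · have : Measurable (rb m0) := by unfold rb; fun_prop
      exact this.aestronglyMeasurable
    · rw [EventuallyLE, ae_restrict_iff' measurableSet_uIoc]
      refine Filter.Eventually.of_forall fun μ hμ => ?_
      rw [uIoc_of_le h0.le] at hμ
      have h4 : 0 ≤ rb m0 μ := by
        unfold rb
        have : 0 < μ := hμ.1
        positivity
      rw [Real.norm_of_nonneg h4]
      unfold rb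
      exact div_le_div_of_nonneg_right (min_le_left _ _) hl.le
  have i2' : IntervalIntegrable (fun μ : ℝ => μ⁻¹ / Real.log (1 / m0)) volume m0 1 := by
    apply IntervalIntegrable.div_const
    refine intervalIntegral.intervalIntegrable_inv (fun x hx => ?_) continuousOn_id
    rw [uIcc_of_le h1.le] at hx
    exact (h0.trans_le hx.1).ne'
  have i2 : IntervalIntegrable (rb m0) volume m0 1 := by
    refine i2'.mono_fun' ?_ ?_
    · have : Measurable (rb m0) := by unfold rb; fun_prop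
      exact this.aestronglyMeasurable
    · rw [EventuallyLE, ae_restrict_iff' measurableSet_uIoc]
      refine Filter.Eventually.of_forall fun μ hμ => ?_
      rw [uIoc_of_le h1.le] at hμ
      have h4 : 0 ≤ rb m0 μ := by
        unfold rb
        have : 0 < μ := h0.trans hμ.1
        positivity
      rw [Real.norm_of_nonneg h4]
      unfold rb
      exact div_le_div_of_nonneg_right (min_le_right _ _) hl.le
  refine ⟨i1.trans i2, ?_⟩
  rw [← intervalIntegral.integral_add_adjacent_intervals i1 i2]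
  have e1 : ∫ μ in (0 : ℝ)..m0, rb m0 μ ≤ 3 / Real.log (1 / m0) := by
    calc ∫ μ in (0 : ℝ)..m0, rb m0 μ ≤ ∫ μ in (0 : ℝ)..m0, (3 / m0 / Real.log (1 / m0)) := by
          refine intervalIntegral.integral_mono_on h0.le i1 intervalIntegrable_const fun μ _ => ?_
          unfold rb
          exact div_le_div_of_nonneg_right (min_le_left _ _) hl.le
      _ = 3 / Real.log (1 / m0) := by
          rw [intervalIntegral.integral_const, smul_eq_mul]
          field_simp
          ring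
  have e2 : ∫ μ in m0..1, rb m0 μ ≤ 1 := by
    calc ∫ μ in m0..1, rb m0 μ ≤ ∫ μ in m0..1, μ⁻¹ / Real.log (1 / m0) := by
          refine intervalIntegral.integral_mono_on h1.le i2 i2' fun μ _ => ?_
          unfold rb
          exact div_le_div_of_nonneg_right (min_le_right _ _) hl.le
      _ = 1 := by
          rw [intervalIntegral.integral_div, integral_inv_of_pos h0 one_pos]
          exact div_self hl.ne'
  have e3 : 3 / Real.log (1 / m0) ≤ 1 := by rw [div_le_one hl]; exact h3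
  linarith

/-- A bounded function is averaged with total mass at most two. -/
theorem rho_bd {m0 B : ℝ} (h0 : 0 < m0) (h1 : m0 < 1) (h3 : 3 ≤ Real.log (1 / m0)) {f : ℝ → ℝ} (hB : 0 ≤ B)
    (hf : ∀ μ, 0 < μ → μ ≤ 1 → |f μ| ≤ B) : |∫ μ in (0 : ℝ)..1, rho m0 μ / μ * f μ| ≤ 2 * B := by
  obtain ⟨hi, hb⟩ := rb_int h0 h1 h3
  have h4 : ‖∫ μ in (0 : ℝ)..1, rho m0 μ / μ * f μ‖ ≤ ∫ μ in (0 : ℝ)..1, rb m0 μ * B := by
    refine intervalIntegral.norm_integral_le_of_norm_le zero_le_one ?_ (hi.mul_const B)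
    refine Filter.Eventually.of_forall fun μ hμ => ?_
    obtain ⟨r1, r2⟩ := rho_div h0 h1 hμ.1
    rw [norm_mul, Real.norm_of_nonneg r1, Real.norm_eq_abs]
    exact mul_le_mul r2 (hf μ hμ.1 hμ.2) (abs_nonneg _) (r1.trans r2)
  rw [Real.norm_eq_abs] at h4
  rw [intervalIntegral.integral_mul_const] at h4
  exact h4.trans (mul_le_mul_of_nonneg_right hb hB)

end Pool.Agent.H90.TQ
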