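import Pool.Agent.H90.TQ.Fu
import Pool.Agent.H90.TQ.A5
import Pool.Agent.H90.TQ.Rh

/-! Continuity in the centre of the box. -/

set_option autoImplicit false

open Set Filter Topology MeasureTheory
open scoped ContDiff InnerProductSpace

namespace Pool.Agent.H90.TQ

open Pool.Agent.H16 Pool.Agent.H72.CC Pool.Agent.H94.EP Pool.Agent.H87.EP Pool.Agent.H42.TQ Pool.Agent.H90.EP
open Pool.Agent.H87.NS hiding c1
open Pool.Agent.H16.TU hiding Sl

theorem fib_dsq {F G : E3 → ℝ} (hF : Cs F) (hG : Cs G) (q q' : ℝ × ℝ) :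
    ‖fib F q - fib G q'‖ ^ 2 = ∫ z, (F (pt q z) - G (pt q' z)) ^ 2 := by
  rw [← real_inner_self_eq_norm_sq, L2.inner_def]
  refine integral_congr_ae ?_
  filter_upwards [fib_coe hF q, fib_coe hG q', Lp.coeFn_sub (fib F q) (fib G q')] with z h1 h2 h3
  rw [h3, Pi.sub_apply, h1, h2]
  simp [pow_two]

/-- Joint continuity of the fibres of a family. -/
theorem fib_joint {F : ℝ → E3 → ℝ} (hF : ∀ b, Cs (F b)) (hc : Continuous (fun p : ℝ × E3 => F p.1 p.2))
    (hs : ∀ b0, ∃ R : ℝ, 0 ≤ R ∧ ∀ b, |b - b0| < 1 → ∀ q z, R ≤ |z| → F b (pt q z) = 0) :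
    Continuous (fun p : ℝ × (ℝ × ℝ) => fib (F p.1) p.2) := by
  rw [continuous_iff_continuousAt]
  intro p0
  obtain ⟨R, hR, hz⟩ := hs p0.1
  have h1 : Continuous (fun p : ℝ × (ℝ × ℝ) => ∫ z in (-R)..R, (F p.1 (pt p.2 z) - F p0.1 (pt p0.2 z)) ^ 2) := by
    refine intervalIntegral.continuous_parametric_intervalIntegral_of_continuous' ?_ _ _
    have h2 : Continuous (fun w : (ℝ × (ℝ × ℝ)) × ℝ => F w.1.1 (pt w.1.2 w.2)) :=
      hc.comp ((continuous_fst.comp continuous_fst).prodMk (pt_cont' (continuous_snd.comp continuous_fst) continuous_snd))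
    have h3 : Continuous (fun w : (ℝ × (ℝ × ℝ)) × ℝ => F p0.1 (pt p0.2 w.2)) :=
      hc.comp (continuous_const.prodMk (pt_cont' continuous_const continuous_snd))
    exact (h2.sub h3).pow 2
  have h4 : ∀ᶠ p : ℝ × (ℝ × ℝ) in 𝓝 p0, ‖fib (F p.1) p.2 - fib (F p0.1) p0.2‖ =
      √(∫ z in (-R)..R, (F p.1 (pt p.2 z) - F p0.1 (pt p0.2 z)) ^ 2) := by
    have h5 : ∀ᶠ p : ℝ × (ℝ × ℝ) in 𝓝 p0, |p.1 - p0.1| < 1 := by
      have h6 : ContinuousAt (fun p : ℝ × (ℝ × ℝ) => |p.1 - p0.1|) p0 := by fun_prop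
      have h7 := h6.eventually_lt (continuousAt_const (y := (1 : ℝ))) (by simp)
      exact h7
    filter_upwards [h5] with p hp
    have h6 : ∫ z in (-R)..R, (F p.1 (pt p.2 z) - F p0.1 (pt p0.2 z)) ^ 2 =
        ∫ z, (F p.1 (pt p.2 z) - F p0.1 (pt p0.2 z)) ^ 2 := by
      rw [intervalIntegral.integral_of_le (by linarith), ← integral_indicator measurableSet_Ioc]
      congr 1
      funext z
      by_cases h : z ∈ Ioc (-R) R
      · rw [indicator_of_mem h]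
      · have h8 : R ≤ |z| := by
          by_contra h9
          push Not at h9
          exact h ⟨(abs_lt.1 h9).1, (abs_lt.1 h9).2.le⟩
        rw [indicator_of_notMem h, hz p.1 hp p.2 z h8, hz p0.1 (by simp) p0.2 z h8]
        simp
    rw [h6, ← fib_dsq (hF _) (hF _), Real.sqrt_sq (norm_nonneg _)]
  have h5 : Tendsto (fun p : ℝ × (ℝ × ℝ) => ‖fib (F p.1) p.2 - fib (F p0.1) p0.2‖) (𝓝 p0) (𝓝 0) := by
    have h6 : Tendsto (fun p : ℝ × (ℝ × ℝ) => √(∫ z in (-R)..R, (F p.1 (pt p.2 z) - F p0.1 (pt p0.2 z)) ^ 2)) (𝓝 p0)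
        (𝓝 (√(∫ z in (-R)..R, (F p0.1 (pt p0.2 z) - F p0.1 (pt p0.2 z)) ^ 2))) :=
      (Real.continuous_sqrt.comp h1).tendsto p0
    simp only [sub_self, ne_eq, OfNat.ofNat_ne_zero, not_false_eq_true, zero_pow, intervalIntegral.integral_zero,
      Real.sqrt_zero] at h6
    exact h6.congr' (h4.mono fun p hp => hp.symm)
  exact tendsto_iff_norm_sub_tendsto_zero.2 h5

theorem sq2_cont : Continuous sq2 := by
  unfold sq2
  fun_prop

theorem sq2_nn (q : ℝ × ℝ) : 0 ≤ sq2 q := by unfold sq2; positivity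

theorem rsq_pt (q : ℝ × ℝ) (z : ℝ) : rsq (pt q z) = sq2 q := rfl

theorem cmu_cont {m r2 μ : ℝ} (hr : 0 < r2) : Continuous (cmu m r2 μ) := by
  unfold cmu
  refine continuous_const.div (sq2_cont.add continuous_const) fun q => ?_
  have := sq2_nn q
  positivity

theorem cmu_pos {m r2 μ : ℝ} (hm : 0 < m) (hr : 0 < r2) (hμ : 0 < μ) (q : ℝ × ℝ) : 0 < cmu m r2 μ q := by
  unfold cmu
  have := sq2_nn q
  positivity

theorem ec_fam {F : ℝ → E3 → ℝ} (hj : Continuous (fun p : ℝ × (ℝ × ℝ) => fib (F p.1) p.2)) {m r2 μ : ℝ} (hm : 0 < m) (hr : 0 < r2)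
    (hμ : 0 < μ) : Continuous (fun p : ℝ × (ℝ × ℝ) => ec (cmu m r2 μ p.2) (fib (F p.1) p.2)) := by
  have h1 : Continuous (fun p : ℝ × (ℝ × ℝ) => ((cmu m r2 μ p.2, fib (F p.1) p.2) : ℝ × Hz)) :=
    ((cmu_cont hr).comp continuous_snd).prodMk hj
  exact ec_cont.comp_continuous h1 fun p => ⟨cmu_pos hm hr hμ p.2, mem_univ _⟩

/-- The profile of the boxes. -/
noncomputable def wS (t : ℝ) : ℝ := Real.smoothTransition (2 - t ^ 2)

theorem wS_smooth : ContDiff ℝ ∞ wS := by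
  unfold wS
  exact Real.smoothTransition.contDiff.comp (contDiff_const.sub (contDiff_id.pow 2))

theorem wS_one {t : ℝ} (h : t ^ 2 ≤ 1) : wS t = 1 := Real.smoothTransition.one_of_one_le (by linarith)

theorem wS_zero {t : ℝ} (h : 2 ≤ t ^ 2) : wS t = 0 := Real.smoothTransition.zero_of_nonpos (by linarith)

theorem wS_pr : Pr wS := ⟨wS_smooth.continuous, fun _ => Real.smoothTransition.nonneg _, fun _ => Real.smoothTransition.le_one _,
  fun _ h => wS_zero (by linarith)⟩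

theorem wS2_pr : Pr (fun t => wS t ^ 2) := by
  refine ⟨wS_smooth.continuous.pow 2, fun _ => sq_nonneg _, fun t => ?_, fun _ h => ?_⟩
  · exact pow_le_one₀ (wS_pr.nn t) (wS_pr.le t)
  · show wS _ ^ 2 = 0
    rw [wS_pr.zr _ h]
    simp

theorem cb_eq (L b : ℝ) (x : E3) : cb L b x = c2 x ^ 2 * wS ((x 2 - b) / L) := rfl

theorem c2_smooth : ContDiff ℝ ∞ c2 := by
  unfold c2
  exact Real.smoothTransition.contDiff.comp (contDiff_const.sub (contDiff_const.mul (LevX_rsq_cd)))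

theorem c2_01 (x : E3) : 0 ≤ c2 x ∧ c2 x ≤ 1 := ⟨Real.smoothTransition.nonneg _, Real.smoothTransition.le_one _⟩

theorem c2_one {x : E3} (h : rsq x ≤ 1 / 16) : c2 x = 1 := Real.smoothTransition.one_of_one_le (by linarith)

theorem c2_zero {x : E3} (h : 1 / 8 ≤ rsq x) : c2 x = 0 := Real.smoothTransition.zero_of_nonpos (by linarith)

theorem co2_smooth : ContDiff ℝ ∞ (fun x : E3 => x 2) := contDiff_euclidean.1 contDiff_id 2

theorem cb_smooth (L b : ℝ) : ContDiff ℝ ∞ (cb L b) := by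
  have h1 : cb L b = fun x => c2 x ^ 2 * wS ((x 2 - b) / L) := rfl
  rw [h1]
  exact (c2_smooth.pow 2).mul (wS_smooth.comp ((co2_smooth.sub contDiff_const).div_const L))

/-- A function localised in a box. -/
theorem box_cs {w : ℝ → ℝ} (hw : ContDiff ℝ ∞ w) (hz : ∀ t, 3 < t ^ 2 → w t = 0) {L : ℝ} (hL : 0 < L) (b : ℝ) {f : E3 → ℝ}
    (hf : ContDiff ℝ ∞ f) (k : ℕ) (hk : k ≠ 0) : Cs (fun x => c2 x ^ k * w ((x 2 - b) / L) * f x) := by
  refine ⟨((c2_smooth.pow k).mul (hw.comp ((co2_smooth.sub contDiff_const).div_const L))).mul hf, ?_⟩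
  refine HasCompactSupport.intro (isCompact_closedBall (0 : E3) (1 + |b| + 2 * L)) fun x hx => ?_
  rw [mem_closedBall_zero_iff, not_le] at hx
  rcases le_or_gt (1 / 8) (rsq x) with h | h
  · rw [c2_zero h, zero_pow hk]
    simp
  · have h1 : ‖x‖ ^ 2 = rsq x + x 2 ^ 2 := by
      rw [EuclideanSpace.norm_sq_eq, Fin.sum_univ_three]
      simp only [Real.norm_eq_abs, sq_abs]
      rfl
    have h2 : 3 < ((x 2 - b) / L) ^ 2 := by
      rw [div_pow, lt_div_iff₀ (by positivity)]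
      have h3 : |b| + 2 * L < |x 2| := by
        by_contra h4
        rw [not_lt] at h4
        have h5 : x 2 ^ 2 ≤ (|b| + 2 * L) ^ 2 := by
          rw [← sq_abs (x 2)]
          exact pow_le_pow_left₀ (abs_nonneg _) h4 2
        have h6 : (1 + |b| + 2 * L) ^ 2 < ‖x‖ ^ 2 := pow_lt_pow_left₀ hx (by positivity) (by norm_num)
        nlinarith [abs_nonneg b]
      have h4 : 2 * L < |x 2 - b| := by
        have := abs_sub_abs_le_abs_sub (x 2) b
        linarith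
      have h5 : (2 * L) ^ 2 < |x 2 - b| ^ 2 := pow_lt_pow_left₀ h4 (by positivity) (by norm_num)
      rw [sq_abs] at h5
      nlinarith
    rw [hz _ h2]
    simp

theorem Fb_cs {L : ℝ} (hL : 0 < L) (b : ℝ) {v : E3 → E3} (hv : Vs v) : Cs (Fb L b v) := by
  have h := box_cs wS_smooth wS_pr.zr hL b (vs_ri hv).2.2.1.sm 2 (by norm_num)
  exact h

theorem box_joint {w : ℝ → ℝ} (hw : ContDiff ℝ ∞ w) (hz : ∀ t, 3 < t ^ 2 → w t = 0) {L : ℝ} (hL : 0 < L) {f : E3 → ℝ}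
    (hf : ContDiff ℝ ∞ f) (k : ℕ) (hk : k ≠ 0) :
    Continuous (fun p : ℝ × (ℝ × ℝ) => fib (fun x => c2 x ^ k * w ((x 2 - p.1) / L) * f x) p.2) := by
  refine fib_joint (F := fun b x => c2 x ^ k * w ((x 2 - b) / L) * f x) (fun b => box_cs hw hz hL b hf k hk) ?_ fun b0 => ?_
  · have h1 : Continuous (fun p : ℝ × E3 => w ((p.2 2 - p.1) / L)) :=
      hw.continuous.comp (((I_c2.comp continuous_snd).sub continuous_fst).div_const L)
    exact (((c2_smooth.continuous.comp continuous_snd).pow k).mul h1).mul (hf.continuous.comp continuous_snd)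
  · refine ⟨|b0| + 1 + 2 * L, by positivity, fun b hb q z hzz => ?_⟩
    have h2 : 3 < ((z - b) / L) ^ 2 := by
      rw [div_pow, lt_div_iff₀ (by positivity)]
      have h3 : |b| < |b0| + 1 := by
        have := abs_sub_abs_le_abs_sub b b0
        linarith
      have h4 : 2 * L < |z - b| := by
        have := abs_sub_abs_le_abs_sub z b
        linarith
      have h5 : (2 * L) ^ 2 < |z - b| ^ 2 := pow_lt_pow_left₀ h4 (by positivity) (by norm_num)
      rw [sq_abs] at h5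
      nlinarith
    show c2 (pt q z) ^ k * w ((z - b) / L) * f (pt q z) = 0
    rw [hz _ h2]
    simp

theorem Fb_joint {L : ℝ} (hL : 0 < L) {v : E3 → E3} (hv : Vs v) :
    Continuous (fun p : ℝ × (ℝ × ℝ) => fib (Fb L p.1 v) p.2) :=
  box_joint wS_smooth wS_pr.zr hL (vs_ri hv).2.2.1.sm 2 (by norm_num)

theorem Fb_out {L b : ℝ} {v : E3 → E3} {x : E3} (h : 1 / 8 ≤ rsq x) : Fb L b v x = 0 := by
  unfold Fb
  rw [cb_eq, c2_zero h]
  simp

theorem fib_zero {F : E3 → ℝ} (hF : Cs F) {q : ℝ × ℝ} (h : ∀ z, F (pt q z) = 0) : fib F q = 0 := by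
  have h1 := fib_norm hF q
  simp only [h, ne_eq, OfNat.ofNat_ne_zero, not_false_eq_true, zero_pow, integral_zero] at h1
  exact norm_eq_zero.1 (pow_eq_zero_iff (two_ne_zero) |>.1 h1)

theorem Fb_fib_out {L b : ℝ} (hL : 0 < L) {v : E3 → E3} (hv : Vs v) {q : ℝ × ℝ} (h : 1 / 8 ≤ sq2 q) : fib (Fb L b v) q = 0 :=
  fib_zero (Fb_cs hL b hv) fun z => Fb_out (by rw [rsq_pt]; exact h)

/-- The integrand of the gain. -/
noncomputable def gI (m r2 m0 : ℝ) (F : E3 → ℝ) (q : ℝ × ℝ) : ℝ :=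
  sq2 q / (sq2 q + r2) ^ 2 * (ec (cmu m r2 1 q) (fib F q) - ec (cmu m r2 m0 q) (fib F q))

theorem gI_nn {m r2 m0 : ℝ} (hm : 0 < m) (hr : 0 < r2) (h0 : 0 < m0) (h1 : m0 ≤ 1) (F : E3 → ℝ) (q : ℝ × ℝ) :
    0 ≤ gI m r2 m0 F q := by
  unfold gI
  have h2 := sq2_nn q
  have h3 : cmu m r2 m0 q ≤ cmu m r2 1 q := by
    unfold cmu
    apply div_le_div_of_nonneg_right _ (by positivity)
    nlinarith
  have h4 := ec_mono (cmu_pos hm hr h0 q).le h3 (fib F q)
  exact mul_nonneg (by positivity) (by linarith)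

theorem gI_le {m r2 m0 : ℝ} (hm : 0 < m) (hr : 0 < r2) (h0 : 0 < m0) (F : E3 → ℝ) (q : ℝ × ℝ) :
    gI m r2 m0 F q ≤ 1 / r2 * ‖fib F q‖ ^ 2 := by
  unfold gI
  have h2 := sq2_nn q
  have h3 := ec_nonneg (cmu_pos hm hr h0 q).le (fib F q)
  have h4 := ec_le (cmu m r2 1 q) (fib F q)
  have h5 : sq2 q / (sq2 q + r2) ^ 2 ≤ 1 / r2 := by
    rw [div_le_div_iff₀ (by positivity) hr]
    nlinarith
  have h6 : ec (cmu m r2 1 q) (fib F q) - ec (cmu m r2 m0 q) (fib F q) ≤ ‖fib F q‖ ^ 2 := by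
    nlinarith [sq_nonneg ‖fib F q‖]
  have h7 : 0 ≤ sq2 q / (sq2 q + r2) ^ 2 := by positivity
  calc _ ≤ sq2 q / (sq2 q + r2) ^ 2 * ‖fib F q‖ ^ 2 := mul_le_mul_of_nonneg_left h6 h7
    _ ≤ _ := mul_le_mul_of_nonneg_right h5 (sq_nonneg _)

/-- The square in the plane. -/
def Kq : Set (ℝ × ℝ) := Icc (-1 : ℝ) 1 ×ˢ Icc (-1 : ℝ) 1

theorem Kq_compact : IsCompact Kq := isCompact_Icc.prod isCompact_Icc

theorem Kq_out {q : ℝ × ℝ} (h : q ∉ Kq) : 1 < sq2 q := by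
  by_contra h1
  rw [not_lt] at h1
  apply h
  unfold sq2 at h1
  refine ⟨⟨?_, ?_⟩, ⟨?_, ?_⟩⟩ <;> nlinarith [sq_nonneg q.1, sq_nonneg q.2]

theorem gI_fam {L m r2 m0 : ℝ} (hL : 0 < L) (hm : 0 < m) (hr : 0 < r2) (h0 : 0 < m0) {v : E3 → E3} (hv : Vs v) :
    Continuous (fun p : ℝ × (ℝ × ℝ) => gI m r2 m0 (Fb L p.1 v) p.2) := by
  unfold gI
  have hj := Fb_joint hL hv
  have h1 := ec_fam (F := fun b => Fb L b v) hj hm hr one_pos
  have h2 := ec_fam (F := fun b => Fb L b v) hj hm hr h0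
  have h3 : Continuous (fun p : ℝ × (ℝ × ℝ) => sq2 p.2 / (sq2 p.2 + r2) ^ 2) := by
    have h4 : Continuous (fun p : ℝ × (ℝ × ℝ) => sq2 p.2) := sq2_cont.comp continuous_snd
    refine h4.div ((h4.add continuous_const).pow 2) fun p => ?_
    have := sq2_nn p.2
    positivity
  exact h3.mul (h1.sub h2)

theorem gI_out {L m r2 m0 b : ℝ} (hL : 0 < L) (hm : 0 < m) (hr : 0 < r2) (h0 : 0 < m0) {v : E3 → E3} (hv : Vs v) {q : ℝ × ℝ}
    (h : 1 / 8 ≤ sq2 q) : gI m r2 m0 (Fb L b v) q = 0 := by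
  unfold gI
  rw [Fb_fib_out hL hv h, ec_zero (cmu_pos hm hr one_pos q).le, ec_zero (cmu_pos hm hr h0 q).le]
  simp

theorem gI_int {L m r2 m0 b : ℝ} (hL : 0 < L) (hm : 0 < m) (hr : 0 < r2) (h0 : 0 < m0) {v : E3 → E3} (hv : Vs v) :
    Integrable (gI m r2 m0 (Fb L b v)) := by
  have h1 : Continuous (gI m r2 m0 (Fb L b v)) :=
    (gI_fam hL hm hr h0 hv).comp ((continuous_const (y := b)).prodMk continuous_id)
  refine h1.integrable_of_hasCompactSupport (HasCompactSupport.intro Kq_compact fun q hq => ?_)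
  exact gI_out hL hm hr h0 hv (by linarith [Kq_out hq])

theorem Gain_cont {L m r2 m0 : ℝ} (hL : 0 < L) (hm : 0 < m) (hr : 0 < r2) (h0 : 0 < m0) {v : E3 → E3} (hv : Vs v) :
    Continuous (fun b => Gain m r2 m0 (Fb L b v)) := by
  have h1 : (fun b => Gain m r2 m0 (Fb L b v)) = fun b => ∫ q in Kq, gI m r2 m0 (Fb L b v) q := by
    funext b
    show (∫ q, gI m r2 m0 (Fb L b v) q) = _
    rw [← integral_indicator Kq_compact.measurableSet]
    congr 1
    funext q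
    by_cases hq : q ∈ Kq
    · rw [indicator_of_mem hq]
    · rw [indicator_of_notMem hq]
      exact gI_out hL hm hr h0 hv (by linarith [Kq_out hq])
  rw [h1]
  exact continuous_parametric_integral_of_continuous (gI_fam hL hm hr h0 hv) Kq_compact

theorem Gain_nn {m r2 m0 : ℝ} (hm : 0 < m) (hr : 0 < r2) (h0 : 0 < m0) (h1 : m0 ≤ 1) (F : E3 → ℝ) : 0 ≤ Gain m r2 m0 F :=
  integral_nonneg fun q => gI_nn hm hr h0 h1 F q

end Pool.Agent.H90.TQ
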