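import Pool.Agent.H90.TQ.T1b
import Pool.Agent.H87.EP.F

/-! The source term of the equation of `O`. -/

set_option autoImplicit false

open Set Filter Topology MeasureTheory
open scoped ContDiff InnerProductSpace

namespace Pool.Agent.H90.TQ

open Pool.Agent.H16 Pool.Agent.H72.CC Pool.Agent.H94.EP Pool.Agent.H87.EP Pool.Agent.H42.TQ Pool.Agent.H90.EP
open Pool.Agent.H87.NS hiding c1
open Pool.Agent.H16.TU hiding Sl

theorem sq_le_O {L b : ℝ} {v : E3 → E3} (x : E3) : Fb L b v x ^ 2 ≤ sO v x ^ 2 := by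
  unfold Fb
  rw [cb_eq, mul_pow]
  obtain ⟨h1, h2⟩ := c2_01 x
  have h3 := wS_pr.nn ((x 2 - b) / L)
  have h4 := wS_pr.le ((x 2 - b) / L)
  have h5 : (c2 x ^ 2 * wS ((x 2 - b) / L)) ^ 2 ≤ 1 := by
    apply pow_le_one₀ (by positivity)
    calc c2 x ^ 2 * wS ((x 2 - b) / L) ≤ 1 * 1 := mul_le_mul (pow_le_one₀ h1 h2) h4 h3 zero_le_one
      _ = 1 := one_mul 1
  exact mul_le_of_le_one_left (sq_nonneg _) h5

/-- The gain is bounded. -/
theorem Gain_le {L m r2 m0 b : ℝ} (hL : 0 < L) (hm : 0 < m) (hr : 0 < r2) (h0 : 0 < m0) {v : E3 → E3} (hv : Vs v) :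
    Gain m r2 m0 (Fb L b v) ≤ 1 / r2 * ∫ x, sO v x ^ 2 := by
  have hF := Fb_cs hL b hv
  obtain ⟨i1, e1⟩ := fub (sq_int hF)
  have hO := (ri_int (vs_ri hv).2.2.1).1
  have h2 : Gain m r2 m0 (Fb L b v) ≤ ∫ q : ℝ × ℝ, 1 / r2 * ∫ z, Fb L b v (pt q z) ^ 2 := by
    refine integral_mono (gI_int hL hm hr h0 hv) (i1.const_mul _) fun q => ?_
    show gI m r2 m0 (Fb L b v) q ≤ 1 / r2 * ∫ z, Fb L b v (pt q z) ^ 2
    rw [← fib_norm hF]
    exact gI_le hm hr h0 _ q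
  rw [integral_const_mul, e1] at h2
  refine h2.trans (mul_le_mul_of_nonneg_left ?_ (by positivity))
  exact integral_mono (sq_int hF) hO fun x => sq_le_O x

theorem phGain_int {L m r2 m0 a : ℝ} (hL : 1 ≤ L) (hm : 0 < m) (hr : 0 < r2) (h0 : 0 < m0) (h1 : m0 ≤ 1) {v : E3 → E3}
    (hv : Vs v) : Integrable (fun b => ph L a b * Gain m r2 m0 (Fb L b v)) := by
  have hL0 : 0 < L := by linarith
  refine ((ph_int hL a).1.mul_const (1 / r2 * ∫ x, sO v x ^ 2)).mono'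
    ((ph_smooth L a).continuous.mul (Gain_cont hL0 hm hr h0 hv)).aestronglyMeasurable (ae_of_all _ fun b => ?_)
  have h2 := Gain_nn hm hr h0 h1 (Fb L b v)
  have h3 := ph_pos L a b
  rw [Real.norm_of_nonneg (by positivity)]
  exact mul_le_mul_of_nonneg_left (Gain_le hL0 hm hr h0 hv) h3.le

theorem GS_nn {L m r2 m0 a : ℝ} (hL : 0 < L) (hm : 0 < m) (hr : 0 < r2) (h0 : 0 < m0) (h1 : m0 ≤ 1) (v : E3 → E3) :
    0 ≤ GS m r2 m0 L a v := by
  unfold GS
  apply mul_nonneg (by positivity)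
  exact integral_nonneg fun b => mul_nonneg (ph_pos L a b).le (Gain_nn hm hr h0 h1 _)

/-- The weighted energy of `O` near the axis. -/
noncomputable def eO (v : E3 → E3) (x : E3) : ℝ := c2 x * (sO v x ^ 2 + pd 2 (sO v) x ^ 2)

theorem eO_nn (v : E3 → E3) (x : E3) : 0 ≤ eO v x := by
  unfold eO
  have := (c2_01 x).1
  positivity

theorem eO_int {v : E3 → E3} (hv : Vs v) : Integrable (eO v) := by
  have hO := ri_int (vs_ri hv).2.2.1
  have i1 : Integrable (fun x => sO v x ^ 2 + pd 2 (sO v) x ^ 2) := hO.1.add hO.2.2.1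
  refine i1.mono' ?_ (ae_of_all _ fun x => ?_)
  · unfold eO
    exact c2_smooth.continuous.aestronglyMeasurable.mul i1.aestronglyMeasurable
  · rw [Real.norm_of_nonneg (eO_nn v x)]
    unfold eO
    exact mul_le_of_le_one_left (by positivity) (c2_01 x).2

theorem eO_le {L a : ℝ} (hL : 1 ≤ L) {v : E3 → E3} (hv : Vs v) : ∫ x, ph L a (x 2) * eO v x ≤ NO L a v + DO L a v := by
  have rO := (vs_ri hv).2.2.1
  have i1 := F_Asq hL a rO
  have i2 := F_gsq hL a rO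
  have e1 : NO L a v + DO L a v = ∫ x, (A1 L a x * sO v x ^ 2 + A1 L a x * gsq (sO v) x) := (integral_add i1 i2).symm
  rw [e1]
  have hpc : Continuous (fun x : E3 => ph L a (x 2)) := (ph_smooth L a).continuous.comp I_c2
  have i3 : Integrable (fun x => ph L a (x 2) * eO v x) := by
    refine (eO_int hv).norm.mono' (hpc.aestronglyMeasurable.mul (eO_int hv).aestronglyMeasurable) (ae_of_all _ fun x => ?_)
    rw [norm_mul, Real.norm_of_nonneg (ph_pos _ _ _).le]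
    exact mul_le_of_le_one_left (norm_nonneg _) (ph_le _ _ _)
  refine integral_mono i3 (i1.add i2) fun x => ?_
  show ph L a (x 2) * eO v x ≤ A1 L a x * sO v x ^ 2 + A1 L a x * gsq (sO v) x
  have h1 := F_pd2_gsq (sO v) x
  have h2 : ph L a (x 2) * c2 x ≤ A1 L a x := by
    rcases le_or_gt (1 / 8) (rsq x) with h | h
    · rw [c2_zero h, mul_zero]
      exact (A1_nn L a x).1
    · rw [A1_one L a (by linarith)]
      exact mul_le_of_le_one_right (ph_pos _ _ _).le (c2_01 x).2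
  unfold eO
  calc ph L a (x 2) * (c2 x * (sO v x ^ 2 + pd 2 (sO v) x ^ 2)) = (ph L a (x 2) * c2 x) * (sO v x ^ 2 + pd 2 (sO v) x ^ 2) := by ring
    _ ≤ A1 L a x * (sO v x ^ 2 + gsq (sO v) x) := mul_le_mul h2 (by linarith) (by positivity) (A1_nn L a x).1
    _ = _ := by ring

/-- The sum over the boxes. -/
theorem T1_sum : ∃ D : ℝ, 1 ≤ D ∧ ∀ (ε K κ L a m m0 r2 τ : ℝ) (v : E3 → E3), Pool.Agent.H94.EP.Sl ε K κ v → 1 ≤ L → 0 < m →
    0 < r2 → r2 * κ ^ 2 ≤ 1 → 0 < m0 → m0 ≤ 1 / 2 → 0 < τ → CF * ε ^ 2 ≤ 2 * τ * m →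
    ∫ x in TA_Md κ, A1 L a x * (sO v x * GO v x) ≤ 8 * τ * GS m r2 m0 L a v + 80 * ε ^ 2 / τ * YY κ L a v +
      τ * m * m0 * κ ^ 4 * (D * L + D * (NO L a v + DO L a v)) := by
  obtain ⟨D, hD1, hD⟩ := Fb_pd2_sq
  refine ⟨128 * D, by linarith, fun ε K κ L a m m0 r2 τ v h hL hm hr2 hrk hm0 hm1 hτ hcond => ?_⟩
  have hv := h.vs
  have hL0 : 0 < L := by linarith
  have hκ : 0 < κ := by linarith [h.k1]
  obtain ⟨a1, a2⟩ := avg eta_pr.ct eta_pr.int.1 hL0 (S1_int (κ := κ) a hL hv)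
  obtain ⟨y1, y2⟩ := avg eta2_pr.ct eta2_pr.int.1 hL0 (TA_YYi (L := L) (a := a) h.k1 hv)
  obtain ⟨b1, b2⟩ := box_sum w3_pr hL0 a (eO_int hv) (eO_nn v)
  obtain ⟨p1, p2⟩ := ph_int hL a
  have hGi := phGain_int (a := a) hL hm hr2 hm0 (by linarith) hv
  have hY1 : (fun b => ∫ x, I_eta ((x 2 - b) / L) ^ 2 * (TA_Md κ).indicator (fun x => ph L a (x 2) * Zz v x ^ 2 / rsq x) x) =
    fun b => Y1 κ L a b v := rfl
  have hYY : ∫ x, (TA_Md κ).indicator (fun x => ph L a (x 2) * Zz v x ^ 2 / rsq x) x = YY κ L a v := by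
    rw [integral_indicator (TA_meas κ)]
    rfl
  rw [hY1] at y1
  have y2' : 1 / L * ∫ b, Y1 κ L a b v = (∫ t, I_eta t ^ 2) * YY κ L a v := by
    rw [← hYY]
    exact y2
  have hc : 0 ≤ 2 * τ * m * m0 * κ ^ 4 := by positivity
  have hbox : ∀ b, ∫ x, I_eta ((x 2 - b) / L) * S1 κ L a v x ≤ 8 * τ * (ph L a b * Gain m r2 m0 (Fb L b v)) +
      20 * ε ^ 2 / τ * Y1 κ L a b v + 2 * τ * m * m0 * κ ^ 4 * (16 * L * ph L a b + D * (ph L a b *
        ∫ x, w3 ((x 2 - b) / L) * eO v x)) := by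
    intro b
    refine (T1_box (b := b) (a := a) h hL hm hr2 hrk hm0 hm1 hτ hcond).trans ?_
    have h1 : ∫ x, pd 2 (Fb L b v) x ^ 2 ≤ ∫ x, D * (w3 ((x 2 - b) / L) * eO v x) :=
      integral_mono (sq_int ((Fb_cs hL0 b hv).pd 2)) ((w_int w3_pr b (eO_int hv)).const_mul _) fun x => hD L b v x hL hv
    rw [integral_const_mul] at h1
    have h2 : ph L a b * (16 * L + ∫ x, pd 2 (Fb L b v) x ^ 2) ≤
        16 * L * ph L a b + D * (ph L a b * ∫ x, w3 ((x 2 - b) / L) * eO v x) := by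
      have := mul_le_mul_of_nonneg_left h1 (ph_pos L a b).le
      linarith
    have := mul_le_mul_of_nonneg_left h2 hc
    linarith only [this]
  have j1 : Integrable (fun b => 8 * τ * (ph L a b * Gain m r2 m0 (Fb L b v))) := hGi.const_mul _
  have j2 : Integrable (fun b => 20 * ε ^ 2 / τ * Y1 κ L a b v) := y1.const_mul _
  have j3 : Integrable (fun b => 16 * L * ph L a b) := p1.const_mul _
  have j4 : Integrable (fun b => D * (ph L a b * ∫ x, w3 ((x 2 - b) / L) * eO v x)) := b1.const_mul _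
  have j34 : Integrable (fun b => 16 * L * ph L a b + D * (ph L a b * ∫ x, w3 ((x 2 - b) / L) * eO v x)) := j3.add j4
  have j5 : Integrable (fun b => 2 * τ * m * m0 * κ ^ 4 * (16 * L * ph L a b + D * (ph L a b *
        ∫ x, w3 ((x 2 - b) / L) * eO v x))) := j34.const_mul _
  have j12 : Integrable (fun b => 8 * τ * (ph L a b * Gain m r2 m0 (Fb L b v)) + 20 * ε ^ 2 / τ * Y1 κ L a b v) := j1.add j2
  have hint : ∫ b, ∫ x, I_eta ((x 2 - b) / L) * S1 κ L a v x ≤ ∫ b, (8 * τ * (ph L a b * Gain m r2 m0 (Fb L b v)) +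
      20 * ε ^ 2 / τ * Y1 κ L a b v + 2 * τ * m * m0 * κ ^ 4 * (16 * L * ph L a b + D * (ph L a b *
        ∫ x : E3, w3 ((x 2 - b) / L) * eO v x))) := integral_mono a1 (j12.add j5) hbox
  have e1 : ∫ b, (8 * τ * (ph L a b * Gain m r2 m0 (Fb L b v)) +
      20 * ε ^ 2 / τ * Y1 κ L a b v + 2 * τ * m * m0 * κ ^ 4 * (16 * L * ph L a b + D * (ph L a b *
        ∫ x : E3, w3 ((x 2 - b) / L) * eO v x))) =
      8 * τ * (∫ b, ph L a b * Gain m r2 m0 (Fb L b v)) + 20 * ε ^ 2 / τ * (∫ b, Y1 κ L a b v) +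
      2 * τ * m * m0 * κ ^ 4 * (16 * L * (∫ b, ph L a b) + D * ∫ b, ph L a b * ∫ x : E3, w3 ((x 2 - b) / L) * eO v x) := by
    rw [integral_add j12 j5, integral_add j1 j2, integral_const_mul, integral_const_mul, integral_const_mul,
      integral_add j3 j4, integral_const_mul, integral_const_mul]
  rw [e1] at hint
  have h1L : 0 ≤ 1 / L := by positivity
  have hint2 := mul_le_mul_of_nonneg_left hint h1L
  have hS : ∫ x, S1 κ L a v x = ∫ x in TA_Md κ, A1 L a x * (sO v x * GO v x) := integral_indicator (TA_meas κ)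
  rw [a2, hS] at hint2
  have e2 : 1 / L * (8 * τ * (∫ b, ph L a b * Gain m r2 m0 (Fb L b v)) + 20 * ε ^ 2 / τ * (∫ b, Y1 κ L a b v) +
      2 * τ * m * m0 * κ ^ 4 * (16 * L * (∫ b, ph L a b) + D * ∫ b, ph L a b * ∫ x : E3, w3 ((x 2 - b) / L) * eO v x)) =
      8 * τ * GS m r2 m0 L a v + 20 * ε ^ 2 / τ * (1 / L * ∫ b, Y1 κ L a b v) +
      2 * τ * m * m0 * κ ^ 4 * (16 * (∫ b, ph L a b) + D * (1 / L * ∫ b, ph L a b * ∫ x : E3, w3 ((x 2 - b) / L) * eO v x)) := by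
    unfold GS
    field_simp
  rw [e2, y2'] at hint2
  have hY0 : 0 ≤ YY κ L a v := by
    unfold YY
    refine integral_nonneg fun x => ?_
    have h1 := ph_pos L a (x 2)
    have h2 := TA_rsq_nn x
    positivity
  have hG0 := GS_nn (a := a) hL0 hm hr2 hm0 (by linarith only [hm0, hm1] : m0 ≤ 1) v
  have hNO : 0 ≤ NO L a v := integral_nonneg fun x => mul_nonneg (A1_nn L a x).1 (sq_nonneg _)
  have hDO : 0 ≤ DO L a v := PA_Dn_nn L a (sO v)
  have u1 : 20 * ε ^ 2 / τ * ((∫ t, I_eta t ^ 2) * YY κ L a v) ≤ 80 * ε ^ 2 / τ * YY κ L a v := by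
    have h3 : (∫ t, I_eta t ^ 2) * YY κ L a v ≤ 4 * YY κ L a v := mul_le_mul_of_nonneg_right eta2_pr.int.2 hY0
    calc 20 * ε ^ 2 / τ * ((∫ t, I_eta t ^ 2) * YY κ L a v) ≤ 20 * ε ^ 2 / τ * (4 * YY κ L a v) :=
          mul_le_mul_of_nonneg_left h3 (by positivity)
      _ = _ := by ring
  have u2 : 16 * (∫ b, ph L a b) + D * (1 / L * ∫ b, ph L a b * ∫ x : E3, w3 ((x 2 - b) / L) * eO v x) ≤
      64 * D * L + 28 * D * (NO L a v + DO L a v) := by
    have h3 : 1 / L * (∫ b, ph L a b * ∫ x, w3 ((x 2 - b) / L) * eO v x) ≤ 28 * (NO L a v + DO L a v) :=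
      b2.trans (mul_le_mul_of_nonneg_left (eO_le hL hv) (by norm_num))
    have h4 := mul_le_mul_of_nonneg_left h3 (by linarith only [hD1, hm0, hm1] : (0 : ℝ) ≤ D)
    have h5 : 64 * L ≤ 64 * D * L := by nlinarith only [hD1, hL]
    linarith only [p2, h4, h5]
  have u3 := mul_le_mul_of_nonneg_left u2 hc
  have u4 : 2 * τ * m * m0 * κ ^ 4 * (64 * D * L + 28 * D * (NO L a v + DO L a v)) ≤
      τ * m * m0 * κ ^ 4 * (128 * D * L + 128 * D * (NO L a v + DO L a v)) := by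
    have h5 : 0 ≤ τ * m * m0 * κ ^ 4 * (D * (NO L a v + DO L a v)) := by positivity
    linarith only [h5]
  have hR : (∫ t, I_eta t) * ∫ x in TA_Md κ, A1 L a x * (sO v x * GO v x) ≤ 8 * τ * GS m r2 m0 L a v +
      80 * ε ^ 2 / τ * YY κ L a v + τ * m * m0 * κ ^ 4 * (128 * D * L + 128 * D * (NO L a v + DO L a v)) := by
    linarith only [hint2, u1, u3, u4]
  have hR0 : 0 ≤ 8 * τ * GS m r2 m0 L a v +
      80 * ε ^ 2 / τ * YY κ L a v + τ * m * m0 * κ ^ 4 * (128 * D * L + 128 * D * (NO L a v + DO L a v)) := by positivity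
  rcases le_or_gt 0 (∫ x in TA_Md κ, A1 L a x * (sO v x * GO v x)) with h0 | h0
  · have := mul_le_mul_of_nonneg_right eta_one h0
    linarith only [hint2, u1, u3, u4, this]
  · linarith only [hR0, h0]

theorem t1 : T1P := by
  obtain ⟨D, hD1, hD⟩ := T1_sum
  obtain ⟨C1, hC1, H1⟩ := t1c
  obtain ⟨C2, hC2, H2⟩ := NO_le
  have hCF := CF_pos
  refine ⟨4 * CF + 640 + C1 + 128 * D * C2, ?_, fun ε K κ L a m τ v h hCK hm hm1 hτ hτ1 hcond => ?_⟩
  · have : 0 ≤ 128 * D * C2 := by positivity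
    linarith
  have hv := h.vs
  have hK := h.K2
  have hκ := h.k1
  have hκ0 : 0 < κ := by linarith
  have hDC : 1 ≤ D * C2 := by nlinarith
  have hLC : 4 * CF + 640 + C1 + 128 * D * C2 ≤ L / 2 := by nlinarith
  have hL : 1 ≤ L := by linarith
  have hL0 : 0 < L := by linarith
  have hκL : L ≤ κ * L := by nlinarith only [hC1, hCF, hκ, hDC, hLC]
  have hrz : 0 < rz κ := by unfold rz; positivity
  have hrk : rz κ * κ ^ 2 ≤ 1 := by
    unfold rz
    rw [inv_mul_le_iff₀ (by positivity), mul_one]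
    exact pow_le_pow_right₀ hκ (by norm_num)
  have hmz : 0 < mz κ L := by unfold mz; positivity
  have hmzL : mz κ L * κ ^ 4 ≤ 1 / L ^ 6 := by
    unfold mz
    rw [inv_mul_le_iff₀ (by positivity), mul_one_div, le_div_iff₀ (by positivity)]
    have : κ ^ 4 * L ^ 6 ≤ κ ^ 6 * L ^ 6 := mul_le_mul_of_nonneg_right (pow_le_pow_right₀ hκ (by norm_num)) (by positivity)
    calc κ ^ 4 * L ^ 6 ≤ κ ^ 6 * L ^ 6 := this
      _ = (κ * L) ^ 6 := by ring
  have hL6 : L ≤ L ^ 6 := by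
    calc L = L ^ 1 := (pow_one L).symm
      _ ≤ L ^ 6 := pow_le_pow_right₀ hL (by norm_num)
  have hmz1 : mz κ L ≤ 1 / 2 := by
    have h1 : mz κ L ≤ mz κ L * κ ^ 4 := le_mul_of_one_le_right hmz.le (one_le_pow₀ hκ)
    have h2 : 1 / L ^ 6 ≤ 1 / 2 := by
      apply div_le_div_of_nonneg_left zero_le_one (by norm_num)
      linarith
    linarith
  have hsum := hD ε K κ L a m (mz κ L) (rz κ) (τ / 8) v h hL hm hrz hrk hmz hmz1 (by positivity) (by
    have h1 : 0 ≤ ε ^ 2 := sq_nonneg _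
    have h2 : 4 * CF * ε ^ 2 ≤ τ * m := by
      refine le_trans ?_ hcond
      apply mul_le_mul_of_nonneg_right _ h1
      linarith [show 0 ≤ 128 * D * C2 by positivity]
    linarith)
  have hc := H1 ε K κ L a v h hL
  have hN := H2 L a v hL hv
  have hG : 0 ≤ GG L a v := PA_GG_nn L a v
  have hDJ : 0 ≤ DJ L a v := PA_Dn_nn L a (Zz v)
  have hO : 0 ≤ DO L a v := PA_Dn_nn L a (sO v)
  have hY : 0 ≤ YY κ L a v := by
    unfold YY
    refine integral_nonneg fun x => ?_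
    have h1 := ph_pos L a (x 2)
    have h2 := TA_rsq_nn x
    positivity
  have hadd : ∫ x, A1 L a x * (sO v x * GO v x) = (∫ x in TA_Md κ, A1 L a x * (sO v x * GO v x)) +
      ∫ x in (TA_Md κ)ᶜ, A1 L a x * (sO v x * GO v x) := (integral_add_compl (TA_meas κ) (TA_int hL hv)).symm
  have e1 : 80 * ε ^ 2 / (τ / 8) * YY κ L a v = 640 * ε ^ 2 / τ * YY κ L a v := by
    field_simp
    ring
  rw [e1] at hsum
  have e2 : τ / 8 * m * mz κ L * κ ^ 4 * (D * L + D * (NO L a v + DO L a v)) ≤ 1 + 1 / 64 * DO L a v + GG L a v := by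
    have h1 : τ / 8 * m ≤ 1 := by nlinarith only [hm, hm1, hτ1, hmz, hmz1]
    have h2 : NO L a v + DO L a v ≤ C2 * (2 * DO L a v + GG L a v) := by nlinarith only [hC2, hN, hO]
    have h3 : D * L + D * (NO L a v + DO L a v) ≤ D * L + D * (C2 * (2 * DO L a v + GG L a v)) := by gcongr
    have h4 : τ / 8 * m * mz κ L * κ ^ 4 ≤ 1 / L ^ 6 := by
      calc τ / 8 * m * mz κ L * κ ^ 4 = (τ / 8 * m) * (mz κ L * κ ^ 4) := by ring
        _ ≤ 1 * (1 / L ^ 6) := mul_le_mul h1 hmzL (by positivity) zero_le_one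
        _ = _ := one_mul _
    have h5 : 0 ≤ D * L + D * (C2 * (2 * DO L a v + GG L a v)) := by positivity
    have h6 : 0 ≤ D * L + D * (NO L a v + DO L a v) := by
      have hNO : 0 ≤ NO L a v := integral_nonneg fun x => mul_nonneg (A1_nn L a x).1 (sq_nonneg _)
      positivity
    calc τ / 8 * m * mz κ L * κ ^ 4 * (D * L + D * (NO L a v + DO L a v))
        ≤ 1 / L ^ 6 * (D * L + D * (C2 * (2 * DO L a v + GG L a v))) := mul_le_mul h4 h3 h6 (by positivity)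
      _ ≤ 1 + 1 / 64 * DO L a v + GG L a v := by
          have g1 : D * L ≤ L ^ 6 := by
            have : D ≤ L := by nlinarith only [hD1, hC1, hC2, hCF, hDC, hLC, hmz, hmz1]
            calc D * L ≤ L * L := mul_le_mul_of_nonneg_right this hL0.le
              _ = L ^ 2 := by ring
              _ ≤ L ^ 6 := pow_le_pow_right₀ hL (by norm_num)
          have g2 : 128 * (D * C2) ≤ L ^ 6 := by linarith only [hC1, hCF, hDC, hLC, hmz, hL6, hmz1]
          rw [one_div, inv_mul_le_iff₀ (by positivity)]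
          have g3 : D * (C2 * (2 * DO L a v + GG L a v)) = 128 * (D * C2) * (1 / 64 * DO L a v) + (D * C2) * GG L a v := by ring
          rw [g3]
          have g4 : 128 * (D * C2) * (1 / 64 * DO L a v) ≤ L ^ 6 * (1 / 64 * DO L a v) :=
            mul_le_mul_of_nonneg_right g2 (by positivity)
          have g5 : (D * C2) * GG L a v ≤ L ^ 6 * GG L a v := mul_le_mul_of_nonneg_right (by linarith) hG
          linarith only [g1, g4, g5]
  have e3 : 8 * (τ / 8) * GS m (rz κ) (mz κ L) L a v = τ * GS m (rz κ) (mz κ L) L a v := by ring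
  rw [e3] at hsum
  have hc' := (abs_le.1 hc).2
  have hS : 0 ≤ ε ^ 2 * Sc κ ^ 2 * (DJ L a v + GG L a v) := by positivity
  obtain ⟨C, hC⟩ : ∃ C, C = 4 * CF + 640 + C1 + 128 * D * C2 := ⟨_, rfl⟩
  rw [← hC]
  have hC640 : 640 ≤ C := by linarith only [show 0 ≤ 128 * D * C2 by positivity, hC1, hCF, hDC, hmz, hmz1, hC]
  have hCC1 : C1 + 1 ≤ C := by linarith only [show 0 ≤ 128 * D * C2 by positivity, hCF, hDC, hmz, hmz1, hC]
  have k1 : 640 * ε ^ 2 / τ * YY κ L a v ≤ C * ε ^ 2 / τ * YY κ L a v := by gcongr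
  have k2 : C1 * (ε ^ 2 * Sc κ ^ 2 * (DJ L a v + GG L a v)) ≤ C * (ε ^ 2 * Sc κ ^ 2 * (DJ L a v + GG L a v)) :=
    mul_le_mul_of_nonneg_right (by linarith only [hCF, hDC, hmz, hmz1, hC]) hS
  have k3 : (C1 + 1) * GG L a v ≤ C * GG L a v := mul_le_mul_of_nonneg_right hCC1 hG
  rw [hadd]
  linarith

end Pool.Agent.H90.TQ
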