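import Pool.Agent.H87.TQ.Ge
import Pool.Agent.H87.TQ.Lh
import Pool.Agent.H87.EP.G
import Pool.Agent.H90.TQ.T1

/-! The vertical strain near the axis, and the averages of the dissipation over the heights. -/

set_option autoImplicit false

open Set Filter Topology MeasureTheory
open scoped ContDiff InnerProductSpace

namespace Pool.Agent.H90.TQ

open Pool.Agent.H16 Pool.Agent.H72.CC Pool.Agent.H94.EP Pool.Agent.H87.EP Pool.Agent.H42.TQ Pool.Agent.H90.EP
open Pool.Agent.H87.NS hiding c1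
open Pool.Agent.H16.TU hiding Sl

/-! ### Averages over the heights -/

theorem cv_g {L : ℝ} (hL : 1 ≤ L) (a : ℝ) {g : E3 → ℝ} (hg : Integrable g) (h0 : ∀ x, 0 ≤ g x) :
    Integrable (fun b => ph L a b * ∫ x, ph L b (x 2) * g x) ∧
      (1 / L) * (∫ b, ph L a b * ∫ x, ph L b (x 2) * g x) ≤ 32 * ∫ x, ph L a (x 2) * g x := by
  have hL0 : 0 < L := by linarith
  obtain ⟨p1, p2⟩ := ph_int hL a
  obtain ⟨q1, q2⟩ := ph_int hL (0 : ℝ)
  have hw : Continuous (ph L 0) := (ph_smooth L 0).continuous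
  have he : ∀ b s : ℝ, ph L 0 (s - b) = ph L b s := by
    intro b s
    unfold ph
    simp
  have hpc : Continuous (fun x : E3 => ph L a (x 2)) := (ph_smooth L a).continuous.comp I_c2
  have hpg : Integrable (fun x => ph L a (x 2) * g x) := by
    refine hg.norm.mono' (hpc.aestronglyMeasurable.mul hg.aestronglyMeasurable) (ae_of_all _ fun x => ?_)
    rw [norm_mul, Real.norm_of_nonneg (ph_pos _ _ _).le]
    exact mul_le_of_le_one_left (norm_nonneg _) (ph_le _ _ _)
  obtain ⟨i1, -⟩ := I_fub hw q1 hg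
  obtain ⟨i2, e2⟩ := I_fub hw q1 hpg
  simp only [he] at i1 i2 e2
  have hbg : ∀ b, Integrable (fun x => ph L b (x 2) * g x) := by
    intro b
    have hpc' : Continuous (fun x : E3 => ph L b (x 2)) := (ph_smooth L b).continuous.comp I_c2
    refine hg.norm.mono' (hpc'.aestronglyMeasurable.mul hg.aestronglyMeasurable) (ae_of_all _ fun x => ?_)
    rw [norm_mul, Real.norm_of_nonneg (ph_pos _ _ _).le]
    exact mul_le_of_le_one_left (norm_nonneg _) (ph_le _ _ _)
  have hbp : ∀ b, Integrable (fun x => ph L b (x 2) * (ph L a (x 2) * g x)) := by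
    intro b
    have hpc' : Continuous (fun x : E3 => ph L b (x 2)) := (ph_smooth L b).continuous.comp I_c2
    refine hpg.norm.mono' (hpc'.aestronglyMeasurable.mul hpg.aestronglyMeasurable) (ae_of_all _ fun x => ?_)
    rw [norm_mul, Real.norm_of_nonneg (ph_pos _ _ _).le]
    exact mul_le_of_le_one_left (norm_nonneg _) (ph_le _ _ _)
  have i3 : Integrable (fun b => ph L a b * ∫ x, ph L b (x 2) * g x) := by
    refine i1.norm.mono' ((ph_smooth L a).continuous.aestronglyMeasurable.mul i1.aestronglyMeasurable) (ae_of_all _ fun b => ?_)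
    rw [norm_mul, Real.norm_of_nonneg (ph_pos _ _ _).le]
    exact mul_le_of_le_one_left (norm_nonneg _) (ph_le _ _ _)
  refine ⟨i3, ?_⟩
  have hkey : ∀ b s : ℝ, ph L a b * ph L b s ≤ 4 * (ph L a s * (ph L a b + ph L b s)) := by
    intro b s
    unfold ph
    obtain ⟨X, hX⟩ : ∃ X, X = (b - a) / L := ⟨_, rfl⟩
    obtain ⟨Y, hY⟩ : ∃ Y, Y = (s - b) / L := ⟨_, rfl⟩
    have e1 : (b - a) ^ 2 / L ^ 2 = X ^ 2 := by rw [hX, div_pow]
    have e2 : (s - b) ^ 2 / L ^ 2 = Y ^ 2 := by rw [hY, div_pow]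
    have e3 : (s - a) ^ 2 / L ^ 2 = (X + Y) ^ 2 := by
      rw [hX, hY, ← add_div, div_pow]
      congr 2
      ring
    rw [e1, e2, e3]
    have h1 : 0 < 1 + X ^ 2 := by positivity
    have h2 : 0 < 1 + Y ^ 2 := by positivity
    have h3 : 0 < 1 + (X + Y) ^ 2 := by positivity
    have e4 : 4 * ((1 + (X + Y) ^ 2)⁻¹ * ((1 + X ^ 2)⁻¹ + (1 + Y ^ 2)⁻¹)) =
        4 * (2 + X ^ 2 + Y ^ 2) / ((1 + (X + Y) ^ 2) * ((1 + X ^ 2) * (1 + Y ^ 2))) := by
      field_simp
      ring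
    have e5 : (1 + X ^ 2)⁻¹ * (1 + Y ^ 2)⁻¹ = 1 / ((1 + X ^ 2) * (1 + Y ^ 2)) := by
      rw [← mul_inv, one_div]
    rw [e4, e5, div_le_div_iff₀ (by positivity) (by positivity)]
    have h4 : 1 + (X + Y) ^ 2 ≤ 4 * (2 + X ^ 2 + Y ^ 2) := by nlinarith [sq_nonneg (X - Y)]
    calc 1 * ((1 + (X + Y) ^ 2) * ((1 + X ^ 2) * (1 + Y ^ 2))) = (1 + (X + Y) ^ 2) * ((1 + X ^ 2) * (1 + Y ^ 2)) := one_mul _
      _ ≤ 4 * (2 + X ^ 2 + Y ^ 2) * ((1 + X ^ 2) * (1 + Y ^ 2)) := mul_le_mul_of_nonneg_right h4 (by positivity)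
  have hb : ∀ b, ph L a b * (∫ x, ph L b (x 2) * g x) ≤
      4 * (ph L a b * ∫ x, ph L a (x 2) * g x) + 4 * ∫ x, ph L b (x 2) * (ph L a (x 2) * g x) := by
    intro b
    rw [← integral_const_mul, ← integral_const_mul, ← integral_const_mul, ← integral_const_mul,
      ← integral_add ((hpg.const_mul _).const_mul _) ((hbp b).const_mul _)]
    refine integral_mono ((hbg b).const_mul _) (((hpg.const_mul _).const_mul _).add ((hbp b).const_mul _)) fun x => ?_
    show ph L a b * (ph L b (x 2) * g x) ≤ 4 * (ph L a b * (ph L a (x 2) * g x)) + 4 * (ph L b (x 2) * (ph L a (x 2) * g x))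
    have := mul_le_mul_of_nonneg_right (hkey b (x 2)) (h0 x)
    linarith
  have j1 : Integrable (fun b => 4 * (ph L a b * ∫ x, ph L a (x 2) * g x)) := (p1.mul_const _).const_mul _
  have j2 : Integrable (fun b => 4 * ∫ x, ph L b (x 2) * (ph L a (x 2) * g x)) := i2.const_mul _
  have hint := integral_mono i3 (j1.add j2) hb
  have e3 : ∫ b, (4 * (ph L a b * ∫ x, ph L a (x 2) * g x) + 4 * ∫ x, ph L b (x 2) * (ph L a (x 2) * g x)) =
      4 * ((∫ b, ph L a b) * ∫ x, ph L a (x 2) * g x) + 4 * ((∫ t, ph L 0 t) * ∫ x, ph L a (x 2) * g x) := by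
    rw [integral_add j1 j2, integral_const_mul, integral_const_mul, integral_mul_const, e2]
  have hint' : ∫ b, ph L a b * (∫ x, ph L b (x 2) * g x) ≤
      4 * ((∫ b, ph L a b) * ∫ x, ph L a (x 2) * g x) + 4 * ((∫ t, ph L 0 t) * ∫ x, ph L a (x 2) * g x) := by
    rw [← e3]
    exact hint
  have hP : 0 ≤ ∫ x, ph L a (x 2) * g x := integral_nonneg fun x => mul_nonneg (ph_pos _ _ _).le (h0 x)
  have h5 : ∫ b, ph L a b * (∫ x, ph L b (x 2) * g x) ≤ 32 * L * ∫ x, ph L a (x 2) * g x := by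
    have h6 := mul_le_mul_of_nonneg_right p2 hP
    have h7 := mul_le_mul_of_nonneg_right q2 hP
    nlinarith
  calc (1 / L) * (∫ b, ph L a b * ∫ x, ph L b (x 2) * g x) ≤ (1 / L) * (32 * L * ∫ x, ph L a (x 2) * g x) :=
        mul_le_mul_of_nonneg_left h5 (by positivity)
    _ = 32 * ∫ x, ph L a (x 2) * g x := by field_simp

/-- The density of the dissipation. -/
noncomputable def dg (v : E3 → E3) (x : E3) : ℝ :=
  Pool.Agent.H94.EP.c1 x ^ 4 * gsq (sO v) x + ({x : E3 | rsq x < 1 / 2}).indicator (gv v) x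

theorem dg_nn (v : E3 → E3) (x : E3) : 0 ≤ dg v x := by
  unfold dg
  have h1 : 0 ≤ gsq (sO v) x := gsq_nonneg _ x
  have h2 : 0 ≤ ({x : E3 | rsq x < 1 / 2}).indicator (gv v) x := indicator_nonneg (fun y _ => gv_nn v y) x
  have h3 : 0 ≤ Pool.Agent.H94.EP.c1 x := Real.smoothTransition.nonneg _
  positivity

theorem dg_int {v : E3 → E3} (hv : Vs v) : Integrable (dg v) := by
  have hO := ri_int (vs_ri hv).2.2.1
  have h1 : Continuous (fun x : E3 => Pool.Agent.H94.EP.c1 x) := by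
    unfold Pool.Agent.H94.EP.c1
    exact Real.smoothTransition.continuous.comp (continuous_const.sub (continuous_const.mul TA_rsq_cont))
  have i1 : Integrable (fun x => Pool.Agent.H94.EP.c1 x ^ 4 * gsq (sO v) x) := by
    refine hO.2.1.mono' ((h1.pow 4).aestronglyMeasurable.mul hO.2.1.aestronglyMeasurable) (ae_of_all _ fun x => ?_)
    have h2 : 0 ≤ Pool.Agent.H94.EP.c1 x := Real.smoothTransition.nonneg _
    have h3 : Pool.Agent.H94.EP.c1 x ≤ 1 := Real.smoothTransition.le_one _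
    have h4 := gsq_nonneg (sO v) x
    rw [Real.norm_of_nonneg (by positivity)]
    exact mul_le_of_le_one_left h4 (pow_le_one₀ h2 h3)
  exact i1.add ((P_gv_int hv).indicator TA_meas')

theorem dg_eq {L : ℝ} (hL : 1 ≤ L) (b : ℝ) {v : E3 → E3} (hv : Vs v) : ∫ x, ph L b (x 2) * dg v x = DO L b v + GG L b v := by
  have i1 := F_gsq hL b (vs_ri hv).2.2.1
  have i2 : Integrable (({x : E3 | rsq x < 1 / 2}).indicator (fun x => ph L b (x 2) * gv v x)) := (gv_int hv hL b).indicator TA_meas'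
  have e : (fun x => ph L b (x 2) * dg v x) = fun x => A1 L b x * gsq (sO v) x +
      ({x : E3 | rsq x < 1 / 2}).indicator (fun x => ph L b (x 2) * gv v x) x := by
    funext x
    unfold dg A1
    by_cases hx : x ∈ {x : E3 | rsq x < 1 / 2}
    · rw [indicator_of_mem hx, indicator_of_mem hx]
      ring
    · rw [indicator_of_notMem hx, indicator_of_notMem hx]
      ring
  rw [e, integral_add i1 i2, integral_indicator TA_meas']
  rfl

theorem cv : ∃ C : ℝ, 1 ≤ C ∧ ∀ (L a : ℝ) (v : E3 → E3), C ≤ L → Vs v →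
    Integrable (fun b => ph L a b * (DO L b v + GG L b v)) ∧
    (1 / L) * (∫ b, ph L a b * (DO L b v + GG L b v)) ≤ C * (DO L a v + GG L a v) := by
  refine ⟨32, by norm_num, fun L a v hCL hv => ?_⟩
  have hL : 1 ≤ L := by linarith
  have h := cv_g hL a (dg_int hv) (dg_nn v)
  simp only [dg_eq hL _ hv] at h
  exact h

/-! ### The strain near the axis -/

theorem DG_near {L : ℝ} (hL : 1 ≤ L) {a b : ℝ} (h : |a - b| ≤ 2 * L) {v : E3 → E3} (hv : Vs v) :
    DO L a v + GG L a v ≤ 9 * (DO L b v + GG L b v) := by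
  have hL0 : 0 < L := by linarith
  have hint : ∀ b : ℝ, Integrable (fun x => ph L b (x 2) * dg v x) := by
    intro b
    have hpc' : Continuous (fun x : E3 => ph L b (x 2)) := (ph_smooth L b).continuous.comp I_c2
    refine (dg_int hv).norm.mono' (hpc'.aestronglyMeasurable.mul (dg_int hv).aestronglyMeasurable) (ae_of_all _ fun x => ?_)
    rw [norm_mul, Real.norm_of_nonneg (ph_pos _ _ _).le]
    exact mul_le_of_le_one_left (norm_nonneg _) (ph_le _ _ _)
  rw [← dg_eq hL a hv, ← dg_eq hL b hv, ← integral_const_mul]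
  refine integral_mono (hint a) ((hint b).const_mul 9) fun x => ?_
  show ph L a (x 2) * dg v x ≤ 9 * (ph L b (x 2) * dg v x)
  have h1 : ph L a (x 2) ≤ 9 * ph L b (x 2) := by
    rw [Pool.Agent.H87.TQ.ph_symm L a, Pool.Agent.H87.TQ.ph_symm L b]
    exact Pool.Agent.H87.TQ.ph_near hL0 (x 2) (by rw [abs_sub_comm]; exact h)
  calc ph L a (x 2) * dg v x ≤ (9 * ph L b (x 2)) * dg v x := mul_le_mul_of_nonneg_right h1 (dg_nn v x)
    _ = _ := by ring

theorem Sc_sq {κ : ℝ} (hκ : 1 ≤ κ) : Sc κ ^ 2 ≤ 400 * κ := by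
  have h0 : 0 < κ := by linarith
  have h1 : 1 ≤ √κ := Real.one_le_sqrt.2 hκ
  have h2 : Real.log κ = 2 * Real.log √κ := by rw [Real.log_sqrt h0.le]; ring
  have h3 := Real.log_le_sub_one_of_pos (show 0 < √κ by linarith)
  have h4 : Sc κ ≤ 20 * √κ := by
    unfold Sc
    rw [h2]
    linarith
  have h5 := PA_Sc hκ
  calc Sc κ ^ 2 ≤ (20 * √κ) ^ 2 := pow_le_pow_left₀ (by linarith) h4 2
    _ = 400 * κ := by rw [mul_pow, Real.sq_sqrt h0.le]; norm_num

theorem log_rz {κ : ℝ} (hκ : 1 ≤ κ) : 1 + Real.log ((1 + rz κ) / rz κ) ≤ Sc κ := by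
  have h0 : 0 < κ := by linarith
  have e : (1 + rz κ) / rz κ = κ ^ 4 + 1 := by
    unfold rz
    field_simp
  rw [e]
  have h1 : κ ^ 4 + 1 ≤ 2 * κ ^ 4 := by
    have := one_le_pow₀ (n := 4) hκ
    linarith
  have h2 : Real.log (κ ^ 4 + 1) ≤ Real.log 2 + 4 * Real.log κ := by
    calc Real.log (κ ^ 4 + 1) ≤ Real.log (2 * κ ^ 4) := Real.log_le_log (by positivity) h1
      _ = _ := by rw [Real.log_mul (by norm_num) (by positivity), Real.log_pow]; norm_num
  have h3 : Real.log 2 ≤ 1 := by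
    have := Real.log_le_sub_one_of_pos (show (0:ℝ) < 2 by norm_num)
    linarith
  unfold Sc
  linarith

/-- The square of the localised function. -/
theorem Fb_NO {L b : ℝ} (hL : 1 ≤ L) {v : E3 → E3} (hv : Vs v) : ∫ x, Fb L b v x ^ 2 ≤ 3 * NO L b v := by
  have hL0 : 0 < L := by linarith
  unfold NO
  rw [← integral_const_mul]
  refine integral_mono (sq_int (Fb_cs hL0 b hv)) ((F_Asq hL b (vs_ri hv).2.2.1).const_mul 3) fun x => ?_
  show Fb L b v x ^ 2 ≤ 3 * (A1 L b x * sO v x ^ 2)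
  have hA := (A1_nn L b x).1
  by_cases h : rsq x < 1 / 8 ∧ (x 2 - b) ^ 2 < 2 * L ^ 2
  · refine (sq_le_O (L := L) (b := b) (v := v) x).trans ?_
    rw [A1_one L b (by linarith [h.1])]
    have h1 : 1 ≤ 3 * ph L b (x 2) := by
      unfold ph
      rw [← div_eq_mul_inv, le_div_iff₀ (by positivity), one_mul]
      have : (x 2 - b) ^ 2 / L ^ 2 ≤ 2 := by
        rw [div_le_iff₀ (by positivity)]
        exact h.2.le
      linarith
    nlinarith [sq_nonneg (sO v x)]
  · have h1 : Fb L b v x = 0 := by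
      unfold Fb
      rw [cb_eq]
      rcases not_and_or.1 h with h2 | h2
      · rw [c2_zero (not_lt.1 h2)]
        simp
      · have : wS ((x 2 - b) / L) = 0 := by
          apply wS_zero
          rw [div_pow, le_div_iff₀ (by positivity)]
          exact not_lt.1 h2
        rw [this]
        simp
    rw [h1, zero_pow two_ne_zero]
    positivity

theorem wt : ∃ C : ℝ, 1 ≤ C ∧ ∀ (ε K κ L b : ℝ) (v : E3 → E3), Pool.Agent.H94.EP.Sl ε K κ v → C ≤ L → NO L b v ≤ κ →
    ∃ M : ℝ, (∀ x, rsq x ≤ 1 / 4 → |x 2 - b| ≤ 2 * L → |sW v x| ≤ M) ∧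
      4 * M * (∫ q, rz κ / (sq2 q + rz κ) * ‖fib (Fb L b v) q‖ ^ 2) ≤ C / κ * (DO L b v + GG L b v + ∫ x, gsq (Fb L b v) x) := by
  obtain ⟨C1, hC1, H1⟩ := p1w
  refine ⟨5000 * C1, by linarith, fun ε K κ L b v h hCL hNO => ?_⟩
  have hv := h.vs
  have hκ := h.k1
  have hκ0 : 0 < κ := by linarith
  have hL : 1 ≤ L := by linarith
  have hL0 : 0 < L := by linarith
  have hF := Fb_cs hL0 b hv
  have hr : 0 < rz κ := by unfold rz; positivity
  have hG : 0 ≤ GG L b v := PA_GG_nn L b v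
  have hO : 0 ≤ DO L b v := PA_Dn_nn L b (sO v)
  obtain ⟨D, hD⟩ : ∃ D, D = DO L b v + GG L b v := ⟨_, rfl⟩
  have hD0 : 0 ≤ D := by rw [hD]; linarith
  refine ⟨√(9 * C1 * D), ?_, ?_⟩
  · intro x hx hxb
    have h1 := (H1 ε K κ L (x 2) v h (by linarith) x hx (by rw [sub_self, abs_zero]; linarith)).1
    have h2 := DG_near hL hxb hv
    rw [← hD] at h2
    apply Real.abs_le_sqrt
    calc sW v x ^ 2 ≤ C1 * (DO L (x 2) v + GG L (x 2) v) := h1
      _ ≤ C1 * (9 * D) := mul_le_mul_of_nonneg_left h2 (by linarith)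
      _ = 9 * C1 * D := by ring
  -- the integral
  obtain ⟨G, hGe⟩ : ∃ G, G = ∫ x, gsq (Fb L b v) x := ⟨_, rfl⟩
  have hG0 : 0 ≤ G := by rw [hGe]; exact integral_nonneg fun x => gsq_nonneg _ x
  rw [← hD, ← hGe]
  rcases (show 0 ≤ D + G by linarith).eq_or_lt with hz | hz
  · have hDz : D = 0 := by linarith
    rw [hDz, mul_zero, Real.sqrt_zero, mul_zero, zero_mul]
    have hGz : G = 0 := by linarith
    rw [hGz]
    simp
  -- transfer to the space
  have hrc : Continuous (fun x : E3 => rz κ / (rsq x + rz κ)) := by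
    refine continuous_const.div (TA_rsq_cont.add continuous_const) fun x => ?_
    have := TA_rsq_nn x
    positivity
  have hrc1 : ∀ x : E3, 0 ≤ rz κ / (rsq x + rz κ) ∧ rz κ / (rsq x + rz κ) ≤ 1 := by
    intro x
    have h1 := TA_rsq_nn x
    refine ⟨by positivity, ?_⟩
    rw [div_le_one (by positivity)]
    linarith
  have hF2 := sq_int hF
  have i1 : Integrable (fun x : E3 => rz κ / (rsq x + rz κ) * Fb L b v x ^ 2) := by
    refine hF2.mono' (hrc.aestronglyMeasurable.mul hF2.aestronglyMeasurable) (ae_of_all _ fun x => ?_)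
    have h1 := hrc1 x
    rw [Real.norm_of_nonneg (mul_nonneg h1.1 (sq_nonneg _))]
    exact mul_le_of_le_one_left (sq_nonneg _) h1.2
  have e1 : ∫ q, rz κ / (sq2 q + rz κ) * ‖fib (Fb L b v) q‖ ^ 2 = ∫ x : E3, rz κ / (rsq x + rz κ) * Fb L b v x ^ 2 := by
    have h1 := (fub_w (F := fun x => Fb L b v x ^ 2) (fun q => rz κ / (sq2 q + rz κ)) i1).2
    have h2 : (fun q : ℝ × ℝ => rz κ / (sq2 q + rz κ) * ‖fib (Fb L b v) q‖ ^ 2) =
        fun q => rz κ / (sq2 q + rz κ) * ∫ z, Fb L b v (pt q z) ^ 2 := by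
      funext q
      rw [fib_norm hF]
    rw [h2, h1]
    rfl
  rw [e1]
  have hA : ∫ x, Fb L b v x ^ 2 ≤ 3 * κ := (Fb_NO hL hv).trans (by linarith)
  have hH0 := Pool.Agent.H87.TQ.logH hF (fun x hx => Fb_out (by linarith)) hr
  have iH : Integrable (fun x : E3 => Fb L b v x ^ 2 / (rsq x + rz κ)) := by
    have h1 := i1.const_mul (1 / rz κ)
    refine h1.congr (ae_of_all _ fun x => ?_)
    have := TA_rsq_nn x
    show 1 / rz κ * (rz κ / (rsq x + rz κ) * Fb L b v x ^ 2) = Fb L b v x ^ 2 / (rsq x + rz κ)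
    field_simp
  have iP : ∀ i : Fin 3, Integrable (fun x => pd i (Fb L b v) x ^ 2) := fun i => sq_int (hF.pd i)
  have hGs : ∫ x, (pd 0 (Fb L b v) x ^ 2 + pd 1 (Fb L b v) x ^ 2) ≤ G := by
    rw [hGe]
    have iG : Integrable (fun x => gsq (Fb L b v) x) := by
      unfold gsq
      exact integrable_finsetSum _ fun i _ => iP i
    refine integral_mono ((iP 0).add (iP 1)) iG fun x => ?_
    show pd 0 (Fb L b v) x ^ 2 + pd 1 (Fb L b v) x ^ 2 ≤ gsq (Fb L b v) x
    unfold gsq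
    rw [Fin.sum_univ_three]
    linarith [sq_nonneg (pd 2 (Fb L b v) x)]
  have hlog := log_rz hκ
  have hlog0 : 0 ≤ Real.log ((1 + rz κ) / rz κ) := Real.log_nonneg (by rw [le_div_iff₀ hr]; linarith)
  have hP0 : 0 ≤ ∫ x, (pd 0 (Fb L b v) x ^ 2 + pd 1 (Fb L b v) x ^ 2) := integral_nonneg fun x => by positivity
  have hH : ∫ x, Fb L b v x ^ 2 / (rsq x + rz κ) ≤ 400 * κ * G := by
    calc ∫ x, Fb L b v x ^ 2 / (rsq x + rz κ) ≤ (1 + Real.log ((1 + rz κ) / rz κ)) ^ 2 *
          ∫ x, (pd 0 (Fb L b v) x ^ 2 + pd 1 (Fb L b v) x ^ 2) := hH0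
      _ ≤ (Sc κ) ^ 2 * G := by
          apply mul_le_mul _ hGs hP0 (sq_nonneg _)
          exact pow_le_pow_left₀ (by linarith) hlog 2
      _ ≤ 400 * κ * G := mul_le_mul_of_nonneg_right (Sc_sq hκ) hG0
  -- the choice of the parameter
  obtain ⟨l, hl⟩ : ∃ l, l = √(D + G) / κ ^ 2 := ⟨_, rfl⟩
  have hs : 0 < √(D + G) := Real.sqrt_pos.2 hz
  have hl0 : 0 < l := by rw [hl]; positivity
  have hI : ∫ x : E3, rz κ / (rsq x + rz κ) * Fb L b v x ^ 2 ≤ l * (3 * κ) + rz κ / l * (400 * κ * G) := by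
    have h1 : ∫ x : E3, rz κ / (rsq x + rz κ) * Fb L b v x ^ 2 ≤
        ∫ x : E3, (l * Fb L b v x ^ 2 + rz κ / l * (Fb L b v x ^ 2 / (rsq x + rz κ))) := by
      refine integral_mono i1 ((hF2.const_mul _).add (iH.const_mul _)) fun x => ?_
      show rz κ / (rsq x + rz κ) * Fb L b v x ^ 2 ≤ l * Fb L b v x ^ 2 + rz κ / l * (Fb L b v x ^ 2 / (rsq x + rz κ))
      have h2 := TA_rsq_nn x
      have h3 := hrc1 x
      obtain ⟨t, ht⟩ : ∃ t, t = rz κ / (rsq x + rz κ) := ⟨_, rfl⟩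
      rw [← ht] at h3 ⊢
      have h4 : rz κ / l * (Fb L b v x ^ 2 / (rsq x + rz κ)) = t / l * Fb L b v x ^ 2 := by
        rw [ht]
        field_simp
      rw [h4]
      have h5 : t ≤ l + t / l := by
        rcases le_or_gt t l with h6 | h6
        · have : 0 ≤ t / l := div_nonneg h3.1 hl0.le
          linarith
        · have h7 : t ≤ t / l := by
            rw [le_div_iff₀ hl0]
            nlinarith
          linarith
      have h6 := mul_le_mul_of_nonneg_right h5 (sq_nonneg (Fb L b v x))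
      linarith
    rw [integral_add (hF2.const_mul _) (iH.const_mul _), integral_const_mul, integral_const_mul] at h1
    have h2 := mul_le_mul_of_nonneg_left hA hl0.le
    have h3 := mul_le_mul_of_nonneg_left hH (show 0 ≤ rz κ / l by positivity)
    linarith
  have hM : √(9 * C1 * D) ≤ 3 * C1 * √(D + G) := by
    rw [Real.sqrt_le_left (by positivity), mul_pow, Real.sq_sqrt hz.le]
    nlinarith [mul_nonneg hD0 (show 0 ≤ C1 * (C1 - 1) by nlinarith), mul_nonneg hG0 (sq_nonneg C1)]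
  have hI0 : 0 ≤ ∫ x : E3, rz κ / (rsq x + rz κ) * Fb L b v x ^ 2 := integral_nonneg fun x => mul_nonneg (hrc1 x).1 (sq_nonneg _)
  have hss : √(D + G) * √(D + G) = D + G := Real.mul_self_sqrt hz.le
  have hr4 : rz κ = 1 / κ ^ 4 := by unfold rz; rw [one_div]
  calc 4 * √(9 * C1 * D) * (∫ x : E3, rz κ / (rsq x + rz κ) * Fb L b v x ^ 2)
      ≤ 4 * (3 * C1 * √(D + G)) * (l * (3 * κ) + rz κ / l * (400 * κ * G)) := by gcongr
    _ = 36 * C1 / κ * (√(D + G) * √(D + G)) + 4800 * C1 / κ * G := by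
        rw [hl, hr4]
        field_simp
        ring
    _ ≤ 5000 * C1 / κ * (D + G) := by
        rw [hss]
        have h1 : 4800 * C1 / κ * G ≤ 4800 * C1 / κ * (D + G) := mul_le_mul_of_nonneg_left (by linarith) (by positivity)
        have h2 : 0 ≤ 164 * C1 / κ * (D + G) := by positivity
        have h3 : 5000 * C1 / κ * (D + G) = 36 * C1 / κ * (D + G) + 4800 * C1 / κ * (D + G) + 164 * C1 / κ * (D + G) := by ring
        linarith

end Pool.Agent.H90.TQ
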