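import Pool.Agent.H90.TQ.Nb

/-! The source term in the rate of the correction. -/

set_option autoImplicit false

open Set Filter Topology MeasureTheory
open scoped ContDiff InnerProductSpace

namespace Pool.Agent.H90.TQ

open Pool.Agent.H16 Pool.Agent.H72.CC Pool.Agent.H94.EP Pool.Agent.H87.EP Pool.Agent.H42.TQ Pool.Agent.H90.EP
open Pool.Agent.H87.NS hiding c1
open Pool.Agent.H16.TU hiding Sl

theorem ph_c2 (L a : ℝ) (x : E3) : ph L a (x 2) * c2 x ^ 4 ≤ A1 L a x := by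
  rcases le_or_gt (1 / 8) (rsq x) with h | h
  · rw [c2_zero h]
    simp only [ne_eq, OfNat.ofNat_ne_zero, not_false_eq_true, zero_pow, mul_zero]
    exact (A1_nn L a x).1
  · rw [A1_one L a (by linarith)]
    exact mul_le_of_le_one_right (ph_pos _ _ _).le (pow_le_one₀ (c2_01 x).1 (c2_01 x).2)

theorem ph_c2' {L a : ℝ} {x : E3} {f : E3 → ℝ} (hf : 0 ≤ f x) :
    ph L a (x 2) * (c2 x ^ 4 * f x) ≤ Bo.indicator (fun x => ph L a (x 2) * f x) x := by
  have hp := ph_pos L a (x 2)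
  by_cases hx : x ∈ Bo
  · rw [indicator_of_mem hx]
    apply mul_le_mul_of_nonneg_left _ hp.le
    exact mul_le_of_le_one_left hf (pow_le_one₀ (c2_01 x).1 (c2_01 x).2)
  · have h1 : 1 / 8 < rsq x := by
      by_contra h2
      exact hx (not_lt.1 h2)
    rw [indicator_of_notMem hx, c2_zero h1.le]
    simp

theorem EN_sum {ε τ η δ κ L a : ℝ} (hκ : 1 ≤ κ) (hL : 1 ≤ L) (hτ : 0 < τ) (hη : 0 < η) (hδ : 0 < δ) {v : E3 → E3} (hv : Vs v) :
    ∫ x, ph L a (x 2) * EN ε τ η δ κ v x ≤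
      48 * ε ^ 2 / τ * (∫ x in Bo, ph L a (x 2) * (kN κ x * Zz v x ^ 2)) +
      12 * ε ^ 2 / η * (∫ x, A1 L a x * ck κ δ x * sO v x ^ 2) + 12 * η * (∫ x, A1 L a x * ck κ δ x * Zz v x ^ 2) := by
  obtain ⟨C1, hC1, H1⟩ := hardy_pt
  obtain ⟨iZ, -⟩ := H1 L a κ δ (Zz v) hL hκ hδ (vs_ri hv).2.2.2.1
  obtain ⟨iO, -⟩ := H1 L a κ δ (sO v) hL hκ hδ (vs_ri hv).2.2.1
  have iB := zd_int (κ := κ) (L := L) (a := a) hv
  have hEi := EN_int (ε := ε) hκ hτ hη hδ hv
  have hpc : Continuous (fun x : E3 => ph L a (x 2)) := (ph_smooth L a).continuous.comp I_c2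
  have i0 : Integrable (fun x => ph L a (x 2) * EN ε τ η δ κ v x) := by
    refine hEi.norm.mono' (hpc.aestronglyMeasurable.mul hEi.aestronglyMeasurable) (ae_of_all _ fun x => ?_)
    rw [norm_mul, Real.norm_of_nonneg (ph_pos _ _ _).le]
    exact mul_le_of_le_one_left (norm_nonneg _) (ph_le _ _ _)
  have j12 : Integrable (fun x => 48 * ε ^ 2 / τ * Bo.indicator (fun x => ph L a (x 2) * (kN κ x * Zz v x ^ 2)) x +
      12 * ε ^ 2 / η * (A1 L a x * ck κ δ x * sO v x ^ 2)) := (iB.const_mul _).add (iO.const_mul _)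
  rw [← integral_indicator Bo_meas, ← integral_const_mul, ← integral_const_mul, ← integral_const_mul,
    ← integral_add (iB.const_mul _) (iO.const_mul _), ← integral_add j12 (iZ.const_mul _)]
  refine integral_mono i0 (j12.add (iZ.const_mul _)) fun x => ?_
  show ph L a (x 2) * EN ε τ η δ κ v x ≤ 48 * ε ^ 2 / τ * Bo.indicator (fun x => ph L a (x 2) * (kN κ x * Zz v x ^ 2)) x +
      12 * ε ^ 2 / η * (A1 L a x * ck κ δ x * sO v x ^ 2) + 12 * η * (A1 L a x * ck κ δ x * Zz v x ^ 2)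
  have h1 := kN_nn (κ := κ) x
  have h2 := (ck_f hκ hδ).2 x
  have h3 := ph_c2' (L := L) (a := a) (x := x) (f := fun x => kN κ x * Zz v x ^ 2) (by positivity)
  have h4 := ph_c2 L a x
  have h5 := mul_le_mul_of_nonneg_left h3 (show 0 ≤ 48 * ε ^ 2 / τ by positivity)
  have h6 := mul_le_mul_of_nonneg_right h4 (show 0 ≤ 12 * ε ^ 2 / η * (ck κ δ x * sO v x ^ 2) by positivity)
  have h7 := mul_le_mul_of_nonneg_right h4 (show 0 ≤ 12 * η * (ck κ δ x * Zz v x ^ 2) by positivity)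
  unfold EN
  linarith

/-- The sum over the boxes. -/
theorem Nt_sum : ∃ D : ℝ, 1 ≤ D ∧ ∀ (ε K κ L a m m0 r2 τ η B : ℝ) (v : E3 → E3), Pool.Agent.H94.EP.Sl ε K κ v → 1 ≤ L → 0 < m →
    0 < r2 → r2 * κ ^ 2 ≤ 1 → 0 < m0 → m0 < 1 → 3 ≤ Real.log (1 / m0) → 0 < τ → 0 < η → 0 < B → (∀ x, |sV v x| ≤ B) →
    |(1 / L) * ∫ b, ph L a b * dPsi m r2 m0 (Fb L b v) (fun x => cb L b x * GO v x)| ≤ τ * GS m r2 m0 L a v +
      28 * (∫ x, ph L a (x 2) * EN ε τ η (ε * κ / B) κ v x) +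
      τ * m * m0 * κ ^ 4 * (D * L + D * (NO L a v + DO L a v)) := by
  obtain ⟨D, hD1, hD⟩ := Fb_pd2_sq
  refine ⟨256 * D, by linarith, fun ε K κ L a m m0 r2 τ η B v h hL hm hr2 hrk hm0 hm1 hlog hτ hη hB hV => ?_⟩
  have hv := h.vs
  have he := h.e0
  have hL0 : 0 < L := by linarith
  have hκ : 0 < κ := by linarith [h.k1]
  have hδ : 0 < ε * κ / B := by positivity
  obtain ⟨b1, b2⟩ := box_sum w3_pr hL0 a (eO_int hv) (eO_nn v)
  obtain ⟨c1, c2'⟩ := box_sum wS2_pr hL0 a (EN_int (ε := ε) h.k1 hτ hη hδ hv) (EN_nn (ε := ε) h.k1 hτ hη hδ v)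
  obtain ⟨p1, p2⟩ := ph_int hL a
  have hGi := phGain_int (a := a) hL hm hr2 hm0 hm1.le hv
  have hc : 0 ≤ 4 * τ * m * m0 * κ ^ 4 := by positivity
  have hbox : ∀ b, ‖ph L a b * dPsi m r2 m0 (Fb L b v) (fun x => cb L b x * GO v x)‖ ≤
      τ * (ph L a b * Gain m r2 m0 (Fb L b v)) + ph L a b * (∫ x : E3, wS ((x 2 - b) / L) ^ 2 * EN ε τ η (ε * κ / B) κ v x) +
      4 * τ * m * m0 * κ ^ 4 * (16 * L * ph L a b + D * (ph L a b * ∫ x : E3, w3 ((x 2 - b) / L) * eO v x)) := by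
    intro b
    have hp := ph_pos L a b
    rw [norm_mul, Real.norm_of_nonneg hp.le]
    have h0 := mul_le_mul_of_nonneg_left (Nt_box (b := b) h hL hm hr2 hrk hm0 hm1 hlog hτ hη hB hV) hp.le
    refine h0.trans ?_
    have h1 : ∫ x, pd 2 (Fb L b v) x ^ 2 ≤ ∫ x, D * (w3 ((x 2 - b) / L) * eO v x) :=
      integral_mono (sq_int ((Fb_cs hL0 b hv).pd 2)) ((w_int w3_pr b (eO_int hv)).const_mul _) fun x => hD L b v x hL hv
    rw [integral_const_mul] at h1
    have h2 : ph L a b * (16 * L + ∫ x, pd 2 (Fb L b v) x ^ 2) ≤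
        16 * L * ph L a b + D * (ph L a b * ∫ x : E3, w3 ((x 2 - b) / L) * eO v x) := by
      have := mul_le_mul_of_nonneg_left h1 hp.le
      linarith
    have := mul_le_mul_of_nonneg_left h2 hc
    linarith
  have j1 : Integrable (fun b => τ * (ph L a b * Gain m r2 m0 (Fb L b v))) := hGi.const_mul _
  have j3 : Integrable (fun b => 16 * L * ph L a b) := p1.const_mul _
  have j4 : Integrable (fun b => D * (ph L a b * ∫ x : E3, w3 ((x 2 - b) / L) * eO v x)) := b1.const_mul _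
  have j34 : Integrable (fun b => 16 * L * ph L a b + D * (ph L a b * ∫ x : E3, w3 ((x 2 - b) / L) * eO v x)) := j3.add j4
  have j5 : Integrable (fun b => 4 * τ * m * m0 * κ ^ 4 * (16 * L * ph L a b + D * (ph L a b *
        ∫ x : E3, w3 ((x 2 - b) / L) * eO v x))) := j34.const_mul _
  have j12 : Integrable (fun b => τ * (ph L a b * Gain m r2 m0 (Fb L b v)) +
    ph L a b * (∫ x : E3, wS ((x 2 - b) / L) ^ 2 * EN ε τ η (ε * κ / B) κ v x)) := j1.add c1
  have hint : ‖∫ b, ph L a b * dPsi m r2 m0 (Fb L b v) (fun x => cb L b x * GO v x)‖ ≤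
      ∫ b, (τ * (ph L a b * Gain m r2 m0 (Fb L b v)) + ph L a b * (∫ x : E3, wS ((x 2 - b) / L) ^ 2 * EN ε τ η (ε * κ / B) κ v x) +
      4 * τ * m * m0 * κ ^ 4 * (16 * L * ph L a b + D * (ph L a b * ∫ x : E3, w3 ((x 2 - b) / L) * eO v x))) :=
    norm_integral_le_of_norm_le (j12.add j5) (ae_of_all _ hbox)
  have e1 : ∫ b, (τ * (ph L a b * Gain m r2 m0 (Fb L b v)) + ph L a b * (∫ x : E3, wS ((x 2 - b) / L) ^ 2 * EN ε τ η (ε * κ / B) κ v x) +
      4 * τ * m * m0 * κ ^ 4 * (16 * L * ph L a b + D * (ph L a b * ∫ x : E3, w3 ((x 2 - b) / L) * eO v x))) =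
      τ * (∫ b, ph L a b * Gain m r2 m0 (Fb L b v)) + (∫ b, ph L a b * ∫ x : E3, wS ((x 2 - b) / L) ^ 2 * EN ε τ η (ε * κ / B) κ v x) +
      4 * τ * m * m0 * κ ^ 4 * (16 * L * (∫ b, ph L a b) + D * ∫ b, ph L a b * ∫ x : E3, w3 ((x 2 - b) / L) * eO v x) := by
    rw [integral_add j12 j5, integral_add j1 c1, integral_const_mul, integral_const_mul,
      integral_add j3 j4, integral_const_mul, integral_const_mul]
  rw [e1] at hint
  have h1L : 0 ≤ 1 / L := by positivity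
  have hint2 := mul_le_mul_of_nonneg_left hint h1L
  rw [Real.norm_eq_abs] at hint2
  have e0 : |(1 / L) * ∫ b, ph L a b * dPsi m r2 m0 (Fb L b v) (fun x => cb L b x * GO v x)| =
    1 / L * |∫ b, ph L a b * dPsi m r2 m0 (Fb L b v) (fun x => cb L b x * GO v x)| := by
    rw [abs_mul, abs_of_nonneg h1L]
  rw [e0]
  refine hint2.trans ?_
  have e2 : 1 / L * (τ * (∫ b, ph L a b * Gain m r2 m0 (Fb L b v)) +
      (∫ b, ph L a b * ∫ x : E3, wS ((x 2 - b) / L) ^ 2 * EN ε τ η (ε * κ / B) κ v x) +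
      4 * τ * m * m0 * κ ^ 4 * (16 * L * (∫ b, ph L a b) + D * ∫ b, ph L a b * ∫ x : E3, w3 ((x 2 - b) / L) * eO v x)) =
      τ * GS m r2 m0 L a v + (1 / L * ∫ b, ph L a b * ∫ x : E3, wS ((x 2 - b) / L) ^ 2 * EN ε τ η (ε * κ / B) κ v x) +
      4 * τ * m * m0 * κ ^ 4 * (16 * (∫ b, ph L a b) + D * (1 / L * ∫ b, ph L a b * ∫ x : E3, w3 ((x 2 - b) / L) * eO v x)) := by
    unfold GS
    field_simp
  rw [e2]
  have hNO : 0 ≤ NO L a v := integral_nonneg fun x => mul_nonneg (A1_nn L a x).1 (sq_nonneg _)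
  have hDO : 0 ≤ DO L a v := PA_Dn_nn L a (sO v)
  have u2 : 16 * (∫ b, ph L a b) + D * (1 / L * ∫ b, ph L a b * ∫ x : E3, w3 ((x 2 - b) / L) * eO v x) ≤
      64 * D * L + 28 * D * (NO L a v + DO L a v) := by
    have h3 : 1 / L * (∫ b, ph L a b * ∫ x : E3, w3 ((x 2 - b) / L) * eO v x) ≤ 28 * (NO L a v + DO L a v) :=
      b2.trans (mul_le_mul_of_nonneg_left (eO_le hL hv) (by norm_num))
    have h4 := mul_le_mul_of_nonneg_left h3 (by linarith only [hD1, hm0, hm1] : (0 : ℝ) ≤ D)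
    have h5 : 64 * L ≤ 64 * D * L := by nlinarith only [hD1, hL0]
    linarith only [p2, h4, h5]
  have u3 := mul_le_mul_of_nonneg_left u2 hc
  have u4 : 4 * τ * m * m0 * κ ^ 4 * (64 * D * L + 28 * D * (NO L a v + DO L a v)) ≤
      τ * m * m0 * κ ^ 4 * (256 * D * L + 256 * D * (NO L a v + DO L a v)) := by
    have h5 : 0 ≤ τ * m * m0 * κ ^ 4 * (D * (NO L a v + DO L a v)) := by positivity
    linarith only [h5]
  have c2'' : 1 / L * (∫ b, ph L a b * ∫ x : E3, wS ((x 2 - b) / L) ^ 2 * EN ε τ η (ε * κ / B) κ v x) ≤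
    28 * ∫ x, ph L a (x 2) * EN ε τ η (ε * κ / B) κ v x := c2'
  linarith only [c2', u3, u4]

theorem nt : NtP := by
  obtain ⟨D, hD1, hD⟩ := Nt_sum
  obtain ⟨C1, hC1, H1⟩ := hardy_pt
  obtain ⟨C2, hC2, H2⟩ := NO_le
  obtain ⟨C3, hC3, H3⟩ := zd
  refine ⟨64 * 336 ^ 2 * 4 * C1 ^ 2 + 28 * 48 * C3 + 128 * D * C2 + 3, ?_, fun ε K κ L a m τ v h hCK hm hm1 hτ hτ1 => ?_⟩
  · have h1 : 0 ≤ 128 * D * C2 := by positivity
    have h2 : 0 ≤ 64 * 336 ^ 2 * 4 * C1 ^ 2 := by positivity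
    linarith
  have hv := h.vs
  have he := h.e0
  have hK := h.K2
  have hκ := h.k1
  have hκ0 : 0 < κ := by linarith
  have hC10 : 0 < C1 := by linarith
  have hDC : 1 ≤ D * C2 := one_le_mul_of_one_le_of_one_le hD1 hC2
  obtain ⟨C, hC⟩ : ∃ C, C = 64 * 336 ^ 2 * 4 * C1 ^ 2 + 28 * 48 * C3 + 128 * D * C2 + 3 := ⟨_, rfl⟩
  rw [← hC] at hCK ⊢
  have hX : 0 ≤ 128 * D * C2 := by positivity
  have hX2 : 0 ≤ 64 * 336 ^ 2 * 4 * C1 ^ 2 := by positivity
  have hC3C : 28 * 48 * C3 ≤ C := by linarith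
  have hC1C : 64 * 336 ^ 2 * 4 * C1 ^ 2 ≤ C := by linarith
  have hDC' : 128 * (D * C2) + 3 ≤ C := by linarith
  have hC0 : 0 ≤ C := hX2.trans hC1C
  have hCL : C ≤ L / 2 := by nlinarith only [hCK, hK, hC0]
  have hL : 1 ≤ L := by linarith
  have hL0 : 0 < L := by linarith
  have hrz : 0 < rz κ := by unfold rz; positivity
  have hrk : rz κ * κ ^ 2 ≤ 1 := by
    unfold rz
    rw [inv_mul_le_iff₀ (by positivity), mul_one]
    exact pow_le_pow_right₀ hκ (by norm_num)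
  have hmz : 0 < mz κ L := by unfold mz; positivity
  have hmzL : mz κ L * κ ^ 4 ≤ 1 / L ^ 6 := by
    unfold mz
    rw [inv_mul_le_iff₀ (by positivity), mul_one_div, le_div_iff₀ (by positivity)]
    have : κ ^ 4 * L ^ 6 ≤ κ ^ 6 * L ^ 6 := mul_le_mul_of_nonneg_right (pow_le_pow_right₀ hκ (by norm_num)) (by positivity)
    calc κ ^ 4 * L ^ 6 ≤ κ ^ 6 * L ^ 6 := this
      _ = (κ * L) ^ 6 := by ring
  have hL6 : L ≤ L ^ 6 := by
    calc L = L ^ 1 := (pow_one L).symm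
      _ ≤ L ^ 6 := pow_le_pow_right₀ hL (by norm_num)
  have hmzL1 : mz κ L ≤ 1 / L ^ 6 := (le_mul_of_one_le_right hmz.le (one_le_pow₀ hκ)).trans hmzL
  have hL100 : 100 ≤ L := by
    have h1 : 1 ≤ C1 ^ 2 := one_le_pow₀ hC1
    linarith only [h1, hC1C, hCL]
  have hmz1 : mz κ L ≤ 1 / 100 := by
    refine hmzL1.trans ?_
    apply div_le_div_of_nonneg_left zero_le_one (by norm_num)
    linarith
  have hlog : 3 ≤ Real.log (1 / mz κ L) := by
    rw [Real.le_log_iff_exp_le (by positivity)]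
    have h1 : Real.exp 3 ≤ 100 := by
      have h2 : Real.exp 3 = Real.exp 1 ^ 3 := by rw [← Real.exp_nat_mul]; norm_num
      have h3 := Real.exp_one_lt_d9
      have h4 := Real.exp_pos 1
      rw [h2]
      have h5 : Real.exp 1 ^ 3 ≤ 2.7182818286 ^ 3 := pow_le_pow_left₀ h4.le h3.le 3
      linarith only [show (2.7182818286 : ℝ) ^ 3 ≤ 100 by norm_num, hmz, hmz1, h5]
    refine h1.trans ?_
    rw [le_div_iff₀ hmz]
    linarith
  obtain ⟨B, hB, hVB⟩ := (ri_int (vs_ri hv).1).2.2.2.2.2.2.2.2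
  have hS : 20 ≤ Sc κ := PA_Sc hκ
  have hS0 : 0 < Sc κ := by linarith
  obtain ⟨η, hηe⟩ : ∃ η, η = 64 * 336 * C1 * ε ^ 2 * Sc κ := ⟨_, rfl⟩
  have hη : 0 < η := by rw [hηe]; positivity
  have hδ : 0 < ε * κ / B := by positivity
  have hsum := hD ε K κ L a m (mz κ L) (rz κ) τ η B v h hL hm hrz hrk hmz (by linarith) hlog hτ hη hB fun x => (hVB x).1
  have hEN := EN_sum (ε := ε) (τ := τ) (η := η) (δ := ε * κ / B) (κ := κ) (L := L) (a := a) hκ hL hτ hη hδ hv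
  have bB := H3 κ L a v hκ hL hv
  obtain ⟨-, bZ⟩ := H1 L a κ (ε * κ / B) (Zz v) hL hκ hδ (vs_ri hv).2.2.2.1
  obtain ⟨-, bO⟩ := H1 L a κ (ε * κ / B) (sO v) hL hκ hδ (vs_ri hv).2.2.1
  have hDn : Dn L a (Zz v) = DJ L a v := rfl
  have hDn' : Dn L a (sO v) = DO L a v := rfl
  rw [hDn] at bZ
  rw [hDn'] at bO
  have gZ := gn_Z hL a hv
  have gO := gn_O hL a hv
  have hN := H2 L a v hL hv
  have hG : 0 ≤ GG L a v := PA_GG_nn L a v
  have hDJ : 0 ≤ DJ L a v := PA_Dn_nn L a (Zz v)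
  have hO : 0 ≤ DO L a v := PA_Dn_nn L a (sO v)
  have hY : 0 ≤ YY κ L a v := by
    unfold YY
    refine integral_nonneg fun x => ?_
    have h1 := ph_pos L a (x 2)
    have h2 := TA_rsq_nn x
    positivity
  -- the three parts
  have p1 : 28 * (48 * ε ^ 2 / τ * (∫ x in Bo, ph L a (x 2) * (kN κ x * Zz v x ^ 2))) ≤
      C * ε ^ 2 / τ * (YY κ L a v + Sc κ * DJ L a v + GG L a v) := by
    have h1 : 0 ≤ YY κ L a v + Sc κ * DJ L a v + GG L a v := by positivity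
    calc 28 * (48 * ε ^ 2 / τ * (∫ x in Bo, ph L a (x 2) * (kN κ x * Zz v x ^ 2)))
        ≤ 28 * (48 * ε ^ 2 / τ * (C3 * (YY κ L a v + Sc κ * DJ L a v + GG L a v))) := by gcongr
      _ = (28 * 48 * C3) * ε ^ 2 / τ * (YY κ L a v + Sc κ * DJ L a v + GG L a v) := by ring
      _ ≤ _ := by gcongr
  have p2 : 28 * (12 * ε ^ 2 / η * (∫ x, A1 L a x * ck κ (ε * κ / B) x * sO v x ^ 2)) ≤ 1 / 64 * DO L a v + GG L a v := by
    calc 28 * (12 * ε ^ 2 / η * (∫ x, A1 L a x * ck κ (ε * κ / B) x * sO v x ^ 2))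
        ≤ 28 * (12 * ε ^ 2 / η * (C1 * (Sc κ * DO L a v + 16 * GG L a v))) := by
          have : C1 * (Sc κ * DO L a v + Gn L a (sO v)) ≤ C1 * (Sc κ * DO L a v + 16 * GG L a v) := by gcongr
          gcongr
          linarith only [bO, this]
      _ = 1 / 64 * DO L a v + 1 / (4 * Sc κ) * GG L a v := by
          rw [hηe]
          field_simp
          ring
      _ ≤ 1 / 64 * DO L a v + GG L a v := by
          have : 1 / (4 * Sc κ) * GG L a v ≤ 1 * GG L a v := by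
            apply mul_le_mul_of_nonneg_right _ hG
            rw [div_le_one (by positivity)]
            linarith only [hmz, hmz1, hS]
          linarith only [this]
  have p3 : 28 * (12 * η * (∫ x, A1 L a x * ck κ (ε * κ / B) x * Zz v x ^ 2)) ≤
      C * (ε ^ 2 * Sc κ ^ 2 * (DJ L a v + GG L a v)) := by
    have r2 : Sc κ * DJ L a v + 4 * GG L a v ≤ 4 * (Sc κ * (DJ L a v + GG L a v)) := by
      linarith only [mul_nonneg hS0.le hDJ, mul_nonneg (by linarith only [hS] : (0 : ℝ) ≤ Sc κ - 1) hG]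
    calc 28 * (12 * η * (∫ x, A1 L a x * ck κ (ε * κ / B) x * Zz v x ^ 2))
        ≤ 28 * (12 * η * (C1 * (4 * (Sc κ * (DJ L a v + GG L a v))))) := by
          have : C1 * (Sc κ * DJ L a v + Gn L a (Zz v)) ≤ C1 * (4 * (Sc κ * (DJ L a v + GG L a v))) := by
            apply mul_le_mul_of_nonneg_left _ hC10.le
            linarith
          gcongr
          linarith only [bZ, this]
      _ = (64 * 336 ^ 2 * 4 * C1 ^ 2) * (ε ^ 2 * Sc κ ^ 2 * (DJ L a v + GG L a v)) := by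
          rw [hηe]
          ring
      _ ≤ _ := mul_le_mul_of_nonneg_right hC1C (by positivity)
  have e2 : τ * m * mz κ L * κ ^ 4 * (D * L + D * (NO L a v + DO L a v)) ≤ 1 + 1 / 64 * DO L a v + GG L a v := by
    have h1 : τ * m ≤ 1 := mul_le_one₀ hτ1 hm.le hm1
    have h2 : NO L a v + DO L a v ≤ C2 * (2 * DO L a v + GG L a v) := by
      linarith only [hN, mul_le_mul_of_nonneg_right hC2 hO]
    have h3 : D * L + D * (NO L a v + DO L a v) ≤ D * L + D * (C2 * (2 * DO L a v + GG L a v)) := by gcongr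
    have h4 : τ * m * mz κ L * κ ^ 4 ≤ 1 / L ^ 6 := by
      calc τ * m * mz κ L * κ ^ 4 = (τ * m) * (mz κ L * κ ^ 4) := by ring
        _ ≤ 1 * (1 / L ^ 6) := mul_le_mul h1 hmzL (by positivity) zero_le_one
        _ = _ := one_mul _
    have h5 : 0 ≤ D * L + D * (C2 * (2 * DO L a v + GG L a v)) := by positivity
    have h6 : 0 ≤ D * L + D * (NO L a v + DO L a v) := by
      have hNO : 0 ≤ NO L a v := integral_nonneg fun x => mul_nonneg (A1_nn L a x).1 (sq_nonneg _)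
      positivity
    calc τ * m * mz κ L * κ ^ 4 * (D * L + D * (NO L a v + DO L a v))
        ≤ 1 / L ^ 6 * (D * L + D * (C2 * (2 * DO L a v + GG L a v))) := mul_le_mul h4 h3 h6 (by positivity)
      _ ≤ 1 + 1 / 64 * DO L a v + GG L a v := by
          have g1 : D * L ≤ L ^ 6 := by
            have g0 : D ≤ D * C2 := le_mul_of_one_le_right (by linarith only [hD1]) hC2
            have : D ≤ L := by linarith only [g0, hDC', hCL, hL0, hD1]
            calc D * L ≤ L * L := mul_le_mul_of_nonneg_right this hL0.le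
              _ = L ^ 2 := by ring
              _ ≤ L ^ 6 := pow_le_pow_right₀ hL (by norm_num)
          have g2 : 128 * (D * C2) ≤ L ^ 6 := by linarith only [hC3, hDC, hC, hX2, hCL, hmz, hL6, hmz1]
          rw [one_div, inv_mul_le_iff₀ (by positivity)]
          have g3 : D * (C2 * (2 * DO L a v + GG L a v)) = 128 * (D * C2) * (1 / 64 * DO L a v) + (D * C2) * GG L a v := by ring
          rw [g3]
          have g4 : 128 * (D * C2) * (1 / 64 * DO L a v) ≤ L ^ 6 * (1 / 64 * DO L a v) :=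
            mul_le_mul_of_nonneg_right g2 (by positivity)
          have g5 : (D * C2) * GG L a v ≤ L ^ 6 * GG L a v := mul_le_mul_of_nonneg_right (by linarith only [hC3, hDC, hC, hX2, hCL, hmz, hL6, hmz1]) hG
          linarith only [g1, g4, g5]
  have k3 : 2 * GG L a v ≤ C * GG L a v := mul_le_mul_of_nonneg_right (by linarith only [hC3, hDC, hC, hX2, hmz, hmz1]) hG
  have hfin := mul_le_mul_of_nonneg_left hEN (show (0 : ℝ) ≤ 28 by norm_num)
  linarith

end Pool.Agent.H90.TQ
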