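import Pool.Agent.H90.TQ.Zd

/-! Sums over the boxes. -/

set_option autoImplicit false

open Set Filter Topology MeasureTheory
open scoped ContDiff

namespace Pool.Agent.H90.TQ

open Pool.Agent.H16 Pool.Agent.H72.CC Pool.Agent.H94.EP Pool.Agent.H87.EP Pool.Agent.H42.TQ Pool.Agent.H90.EP
open Pool.Agent.H87.NS hiding c1
open Pool.Agent.H16.TU hiding Sl

theorem ph_box7 {L : ℝ} (hL : 0 < L) (a : ℝ) {s b : ℝ} (h : (s - b) ^ 2 ≤ 3 * L ^ 2) : ph L a b ≤ 7 * ph L a s := by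
  unfold ph
  have h1 : 0 < 1 + (s - a) ^ 2 / L ^ 2 := by positivity
  have h2 : 0 < 1 + (b - a) ^ 2 / L ^ 2 := by positivity
  have h3 : 1 + (s - a) ^ 2 / L ^ 2 ≤ 7 * (1 + (b - a) ^ 2 / L ^ 2) := by
    have h4 : (s - a) ^ 2 ≤ 2 * (b - a) ^ 2 + 2 * (s - b) ^ 2 := by nlinarith [sq_nonneg ((b - a) - (s - b))]
    have h5 : (s - a) ^ 2 / L ^ 2 ≤ 2 * ((b - a) ^ 2 / L ^ 2) + 6 := by
      rw [div_le_iff₀ (by positivity)]
      have h6 : (2 * ((b - a) ^ 2 / L ^ 2) + 6) * L ^ 2 = 2 * (b - a) ^ 2 + 6 * L ^ 2 := by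
        field_simp
      rw [h6]
      linarith
    have h7 : 0 ≤ (b - a) ^ 2 / L ^ 2 := by positivity
    linarith
  rw [inv_le_iff_one_le_mul₀ h2]
  have h4 : 7 * (1 + (s - a) ^ 2 / L ^ 2)⁻¹ * (1 + (b - a) ^ 2 / L ^ 2) =
      (7 * (1 + (b - a) ^ 2 / L ^ 2)) * (1 + (s - a) ^ 2 / L ^ 2)⁻¹ := by ring
  rw [h4, ← div_eq_mul_inv, one_le_div h1]
  exact h3

/-- A profile supported in `t² ≤ 3`. -/
structure Pr (w : ℝ → ℝ) : Prop where
  ct : Continuous w
  nn : ∀ t, 0 ≤ w t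
  le : ∀ t, w t ≤ 1
  zr : ∀ t, 3 < t ^ 2 → w t = 0

theorem Pr.int {w : ℝ → ℝ} (h : Pr w) : Integrable w ∧ ∫ t, w t ≤ 4 := by
  have h0 : ∀ t, t ∉ Icc (-2 : ℝ) 2 → w t = 0 := by
    intro t ht
    apply h.zr
    by_contra h1
    rw [not_lt] at h1
    apply ht
    constructor <;> nlinarith
  have hs : HasCompactSupport w := HasCompactSupport.intro isCompact_Icc h0
  have hi : Integrable w := h.ct.integrable_of_hasCompactSupport hs
  refine ⟨hi, ?_⟩
  have h1 : ∫ t, w t = ∫ t in Icc (-2 : ℝ) 2, w t := by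
    rw [← integral_indicator measurableSet_Icc]
    congr 1
    funext t
    by_cases ht : t ∈ Icc (-2 : ℝ) 2
    · rw [indicator_of_mem ht]
    · rw [indicator_of_notMem ht, h0 t ht]
  rw [h1]
  calc ∫ t in Icc (-2 : ℝ) 2, w t ≤ ∫ t in Icc (-2 : ℝ) 2, (1 : ℝ) := by
        refine integral_mono hi.integrableOn ?_ fun t => h.le t
        exact integrableOn_const (by simp)
    _ = 4 := by
        rw [integral_const, smul_eq_mul, mul_one]
        simp
        norm_num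

/-- The sum over the boxes of nonnegative terms. -/
theorem box_sum {w : ℝ → ℝ} (hw : Pr w) {L : ℝ} (hL : 0 < L) (a : ℝ) {F : E3 → ℝ} (hF : Integrable F) (h0 : ∀ x, 0 ≤ F x) :
    Integrable (fun b => ph L a b * ∫ x, w ((x 2 - b) / L) * F x) ∧
      1 / L * ∫ b, ph L a b * ∫ x, w ((x 2 - b) / L) * F x ≤ 28 * ∫ x, ph L a (x 2) * F x := by
  obtain ⟨hwi, hw4⟩ := hw.int
  have hpc : Continuous (fun x : E3 => ph L a (x 2)) := (ph_smooth L a).continuous.comp I_c2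
  have hpF : Integrable (fun x => ph L a (x 2) * F x) := by
    refine hF.norm.mono' (hpc.aestronglyMeasurable.mul hF.aestronglyMeasurable) (ae_of_all _ fun x => ?_)
    rw [norm_mul, Real.norm_of_nonneg (ph_pos _ _ _).le]
    exact mul_le_of_le_one_left (norm_nonneg _) (ph_le _ _ _)
  obtain ⟨i1, -⟩ := avg hw.ct hwi hL hF
  obtain ⟨i2, e2⟩ := avg hw.ct hwi hL hpF
  have i3 : Integrable (fun b => ph L a b * ∫ x, w ((x 2 - b) / L) * F x) := by
    refine i1.norm.mono' ((ph_smooth L a).continuous.aestronglyMeasurable.mul i1.aestronglyMeasurable) (ae_of_all _ fun b => ?_)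
    rw [norm_mul, Real.norm_of_nonneg (ph_pos _ _ _).le]
    exact mul_le_of_le_one_left (norm_nonneg _) (ph_le _ _ _)
  refine ⟨i3, ?_⟩
  have hwb : ∀ b : ℝ, Continuous (fun x : E3 => w ((x 2 - b) / L)) := fun b =>
    hw.ct.comp ((I_c2.sub continuous_const).div_const L)
  have hint : ∀ (b : ℝ) {G : E3 → ℝ}, Integrable G → Integrable (fun x => w ((x 2 - b) / L) * G x) := by
    intro b G hG
    refine hG.norm.mono' ((hwb b).aestronglyMeasurable.mul hG.aestronglyMeasurable) (ae_of_all _ fun x => ?_)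
    rw [norm_mul, Real.norm_of_nonneg (hw.nn _)]
    exact mul_le_of_le_one_left (norm_nonneg _) (hw.le _)
  have h1 : ∀ b, ph L a b * ∫ x, w ((x 2 - b) / L) * F x ≤ 7 * ∫ x, w ((x 2 - b) / L) * (ph L a (x 2) * F x) := by
    intro b
    rw [← integral_const_mul, ← integral_const_mul]
    refine integral_mono ((hint b hF).const_mul _) ((hint b hpF).const_mul _) fun x => ?_
    show ph L a b * (w ((x 2 - b) / L) * F x) ≤ 7 * (w ((x 2 - b) / L) * (ph L a (x 2) * F x))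
    rcases le_or_gt ((x 2 - b) ^ 2) (3 * L ^ 2) with h | h
    · have h2 := ph_box7 hL a h
      have h3 : 0 ≤ w ((x 2 - b) / L) * F x := mul_nonneg (hw.nn _) (h0 x)
      nlinarith
    · have h2 : w ((x 2 - b) / L) = 0 := by
        apply hw.zr
        rw [div_pow, lt_div_iff₀ (by positivity)]
        exact h
      rw [h2]
      simp
  have h2 : ∫ b, ph L a b * ∫ x, w ((x 2 - b) / L) * F x ≤ 7 * ∫ b, ∫ x, w ((x 2 - b) / L) * (ph L a (x 2) * F x) := by
    rw [← integral_const_mul]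
    exact integral_mono i3 (i2.const_mul 7) h1
  have h3 : 0 ≤ ∫ x, ph L a (x 2) * F x := integral_nonneg fun x => mul_nonneg (ph_pos _ _ _).le (h0 x)
  calc 1 / L * ∫ b, ph L a b * ∫ x, w ((x 2 - b) / L) * F x
      ≤ 1 / L * (7 * ∫ b, ∫ x, w ((x 2 - b) / L) * (ph L a (x 2) * F x)) := mul_le_mul_of_nonneg_left h2 (by positivity)
    _ = 7 * (1 / L * ∫ b, ∫ x, w ((x 2 - b) / L) * (ph L a (x 2) * F x)) := by ring
    _ = 7 * ((∫ t, w t) * ∫ x, ph L a (x 2) * F x) := by rw [e2]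
    _ ≤ 7 * (4 * ∫ x, ph L a (x 2) * F x) := by gcongr
    _ = 28 * ∫ x, ph L a (x 2) * F x := by ring

end Pool.Agent.H90.TQ
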