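import Pool.Agent.H42.TQ.Defs
import Pool.Agent.H90.EP.PA

/-! Boxes: comparison of the weight with its value at the centre, averages over the centre, the density in the parameter. -/

set_option autoImplicit false

open Set Filter Topology MeasureTheory
open scoped ContDiff

namespace Pool.Agent.H90.TQ

open Pool.Agent.H16 Pool.Agent.H72.CC Pool.Agent.H94.EP Pool.Agent.H87.EP Pool.Agent.H42.TQ Pool.Agent.H90.EP
open Pool.Agent.H87.NS hiding c1
open Pool.Agent.H16.TU hiding Sl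

/-- Inside a box the weight is comparable with its value at the centre. -/
theorem ph_box {L : ℝ} (hL : 0 < L) (a : ℝ) {s b : ℝ} (h : (s - b) ^ 2 ≤ 2 * L ^ 2) : ph L a s ≤ 5 * ph L a b := by
  unfold ph
  have h1 : 0 < 1 + (s - a) ^ 2 / L ^ 2 := by positivity
  have h2 : 0 < 1 + (b - a) ^ 2 / L ^ 2 := by positivity
  have h3 : 1 + (b - a) ^ 2 / L ^ 2 ≤ 5 * (1 + (s - a) ^ 2 / L ^ 2) := by
    have h4 : (b - a) ^ 2 ≤ 2 * (s - a) ^ 2 + 2 * (s - b) ^ 2 := by nlinarith [sq_nonneg ((s - a) + (s - b))]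
    have h5 : (b - a) ^ 2 / L ^ 2 ≤ 2 * ((s - a) ^ 2 / L ^ 2) + 4 := by
      rw [div_le_iff₀ (by positivity)]
      have h6 : (2 * ((s - a) ^ 2 / L ^ 2) + 4) * L ^ 2 = 2 * (s - a) ^ 2 + 4 * L ^ 2 := by
        field_simp
      rw [h6]
      linarith
    have h7 : 0 ≤ (s - a) ^ 2 / L ^ 2 := by positivity
    linarith
  rw [inv_le_iff_one_le_mul₀ h1]
  have h4 : 5 * (1 + (b - a) ^ 2 / L ^ 2)⁻¹ * (1 + (s - a) ^ 2 / L ^ 2) =
      (5 * (1 + (s - a) ^ 2 / L ^ 2)) * (1 + (b - a) ^ 2 / L ^ 2)⁻¹ := by ring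
  rw [h4, ← div_eq_mul_inv, one_le_div h2]
  exact h3

theorem ph_box' {L : ℝ} (hL : 0 < L) (a : ℝ) {s b : ℝ} (h : (s - b) ^ 2 ≤ 2 * L ^ 2) : ph L a b ≤ 5 * ph L a s :=
  ph_box hL a (by rw [← neg_sub, neg_sq]; exact h)

/-- Averages over the centre. -/
theorem avg {w : ℝ → ℝ} (hw : Continuous w) (hwi : Integrable w) {L : ℝ} (hL : 0 < L) {F : E3 → ℝ} (hF : Integrable F) :
    Integrable (fun b => ∫ x, w ((x 2 - b) / L) * F x) ∧
      1 / L * ∫ b, ∫ x, w ((x 2 - b) / L) * F x = (∫ t, w t) * ∫ x, F x := by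
  have h1 : Continuous (fun t => w (t / L)) := hw.comp (continuous_id.div_const L)
  have h2 : Integrable (fun t => w (t / L)) := hwi.comp_div hL.ne'
  obtain ⟨h3, h4⟩ := I_fub h1 h2 hF
  refine ⟨h3, ?_⟩
  rw [h4]
  have h5 : ∫ t, w (t / L) = |L| * ∫ t, w t := by
    rw [Measure.integral_comp_div w L, smul_eq_mul]
  rw [h5, abs_of_pos hL]
  field_simp

end Pool.Agent.H90.TQ
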