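import Pool.Agent.H90.TQ.Nf

/-! The source term in the rate of the correction. -/

set_option autoImplicit false

open Set Filter Topology MeasureTheory
open scoped ContDiff InnerProductSpace

namespace Pool.Agent.H90.TQ

open Pool.Agent.H16 Pool.Agent.H72.CC Pool.Agent.H94.EP Pool.Agent.H87.EP Pool.Agent.H42.TQ Pool.Agent.H90.EP
open Pool.Agent.H87.NS hiding c1
open Pool.Agent.H16.TU hiding Sl

theorem Nt_fib {ε K κ L b m m0 r2 τ η B : ℝ} {v : E3 → E3} (h : Pool.Agent.H94.EP.Sl ε K κ v) (hL : 1 ≤ L) (hm : 0 < m)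
    (hr2 : 0 < r2) (hrk : r2 * κ ^ 2 ≤ 1) (hm0 : 0 < m0) (hm1 : m0 < 1) (hlog : 3 ≤ Real.log (1 / m0)) (hτ : 0 < τ)
    (hη : 0 < η) (hB : 0 < B) (hV : ∀ x, |sV v x| ≤ B) (q : ℝ × ℝ) :
    ‖∫ μ in (0 : ℝ)..1, rho m0 μ / μ * ⟪Pc (cmu m r2 μ q) (fib (Fb L b v) q), fib (NN L b v) q⟫_ℝ‖ ≤
      τ * gI m r2 m0 (Fb L b v) q + (∫ z, wS ((z - b) / L) ^ 2 * EN ε τ η (ε * κ / B) κ v (pt q z)) +
      4 * τ * m * m0 * κ ^ 4 * (4 * L * Kq.indicator (fun _ : ℝ × ℝ => (1 : ℝ)) q + ∫ z, pd 2 (Fb L b v) (pt q z) ^ 2) := by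
  have hv := h.vs
  have he := h.e0
  have hκ := h.k1
  have hκ0 : 0 < κ := by linarith
  have hL0 : 0 < L := by linarith
  have hδ : 0 < ε * κ / B := by positivity
  have g1 := gI_nn hm hr2 hm0 hm1.le (Fb L b v) q
  have g2 : 0 ≤ Kq.indicator (fun _ : ℝ × ℝ => (1 : ℝ)) q := indicator_nonneg (fun _ _ => zero_le_one) q
  have g3 : 0 ≤ ∫ z, pd 2 (Fb L b v) (pt q z) ^ 2 := integral_nonneg fun z => sq_nonneg _
  have g4 : 0 ≤ ∫ z, wS ((z - b) / L) ^ 2 * EN ε τ η (ε * κ / B) κ v (pt q z) :=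
    integral_nonneg fun z => mul_nonneg (sq_nonneg _) (EN_nn hκ hτ hη hδ v _)
  rw [Real.norm_eq_abs]
  rcases le_or_gt (1 / 8) (sq2 q) with h8 | h8
  · have hF0 := Fb_fib_out (b := b) hL0 hv h8
    have h1 : ∀ μ, 0 < μ → μ ≤ 1 → |⟪Pc (cmu m r2 μ q) (fib (Fb L b v) q), fib (NN L b v) q⟫_ℝ| ≤ 0 := by
      intro μ hμ _
      rw [hF0, Pc_zero (cmu_pos hm hr2 hμ q).le, inner_zero_left, abs_zero]
    have h2 := rho_bd hm0 hm1 hlog le_rfl h1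
    rw [mul_zero] at h2
    refine h2.trans ?_
    positivity
  have hIZ : 0 ≤ ∫ z, (cb L b (pt q z) * Zz v (pt q z)) ^ 2 := integral_nonneg fun z => sq_nonneg _
  have hIO : 0 ≤ ∫ z, (cb L b (pt q z) * sO v (pt q z)) ^ 2 := integral_nonneg fun z => sq_nonneg _
  have hFn : ‖fib (Fb L b v) q‖ ^ 2 = ∫ z, (cb L b (pt q z) * sO v (pt q z)) ^ 2 := fib_norm (Fb_cs hL0 b hv) q
  have hck := (ck_f hκ hδ).2 (pt q 0)
  have hkN := kN_nn (κ := κ) (pt q 0)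
  rw [EN_q hL0 hv q]
  rw [EN_q hL0 hv q] at g4
  rcases lt_or_ge (κ ^ 2 * sq2 q) 1 with hc | hc
  · -- near the axis
    have hVs : ∀ z, |sV v (pt q z)| ≤ 6 * ε * ck κ (ε * κ / B) (pt q 0) := by
      intro z
      have h1 : ck κ (ε * κ / B) (pt q 0) = ck κ (ε * κ / B) (pt q z) := rfl
      rw [h1]
      refine V_ck h hB hV (by rw [rsq_pt]; linarith) ?_
      have h2 : (κ * rad (pt q z)) ^ 2 = κ ^ 2 * sq2 q := by rw [mul_pow, rad_sq', rsq_pt]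
      by_contra h3
      rw [not_le] at h3
      nlinarith
    have hN := NN_fib (b := b) hL0 hv hVs
    have h1 : ∀ μ, 0 < μ → μ ≤ 1 → |⟪Pc (cmu m r2 μ q) (fib (Fb L b v) q), fib (NN L b v) q⟫_ℝ| ≤
        ‖fib (Fb L b v) q‖ * ‖fib (NN L b v) q‖ := by
      intro μ hμ _
      exact (abs_real_inner_le_norm _ _).trans (mul_le_mul_of_nonneg_right (Pc_norm (cmu_pos hm hr2 hμ q).le _) (norm_nonneg _))
    have h2 := rho_bd hm0 hm1 hlog (by positivity) h1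
    have h3 := am1 (a := ‖fib (Fb L b v) q‖) (b := ‖fib (NN L b v) q‖)
      (show 0 < 12 * ε ^ 2 / η * ck κ (ε * κ / B) (pt q 0) by positivity)
    rw [hFn] at h3
    have h4 : ‖fib (NN L b v) q‖ ^ 2 / (12 * ε ^ 2 / η * ck κ (ε * κ / B) (pt q 0)) ≤
        12 * η * (ck κ (ε * κ / B) (pt q 0) * ∫ z, (cb L b (pt q z) * Zz v (pt q z)) ^ 2) := by
      rw [div_le_iff₀ (by positivity)]
      refine hN.trans (le_of_eq ?_)
      field_simp
      ring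
    have h5 : 0 ≤ 48 * ε ^ 2 / τ * (kN κ (pt q 0) * ∫ z, (cb L b (pt q z) * Zz v (pt q z)) ^ 2) := by positivity
    have h6 : 0 ≤ τ * gI m r2 m0 (Fb L b v) q := by positivity
    have h7 : 0 ≤ 4 * τ * m * m0 * κ ^ 4 * (4 * L * Kq.indicator (fun _ : ℝ × ℝ => (1 : ℝ)) q +
      ∫ z, pd 2 (Fb L b v) (pt q z) ^ 2) := by positivity
    linarith
  · -- the scale-free zone
    have hr : 0 < sq2 q := by
      by_contra h1
      have h2 : sq2 q = 0 := le_antisymm (not_lt.1 h1) (sq2_nn q)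
      rw [h2, mul_zero] at hc
      linarith
    have hrr : r2 ≤ sq2 q := by
      have h3 : 0 < κ ^ 2 := by positivity
      nlinarith
    have hVs : ∀ z, |sV v (pt q z)| ≤ ε / sq2 q := by
      intro z
      have h1 := (V_bd h (x := pt q z) (by rw [rsq_pt]; linarith)).1
      rw [rsq_pt] at h1
      rw [le_div_iff₀ hr]
      linarith
    have hN := NN_fib (b := b) hL0 hv hVs
    have hKq : q ∈ Kq := by
      by_contra h1
      have := Kq_out h1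
      linarith
    have hS : 0 ≤ 4 * L + ∫ z, pd 2 (Fb L b v) (pt q z) ^ 2 := by linarith
    have hcm0 := cmu_pos hm hr2 hm0 q
    have hQ : 2 * cmu m r2 m0 q * ∫ z, |pd 2 (Fb L b v) (pt q z)| ≤
        2 * (2 * m * m0 / (sq2 q + r2)) * (4 * L + ∫ z, pd 2 (Fb L b v) (pt q z) ^ 2) :=
      mul_le_mul_of_nonneg_left (Fb_tv hL hv q) (by positivity)
    have h1 : ∀ μ, 0 < μ → μ ≤ 1 → |⟪Pc (cmu m r2 μ q) (fib (Fb L b v) q), fib (NN L b v) q⟫_ℝ| ≤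
        (√(2 * (ec (cmu m r2 1 q) (fib (Fb L b v) q) - ec (cmu m r2 m0 q) (fib (Fb L b v) q))) +
          √(2 * (2 * m * m0 / (sq2 q + r2)) * (4 * L + ∫ z, pd 2 (Fb L b v) (pt q z) ^ 2))) * √(‖fib (NN L b v) q‖ ^ 2) := by
      intro μ hμ hμ1
      rw [Real.sqrt_sq (norm_nonneg (fib (NN L b v) q))]
      exact (abs_real_inner_le_norm _ _).trans (mul_le_mul_of_nonneg_right
        (P_far hm hr2 hm0 q (Fb_cs hL0 b hv) hQ hμ hμ1 hm1.le) (norm_nonneg _))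
    have h2 := rho_bd hm0 hm1 hlog (by positivity) h1
    have hR : 0 ≤ ec (cmu m r2 1 q) (fib (Fb L b v) q) - ec (cmu m r2 m0 q) (fib (Fb L b v) q) := by
      have h3 : cmu m r2 m0 q ≤ cmu m r2 1 q := by
        unfold cmu
        apply div_le_div_of_nonneg_right _ (by linarith)
        nlinarith
      have := ec_mono hcm0.le h3 (fib (Fb L b v) q)
      linarith
    have h3 := N_alg (κ := κ) (m := m) (m0 := m0) (w := sq2 q / (sq2 q + r2) ^ 2) hτ hr hr2 hrr rfl hc hm hm0 hR hS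
      (sq_nonneg ‖fib (NN L b v) q‖) hN
    have hkN1 : kN κ (pt q 0) = 1 / sq2 q := by
      unfold kN
      rw [rsq_pt, min_eq_left hc]
    rw [hkN1, indicator_of_mem hKq, mul_one]
    have h4 : 0 ≤ 12 * ε ^ 2 / η * (ck κ (ε * κ / B) (pt q 0) * ∫ z, (cb L b (pt q z) * sO v (pt q z)) ^ 2) := by positivity
    have h5 : 0 ≤ 12 * η * (ck κ (ε * κ / B) (pt q 0) * ∫ z, (cb L b (pt q z) * Zz v (pt q z)) ^ 2) := by positivity
    have h6 : gI m r2 m0 (Fb L b v) q = sq2 q / (sq2 q + r2) ^ 2 *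
      (ec (cmu m r2 1 q) (fib (Fb L b v) q) - ec (cmu m r2 m0 q) (fib (Fb L b v) q)) := rfl
    rw [h6]
    linarith

/-- One box. -/
theorem Nt_box {ε K κ L b m m0 r2 τ η B : ℝ} {v : E3 → E3} (h : Pool.Agent.H94.EP.Sl ε K κ v) (hL : 1 ≤ L) (hm : 0 < m)
    (hr2 : 0 < r2) (hrk : r2 * κ ^ 2 ≤ 1) (hm0 : 0 < m0) (hm1 : m0 < 1) (hlog : 3 ≤ Real.log (1 / m0)) (hτ : 0 < τ)
    (hη : 0 < η) (hB : 0 < B) (hV : ∀ x, |sV v x| ≤ B) :
    ‖dPsi m r2 m0 (Fb L b v) (fun x => cb L b x * GO v x)‖ ≤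
      τ * Gain m r2 m0 (Fb L b v) + (∫ x, wS ((x 2 - b) / L) ^ 2 * EN ε τ η (ε * κ / B) κ v x) +
      4 * τ * m * m0 * κ ^ 4 * (16 * L + ∫ x, pd 2 (Fb L b v) x ^ 2) := by
  have hv := h.vs
  have he := h.e0
  have hκ0 : 0 < κ := by linarith [h.k1]
  have hL0 : 0 < L := by linarith
  have hδ : 0 < ε * κ / B := by positivity
  obtain ⟨d1, d2⟩ := fub (sq_int ((Fb_cs hL0 b hv).pd 2))
  obtain ⟨f1, f2⟩ := fub (w_int wS2_pr (L := L) b (EN_int h.k1 hτ hη hδ hv))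
  have f1' : Integrable (fun q : ℝ × ℝ => ∫ z, wS ((z - b) / L) ^ 2 * EN ε τ η (ε * κ / B) κ v (pt q z)) := f1
  have f2' : ∫ q : ℝ × ℝ, ∫ z, wS ((z - b) / L) ^ 2 * EN ε τ η (ε * κ / B) κ v (pt q z) =
    ∫ x, wS ((x 2 - b) / L) ^ 2 * EN ε τ η (ε * κ / B) κ v x := f2
  have hGi := gI_int (b := b) hL0 hm hr2 hm0 hv
  obtain ⟨k1, k2⟩ := Kq_ind
  have j1 : Integrable (fun q => τ * gI m r2 m0 (Fb L b v) q) := hGi.const_mul _
  have j12 : Integrable (fun q => τ * gI m r2 m0 (Fb L b v) q +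
    ∫ z, wS ((z - b) / L) ^ 2 * EN ε τ η (ε * κ / B) κ v (pt q z)) := j1.add f1'
  have j3 : Integrable (fun q => 4 * L * Kq.indicator (fun _ : ℝ × ℝ => (1 : ℝ)) q + ∫ z, pd 2 (Fb L b v) (pt q z) ^ 2) :=
    (k1.const_mul _).add d1
  have j4 : Integrable (fun q => 4 * τ * m * m0 * κ ^ 4 * (4 * L * Kq.indicator (fun _ : ℝ × ℝ => (1 : ℝ)) q +
      ∫ z, pd 2 (Fb L b v) (pt q z) ^ 2)) := j3.const_mul _
  have hmain : ‖dPsi m r2 m0 (Fb L b v) (fun x => cb L b x * GO v x)‖ ≤ ∫ q, (τ * gI m r2 m0 (Fb L b v) q +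
      (∫ z, wS ((z - b) / L) ^ 2 * EN ε τ η (ε * κ / B) κ v (pt q z)) +
      4 * τ * m * m0 * κ ^ 4 * (4 * L * Kq.indicator (fun _ : ℝ × ℝ => (1 : ℝ)) q + ∫ z, pd 2 (Fb L b v) (pt q z) ^ 2)) :=
    norm_integral_le_of_norm_le (j12.add j4)
      (ae_of_all _ fun q => Nt_fib (b := b) h hL hm hr2 hrk hm0 hm1 hlog hτ hη hB hV q)
  refine hmain.trans ?_
  rw [integral_add j12 j4, integral_add j1 f1', integral_const_mul, integral_const_mul, integral_add (k1.const_mul _) d1,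
    integral_const_mul, f2', d2]
  have e1 : ∫ q, gI m r2 m0 (Fb L b v) q = Gain m r2 m0 (Fb L b v) := rfl
  rw [e1]
  have hc : 0 ≤ 4 * τ * m * m0 * κ ^ 4 := by positivity
  have h1 : 4 * L * (∫ q, Kq.indicator (fun _ : ℝ × ℝ => (1 : ℝ)) q) + ∫ x, pd 2 (Fb L b v) x ^ 2 ≤
    16 * L + ∫ x, pd 2 (Fb L b v) x ^ 2 := by nlinarith
  have := mul_le_mul_of_nonneg_left h1 hc
  linarith

end Pool.Agent.H90.TQ
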