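import Pool.Agent.H90.TQ.T1

/-! The source term in the rate of the correction: one fibre. -/

set_option autoImplicit false

open Set Filter Topology MeasureTheory
open scoped ContDiff InnerProductSpace

namespace Pool.Agent.H90.TQ

open Pool.Agent.H16 Pool.Agent.H72.CC Pool.Agent.H94.EP Pool.Agent.H87.EP Pool.Agent.H42.TQ Pool.Agent.H90.EP
open Pool.Agent.H87.NS hiding c1
open Pool.Agent.H16.TU hiding Sl

/-- The localised source. -/
noncomputable def NN (L b : ℝ) (v : E3 → E3) (x : E3) : ℝ := cb L b x * GO v x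

theorem NN_cs {L : ℝ} (hL : 0 < L) (b : ℝ) {v : E3 → E3} (hv : Vs v) : Cs (NN L b v) :=
  box_cs wS_smooth wS_pr.zr hL b (GO_smooth hv) 2 (by norm_num)

theorem V_ck {ε K κ B : ℝ} {v : E3 → E3} (h : Pool.Agent.H94.EP.Sl ε K κ v) (hB : 0 < B) (hV : ∀ x, |sV v x| ≤ B) {x : E3}
    (hx : rsq x < 1 / 2) (hc : κ * rad x ≤ 1) : |sV v x| ≤ 6 * ε * ck κ (ε * κ / B) x := by
  have he := h.e0
  have hk := h.k1
  have hk0 : 0 < κ := by linarith
  have hδ : 0 < ε * κ / B := by positivity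
  have hb : |sV v x| / ε ≤ 6 * ck κ (ε * κ / B) x := by
    refine ck_lb hk hδ (by positivity) hc ?_ ?_
    · rcases (rad_nonneg x).eq_or_lt with h0 | h0
      · rw [← h0, mul_zero]
        exact hk0.le
      · have h1 := (V_bd h hx).2
        rw [← rad_sq' x] at h1
        have h2 : rad x * |sV v x| ≤ ε * κ := by
          by_contra h3
          rw [not_le] at h3
          have h4 := mul_lt_mul_of_pos_left h3 h0
          nlinarith
        rw [div_mul_eq_mul_div, div_le_iff₀ he]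
        linarith
    · have h1 : |sV v x| / ε * (ε * κ / B) = |sV v x| / B * κ := by
        field_simp
      rw [h1]
      have h2 : |sV v x| / B ≤ 1 := by
        rw [div_le_one hB]
        exact hV x
      calc |sV v x| / B * κ ≤ 1 * κ := mul_le_mul_of_nonneg_right h2 hk0.le
        _ = κ := one_mul κ
  rw [div_le_iff₀ he] at hb
  linarith

theorem ck_le {κ δ : ℝ} (hκ : 0 < κ) (hδ : 0 < δ) (x : E3) : ck κ δ x ≤ κ / δ := by
  unfold ck rd
  have h1 : δ ≤ √(rsq x + δ ^ 2) := Real.le_sqrt_of_sq_le (by linarith [TA_rsq_nn x])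
  have h2 : 1 ≤ (1 + κ * (√(rsq x + δ ^ 2) - δ)) ^ 2 := by
    apply one_le_pow₀
    have : 0 ≤ κ * (√(rsq x + δ ^ 2) - δ) := mul_nonneg hκ.le (by linarith)
    linarith
  apply div_le_div_of_nonneg_left hκ.le hδ
  nlinarith

/-- The density of the bound. -/
noncomputable def EN (ε τ η δ κ : ℝ) (v : E3 → E3) (x : E3) : ℝ :=
  c2 x ^ 4 * (48 * ε ^ 2 / τ * (kN κ x * Zz v x ^ 2) + 12 * ε ^ 2 / η * (ck κ δ x * sO v x ^ 2) + 12 * η * (ck κ δ x * Zz v x ^ 2))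

theorem EN_nn {ε τ η δ κ : ℝ} (hκ : 1 ≤ κ) (hτ : 0 < τ) (hη : 0 < η) (hδ : 0 < δ) (v : E3 → E3) (x : E3) : 0 ≤ EN ε τ η δ κ v x := by
  unfold EN
  have h1 := kN_nn (κ := κ) x
  have h2 := (ck_f hκ hδ).2 x
  have h3 := (c2_01 x).1
  positivity

theorem EN_int {ε τ η δ κ : ℝ} (hκ : 1 ≤ κ) (hτ : 0 < τ) (hη : 0 < η) (hδ : 0 < δ) {v : E3 → E3} (hv : Vs v) :
    Integrable (EN ε τ η δ κ v) := by
  have hZ := ri_int (vs_ri hv).2.2.2.1
  have hO := ri_int (vs_ri hv).2.2.1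
  have hκ0 : 0 < κ := by linarith
  have hcZ : Continuous (Zz v) := hZ.2.2.2.2.1
  have hcO : Continuous (sO v) := hO.2.2.2.2.1
  have hck := (ck_f hκ hδ).1
  have i1 : Integrable (fun x => 48 * ε ^ 2 / τ * (κ ^ 2 * Zz v x ^ 2) + 12 * ε ^ 2 / η * (κ / δ * sO v x ^ 2) +
      12 * η * (κ / δ * Zz v x ^ 2)) :=
    (((hZ.1.const_mul _).const_mul _).add ((hO.1.const_mul _).const_mul _)).add ((hZ.1.const_mul _).const_mul _)
  refine i1.mono' ?_ (ae_of_all _ fun x => ?_)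
  · unfold EN
    exact ((c2_smooth.continuous.pow 4).measurable.mul ((((kN_meas κ).mul (hcZ.pow 2).measurable).const_mul _).add
      (((hck.measurable.mul (hcO.pow 2).measurable).const_mul _)) |>.add
      (((hck.measurable.mul (hcZ.pow 2).measurable).const_mul _)))).aestronglyMeasurable
  · rw [Real.norm_of_nonneg (EN_nn hκ hτ hη hδ v x)]
    unfold EN
    have h1 := kN_nn (κ := κ) x
    have h1' := kN_le (κ := κ) x
    have h2 := (ck_f hκ hδ).2 x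
    have h2' := ck_le hκ0 hδ x
    have h3 := (c2_01 x).1
    have h4 : c2 x ^ 4 ≤ 1 := pow_le_one₀ h3 (c2_01 x).2
    calc _ ≤ 48 * ε ^ 2 / τ * (kN κ x * Zz v x ^ 2) + 12 * ε ^ 2 / η * (ck κ δ x * sO v x ^ 2) +
          12 * η * (ck κ δ x * Zz v x ^ 2) := mul_le_of_le_one_left (by positivity) h4
      _ ≤ _ := by gcongr

theorem cbsq_int {L b : ℝ} (hL : 0 < L) {f : E3 → ℝ} (hf : ContDiff ℝ ∞ f) (q : ℝ × ℝ) :
    Integrable (fun z => (cb L b (pt q z) * f (pt q z)) ^ 2) := by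
  have hc : Cs (fun x => cb L b x * f x) := box_cs wS_smooth wS_pr.zr hL b hf 2 (by norm_num)
  refine ((hc.slice q).1.pow 2).integrable_of_hasCompactSupport ((hc.slice q).2.mono fun z hz h => hz ?_)
  have h' : cb L b (pt q z) * f (pt q z) = 0 := h
  show (cb L b (pt q z) * f (pt q z)) ^ 2 = 0
  rw [h']
  simp

/-- The size of the localised source on a fibre, if `|V| ≤ s` there. -/
theorem NN_fib {L b s : ℝ} (hL : 0 < L) {v : E3 → E3} (hv : Vs v) {q : ℝ × ℝ} (hs : ∀ z, |sV v (pt q z)| ≤ s) :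
    ‖fib (NN L b v) q‖ ^ 2 ≤ 4 * s ^ 2 * ∫ z, (cb L b (pt q z) * Zz v (pt q z)) ^ 2 := by
  rw [fib_norm (NN_cs hL b hv), ← integral_const_mul]
  refine integral_mono (cbsq_int hL (GO_smooth hv) q) ((cbsq_int hL (vs_ri hv).2.2.2.1.sm q).const_mul _) fun z => ?_
  show NN L b v (pt q z) ^ 2 ≤ 4 * s ^ 2 * (cb L b (pt q z) * Zz v (pt q z)) ^ 2
  unfold NN GO
  have h1 : sV v (pt q z) ^ 2 ≤ s ^ 2 := by
    rw [← sq_abs]
    exact pow_le_pow_left₀ (abs_nonneg _) (hs z) 2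
  calc (cb L b (pt q z) * (2 * sV v (pt q z) * Zz v (pt q z))) ^ 2
      = 4 * sV v (pt q z) ^ 2 * (cb L b (pt q z) * Zz v (pt q z)) ^ 2 := by ring
    _ ≤ _ := by gcongr

theorem am1 {a b s : ℝ} (hs : 0 < s) : 2 * (a * b) ≤ s * a ^ 2 + b ^ 2 / s := by
  have h1 : s * a ^ 2 + b ^ 2 / s - 2 * (a * b) = (s * a - b) ^ 2 / s := by
    field_simp
    ring
  have h2 : 0 ≤ (s * a - b) ^ 2 / s := by positivity
  linarith

/-- The fibre integral of the density. -/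
theorem EN_q {L b ε τ η δ κ : ℝ} (hL : 0 < L) {v : E3 → E3} (hv : Vs v) (q : ℝ × ℝ) :
    ∫ z, wS ((z - b) / L) ^ 2 * EN ε τ η δ κ v (pt q z) =
      48 * ε ^ 2 / τ * (kN κ (pt q 0) * ∫ z, (cb L b (pt q z) * Zz v (pt q z)) ^ 2) +
      12 * ε ^ 2 / η * (ck κ δ (pt q 0) * ∫ z, (cb L b (pt q z) * sO v (pt q z)) ^ 2) +
      12 * η * (ck κ δ (pt q 0) * ∫ z, (cb L b (pt q z) * Zz v (pt q z)) ^ 2) := by
  have iZ := cbsq_int (b := b) hL (vs_ri hv).2.2.2.1.sm q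
  have iO := cbsq_int (b := b) hL (vs_ri hv).2.2.1.sm q
  have e : (fun z => wS ((z - b) / L) ^ 2 * EN ε τ η δ κ v (pt q z)) = fun z =>
      (48 * ε ^ 2 / τ * kN κ (pt q 0)) * (cb L b (pt q z) * Zz v (pt q z)) ^ 2 +
      (12 * ε ^ 2 / η * ck κ δ (pt q 0)) * (cb L b (pt q z) * sO v (pt q z)) ^ 2 +
      (12 * η * ck κ δ (pt q 0)) * (cb L b (pt q z) * Zz v (pt q z)) ^ 2 := by
    funext z
    have e1 : kN κ (pt q z) = kN κ (pt q 0) := rfl
    have e2 : ck κ δ (pt q z) = ck κ δ (pt q 0) := rfl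
    have e3 : cb L b (pt q z) = c2 (pt q z) ^ 2 * wS ((z - b) / L) := rfl
    unfold EN
    rw [e1, e2, e3]
    ring
  have j1 : Integrable (fun z => (48 * ε ^ 2 / τ * kN κ (pt q 0)) * (cb L b (pt q z) * Zz v (pt q z)) ^ 2 +
      (12 * ε ^ 2 / η * ck κ δ (pt q 0)) * (cb L b (pt q z) * sO v (pt q z)) ^ 2) := (iZ.const_mul _).add (iO.const_mul _)
  rw [e, integral_add j1 (iZ.const_mul _), integral_add (iZ.const_mul _) (iO.const_mul _), integral_const_mul,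
    integral_const_mul, integral_const_mul]
  ring

/-- The projections, in the scale-free zone. -/
theorem P_far {m r2 m0 : ℝ} (hm : 0 < m) (hr : 0 < r2) (h0 : 0 < m0) (q : ℝ × ℝ) {F : E3 → ℝ} (hF : Cs F) {Q : ℝ}
    (hQ : 2 * cmu m r2 m0 q * ∫ z, |pd 2 F (pt q z)| ≤ Q) {μ : ℝ} (hμ : 0 < μ) (hμ1 : μ ≤ 1) (h1 : m0 ≤ 1) :
    ‖Pc (cmu m r2 μ q) (fib F q)‖ ≤
      √(2 * (ec (cmu m r2 1 q) (fib F q) - ec (cmu m r2 m0 q) (fib F q))) + √Q := by
  have hc0 := cmu_pos hm hr h0 q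
  have hcμ := cmu_pos hm hr hμ q
  have hden : 0 < sq2 q + r2 := by linarith [sq2_nn q]
  have hmon : ∀ s t : ℝ, s ≤ t → cmu m r2 s q ≤ cmu m r2 t q := by
    intro s t hst
    unfold cmu
    apply div_le_div_of_nonneg_right _ hden.le
    nlinarith
  have hI : 0 ≤ ∫ z, |pd 2 F (pt q z)| := integral_nonneg fun z => abs_nonneg _
  have hsm : ∀ c : ℝ, 0 ≤ c → c ≤ cmu m r2 m0 q → ‖Pc c (fib F q)‖ ≤ √Q := by
    intro c hc hcc
    apply Real.le_sqrt_of_sq_le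
    refine (Pc_tv hc hF q).trans (le_trans ?_ hQ)
    exact mul_le_mul_of_nonneg_right (by linarith) hI
  rcases le_or_gt μ m0 with h | h
  · have := hsm _ hcμ.le (hmon _ _ h)
    have := Real.sqrt_nonneg (2 * (ec (cmu m r2 1 q) (fib F q) - ec (cmu m r2 m0 q) (fib F q)))
    linarith
  · have g1 := Pc_diff hc0.le (hmon _ _ h.le) (fib F q)
    have g2 := ec_mono hcμ.le (hmon _ _ hμ1) (fib F q)
    have g3 : ‖Pc (cmu m r2 μ q) (fib F q) - Pc (cmu m r2 m0 q) (fib F q)‖ ≤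
        √(2 * (ec (cmu m r2 1 q) (fib F q) - ec (cmu m r2 m0 q) (fib F q))) := by
      apply Real.le_sqrt_of_sq_le
      linarith
    have g4 := hsm _ hc0.le le_rfl
    calc ‖Pc (cmu m r2 μ q) (fib F q)‖
        = ‖(Pc (cmu m r2 μ q) (fib F q) - Pc (cmu m r2 m0 q) (fib F q)) + Pc (cmu m r2 m0 q) (fib F q)‖ := by
          rw [sub_add_cancel]
      _ ≤ _ := norm_add_le _ _
      _ ≤ _ := by linarith

theorem N_alg {τ w r ε κ m m0 r2 R N2 S X : ℝ} (hτ : 0 < τ) (hr : 0 < r) (hr2 : 0 < r2) (hrr : r2 ≤ r)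
    (hw : w = r / (r + r2) ^ 2) (hκ : 1 ≤ κ ^ 2 * r) (hm : 0 < m) (hm0 : 0 < m0) (hR : 0 ≤ R) (hS : 0 ≤ S) (hN : 0 ≤ N2)
    (h2 : N2 ≤ 4 * (ε / r) ^ 2 * X) :
    2 * ((√(2 * R) + √(2 * (2 * m * m0 / (r + r2)) * S)) * √N2) ≤
      τ * (w * R) + 48 * ε ^ 2 / τ * (1 / r * X) + 4 * τ * m * m0 * κ ^ 4 * S := by
  have hw0 : 0 < w := by rw [hw]; positivity
  have hQ0 : 0 ≤ 2 * (2 * m * m0 / (r + r2)) * S := by positivity
  have a1 := am1 (a := √(2 * R)) (b := √N2) (show 0 < τ * w / 2 by positivity)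
  have a2 := am1 (a := √(2 * (2 * m * m0 / (r + r2)) * S)) (b := √N2) (show 0 < τ * w by positivity)
  rw [Real.sq_sqrt (by positivity), Real.sq_sqrt hN] at a1 a2
  have b1 : 1 / w ≤ 4 * r := by
    rw [hw, one_div_div, div_le_iff₀ hr]
    nlinarith
  have b2 : w ≤ 1 / r := by
    rw [hw, div_le_div_iff₀ (by positivity) hr]
    nlinarith
  have b3 : N2 / (τ * w / 2) + N2 / (τ * w) = 3 / τ * (1 / w * N2) := by
    field_simp
    ring
  have b4 : 3 / τ * (1 / w * N2) ≤ 48 * ε ^ 2 / τ * (1 / r * X) := by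
    calc 3 / τ * (1 / w * N2) ≤ 3 / τ * (4 * r * (4 * (ε / r) ^ 2 * X)) := by gcongr
      _ = _ := by field_simp; ring
  have b5 : τ * w * (2 * (2 * m * m0 / (r + r2)) * S) ≤ 4 * τ * m * m0 * κ ^ 4 * S := by
    have c1 : 1 / r ≤ κ ^ 2 := by
      rw [div_le_iff₀ hr]
      exact hκ
    have c2 : 1 / (r + r2) ≤ κ ^ 2 := by
      refine le_trans ?_ c1
      apply div_le_div_of_nonneg_left zero_le_one hr
      linarith
    calc τ * w * (2 * (2 * m * m0 / (r + r2)) * S) = 4 * τ * m * m0 * (w * (1 / (r + r2))) * S := by ring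
      _ ≤ 4 * τ * m * m0 * (κ ^ 2 * κ ^ 2) * S := by
          have : w * (1 / (r + r2)) ≤ κ ^ 2 * κ ^ 2 := mul_le_mul (b2.trans c1) c2 (by positivity) (by positivity)
          gcongr
      _ = _ := by ring
  have b6 : τ * w / 2 * (2 * R) = τ * (w * R) := by ring
  have b7 : 2 * ((√(2 * R) + √(2 * (2 * m * m0 / (r + r2)) * S)) * √N2) =
      2 * (√(2 * R) * √N2) + 2 * (√(2 * (2 * m * m0 / (r + r2)) * S) * √N2) := by ring
  rw [b7]
  linarith

end Pool.Agent.H90.TQ
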