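import Pool.Agent.H90.TQ.T1f

/-! The source term of the equation of `O`: integration over the fibres and over the boxes. -/

set_option autoImplicit false

open Set Filter Topology MeasureTheory
open scoped ContDiff InnerProductSpace

namespace Pool.Agent.H90.TQ

open Pool.Agent.H16 Pool.Agent.H72.CC Pool.Agent.H94.EP Pool.Agent.H87.EP Pool.Agent.H42.TQ Pool.Agent.H90.EP
open Pool.Agent.H87.NS hiding c1
open Pool.Agent.H16.TU hiding Sl

/-- The horizontal section of the zone. -/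
def Mq (κ : ℝ) : Set (ℝ × ℝ) := {q | 1 ≤ κ ^ 2 * sq2 q ∧ sq2 q ≤ 1 / 16}

theorem Mq_meas (κ : ℝ) : MeasurableSet (Mq κ) := by
  have h1 : Mq κ = {q | 1 ≤ κ ^ 2 * sq2 q} ∩ {q | sq2 q ≤ 1 / 16} := rfl
  rw [h1]
  exact ((isClosed_le continuous_const (continuous_const.mul sq2_cont)).inter
    (isClosed_le sq2_cont continuous_const)).measurableSet

theorem Md_q {κ : ℝ} (hκ : 0 < κ) (q : ℝ × ℝ) (z : ℝ) : pt q z ∈ TA_Md κ ↔ q ∈ Mq κ := by
  have h1 : rad (pt q z) ^ 2 = sq2 q := by rw [rad_sq', rsq_pt]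
  have h2 := rad_nonneg (pt q z)
  have h3 : (κ * rad (pt q z)) ^ 2 = κ ^ 2 * sq2 q := by rw [mul_pow, h1]
  constructor
  · rintro ⟨h4, h5⟩
    rw [rsq_pt] at h5
    refine ⟨?_, h5⟩
    rw [← h3]
    exact one_le_pow₀ h4
  · rintro ⟨h4, h5⟩
    refine ⟨?_, by rw [rsq_pt]; exact h5⟩
    rw [← h3] at h4
    have h6 : 0 ≤ κ * rad (pt q z) := by positivity
    by_contra h7
    rw [not_le] at h7
    nlinarith

/-- The integrand of the source on the zone. -/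
noncomputable def S1 (κ L a : ℝ) (v : E3 → E3) : E3 → ℝ := (TA_Md κ).indicator (fun x => A1 L a x * (sO v x * GO v x))

theorem S1_int {κ L : ℝ} (a : ℝ) (hL : 1 ≤ L) {v : E3 → E3} (hv : Vs v) : Integrable (S1 κ L a v) :=
  (TA_int hL hv).indicator (TA_meas κ)

theorem w_int {w : ℝ → ℝ} (hw : Pr w) {L : ℝ} (b : ℝ) {G : E3 → ℝ} (hG : Integrable G) :
    Integrable (fun x => w ((x 2 - b) / L) * G x) := by
  have hwb : Continuous (fun x : E3 => w ((x 2 - b) / L)) := hw.ct.comp ((I_c2.sub continuous_const).div_const L)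
  refine hG.norm.mono' (hwb.aestronglyMeasurable.mul hG.aestronglyMeasurable) (ae_of_all _ fun x => ?_)
  rw [norm_mul, Real.norm_of_nonneg (hw.nn _)]
  exact mul_le_of_le_one_left (norm_nonneg _) (hw.le _)

theorem wS_eta (t : ℝ) : wS t * I_eta t = I_eta t := by
  rcases le_or_gt (t ^ 2) 1 with h | h
  · rw [wS_one h, one_mul]
  · rw [I_eta_zero (by linarith), mul_zero]

theorem S1_q {κ L a b : ℝ} (hκ : 0 < κ) (hL : 0 < L) {v : E3 → E3} (hv : Vs v) (q : ℝ × ℝ) :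
    ∫ z, I_eta (((pt q z) 2 - b) / L) * S1 κ L a v (pt q z) =
      (Mq κ).indicator (fun q => ⟪fib (Fb L b v) q, fib (Gb L a b v) q⟫_ℝ) q := by
  by_cases hq : q ∈ Mq κ
  · rw [indicator_of_mem hq, fib_inner (Fb_cs hL b hv) (Gb_cs hL a b hv)]
    congr 1
    funext z
    have h1 : pt q z ∈ TA_Md κ := (Md_q hκ q z).2 hq
    have h2 : rsq (pt q z) ≤ 1 / 16 := h1.2
    unfold S1 Fb Gb
    rw [indicator_of_mem h1, cb_eq, c2_one h2, A1_one L a (by linarith)]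
    have h3 := wS_eta (((pt q z) 2 - b) / L)
    linear_combination (-(ph L a ((pt q z) 2) * (sO v (pt q z) * GO v (pt q z)))) * h3
  · rw [indicator_of_notMem hq]
    have h1 : ∀ z, pt q z ∉ TA_Md κ := fun z h => hq ((Md_q hκ q z).1 h)
    unfold S1
    simp only [indicator_of_notMem (h1 _), mul_zero, integral_zero]

/-- The part of `YY` in a box. -/
noncomputable def Y1 (κ L a b : ℝ) (v : E3 → E3) : ℝ :=
  ∫ x, I_eta ((x 2 - b) / L) ^ 2 * (TA_Md κ).indicator (fun x => ph L a (x 2) * Zz v x ^ 2 / rsq x) x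

theorem eta2_pr : Pr (fun t => I_eta t ^ 2) := by
  refine ⟨eta_pr.ct.pow 2, fun _ => sq_nonneg _, fun t => ?_, fun _ h => ?_⟩
  · exact pow_le_one₀ (eta_pr.nn t) (eta_pr.le t)
  · show I_eta _ ^ 2 = 0
    rw [eta_pr.zr _ h]
    simp

theorem Y1_q {κ L a b : ℝ} (hκ : 0 < κ) (q : ℝ × ℝ) {v : E3 → E3} :
    ∫ z, I_eta (((pt q z) 2 - b) / L) ^ 2 * (TA_Md κ).indicator (fun x => ph L a (x 2) * Zz v x ^ 2 / rsq x) (pt q z) =
      (Mq κ).indicator (fun q => 1 / sq2 q * ∫ z, I_eta ((z - b) / L) ^ 2 * (ph L a z * Zz v (pt q z) ^ 2)) q := by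
  by_cases hq : q ∈ Mq κ
  · rw [indicator_of_mem hq, ← integral_const_mul]
    congr 1
    funext z
    have h1 : pt q z ∈ TA_Md κ := (Md_q hκ q z).2 hq
    rw [indicator_of_mem h1]
    show I_eta ((z - b) / L) ^ 2 * (ph L a z * Zz v (pt q z) ^ 2 / sq2 q) = 1 / sq2 q * (I_eta ((z - b) / L) ^ 2 * (ph L a z * Zz v (pt q z) ^ 2))
    ring
  · rw [indicator_of_notMem hq]
    have h1 : ∀ z, pt q z ∉ TA_Md κ := fun z h => hq ((Md_q hκ q z).1 h)
    simp only [indicator_of_notMem (h1 _), mul_zero, integral_zero]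

theorem Kq_vol : volume.real Kq ≤ 4 := by
  unfold Kq
  rw [Measure.volume_eq_prod, measureReal_prod_prod, Real.volume_real_Icc_of_le (by norm_num)]
  norm_num

theorem Kq_ind : Integrable (Kq.indicator (fun _ : ℝ × ℝ => (1 : ℝ))) ∧ ∫ q, Kq.indicator (fun _ : ℝ × ℝ => (1 : ℝ)) q ≤ 4 := by
  constructor
  · rw [integrable_indicator_iff Kq_compact.measurableSet]
    exact integrableOn_const Kq_compact.measure_lt_top.ne
  · rw [integral_indicator Kq_compact.measurableSet, setIntegral_const, smul_eq_mul, mul_one]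
    exact Kq_vol

theorem Mq_Kq {κ : ℝ} {q : ℝ × ℝ} (h : q ∈ Mq κ) : q ∈ Kq := by
  by_contra h1
  have h2 := Kq_out h1
  have h3 := h.2
  linarith

theorem sq_int {F : E3 → ℝ} (hF : Cs F) : Integrable (fun x => F x ^ 2) := by
  refine (hF.sm.continuous.pow 2).integrable_of_hasCompactSupport (hF.cs.mono fun z hz h => hz ?_)
  have h' : F z = 0 := h
  show F z ^ 2 = 0
  rw [h']
  simp

/-- One box. -/
theorem T1_box {ε K κ L a b m m0 r2 τ : ℝ} {v : E3 → E3} (h : Pool.Agent.H94.EP.Sl ε K κ v) (hL : 1 ≤ L) (hm : 0 < m)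
    (hr2 : 0 < r2) (hrk : r2 * κ ^ 2 ≤ 1) (hm0 : 0 < m0) (hm1 : m0 ≤ 1 / 2) (hτ : 0 < τ) (hcond : CF * ε ^ 2 ≤ 2 * τ * m) :
    ∫ x, I_eta ((x 2 - b) / L) * S1 κ L a v x ≤ 8 * τ * (ph L a b * Gain m r2 m0 (Fb L b v)) + 20 * ε ^ 2 / τ * Y1 κ L a b v +
      2 * τ * m * m0 * κ ^ 4 * (ph L a b * (16 * L + ∫ x, pd 2 (Fb L b v) x ^ 2)) := by
  have hv := h.vs
  have hL0 : 0 < L := by linarith
  have hκ : 0 < κ := by linarith [h.k1]
  have hp := ph_pos L a b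
  obtain ⟨f1, f2⟩ := fub (w_int eta_pr (L := L) b (S1_int (κ := κ) a hL hv))
  obtain ⟨g1, g2⟩ := fub (w_int eta2_pr (L := L) b (TA_YYi (L := L) (a := a) h.k1 hv))
  obtain ⟨d1, d2⟩ := fub (sq_int ((Fb_cs hL0 b hv).pd 2))
  have hf : (fun q => ∫ z, I_eta (((pt q z) 2 - b) / L) * S1 κ L a v (pt q z)) =
      fun q => (Mq κ).indicator (fun q => ⟪fib (Fb L b v) q, fib (Gb L a b v) q⟫_ℝ) q := funext fun q => S1_q hκ hL0 hv q
  have hg : (fun q => ∫ z, I_eta (((pt q z) 2 - b) / L) ^ 2 *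
      (TA_Md κ).indicator (fun x => ph L a (x 2) * Zz v x ^ 2 / rsq x) (pt q z)) =
      fun q => (Mq κ).indicator (fun q => 1 / sq2 q * ∫ z, I_eta ((z - b) / L) ^ 2 * (ph L a z * Zz v (pt q z) ^ 2)) q :=
    funext fun q => Y1_q hκ q
  rw [hf] at f1 f2
  rw [hg] at g1 g2
  have hY : Y1 κ L a b v =
      ∫ q, (Mq κ).indicator (fun q => 1 / sq2 q * ∫ z, I_eta ((z - b) / L) ^ 2 * (ph L a z * Zz v (pt q z) ^ 2)) q := g2.symm
  have hGi := gI_int (b := b) hL0 hm hr2 hm0 hv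
  obtain ⟨k1, k2⟩ := Kq_ind
  rw [← f2, hY, ← d2]
  have hc : 0 ≤ 2 * τ * m * m0 * κ ^ 4 * ph L a b := by positivity
  have hc2 : 0 ≤ 20 * ε ^ 2 / τ := by positivity
  have hc3 : 0 ≤ 8 * τ * ph L a b := by positivity
  have j1 : Integrable (fun q => 8 * τ * ph L a b * gI m r2 m0 (Fb L b v) q) := hGi.const_mul _
  have j2 : Integrable (fun q => 20 * ε ^ 2 / τ * (Mq κ).indicator (fun q => 1 / sq2 q *
      ∫ z, I_eta ((z - b) / L) ^ 2 * (ph L a z * Zz v (pt q z) ^ 2)) q) := g1.const_mul _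
  have j3 : Integrable (fun q => 4 * L * Kq.indicator (fun _ : ℝ × ℝ => (1 : ℝ)) q + ∫ z, pd 2 (Fb L b v) (pt q z) ^ 2) :=
    (k1.const_mul _).add d1
  have j4 : Integrable (fun q => 2 * τ * m * m0 * κ ^ 4 * ph L a b * (4 * L * Kq.indicator (fun _ : ℝ × ℝ => (1 : ℝ)) q +
      ∫ z, pd 2 (Fb L b v) (pt q z) ^ 2)) := j3.const_mul _
  have j12 : Integrable (fun q => 8 * τ * ph L a b * gI m r2 m0 (Fb L b v) q + 20 * ε ^ 2 / τ *
      (Mq κ).indicator (fun q => 1 / sq2 q * ∫ z, I_eta ((z - b) / L) ^ 2 * (ph L a z * Zz v (pt q z) ^ 2)) q) := j1.add j2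
  have hmono : ∫ q, (Mq κ).indicator (fun q => ⟪fib (Fb L b v) q, fib (Gb L a b v) q⟫_ℝ) q ≤
      ∫ q, (8 * τ * ph L a b * gI m r2 m0 (Fb L b v) q + 20 * ε ^ 2 / τ *
        (Mq κ).indicator (fun q => 1 / sq2 q * ∫ z, I_eta ((z - b) / L) ^ 2 * (ph L a z * Zz v (pt q z) ^ 2)) q +
        2 * τ * m * m0 * κ ^ 4 * ph L a b * (4 * L * Kq.indicator (fun _ : ℝ × ℝ => (1 : ℝ)) q +
          ∫ z, pd 2 (Fb L b v) (pt q z) ^ 2)) := by
    refine integral_mono f1 (j12.add j4) fun q => ?_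
    show (Mq κ).indicator (fun q => ⟪fib (Fb L b v) q, fib (Gb L a b v) q⟫_ℝ) q ≤
      8 * τ * ph L a b * gI m r2 m0 (Fb L b v) q + 20 * ε ^ 2 / τ *
        (Mq κ).indicator (fun q => 1 / sq2 q * ∫ z, I_eta ((z - b) / L) ^ 2 * (ph L a z * Zz v (pt q z) ^ 2)) q +
        2 * τ * m * m0 * κ ^ 4 * ph L a b * (4 * L * Kq.indicator (fun _ : ℝ × ℝ => (1 : ℝ)) q +
          ∫ z, pd 2 (Fb L b v) (pt q z) ^ 2)
    by_cases hq : q ∈ Mq κ
    · rw [indicator_of_mem hq, indicator_of_mem hq, indicator_of_mem (Mq_Kq hq), mul_one]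
      have h1 : r2 ≤ sq2 q := by
        have h2 : 1 ≤ κ ^ 2 * sq2 q := hq.1
        have h3 : 0 < κ ^ 2 := by positivity
        nlinarith
      exact T1_fib h hL hm hr2 hm0 hm1 hτ hcond hq.1 h1 hq.2
    · rw [indicator_of_notMem hq, indicator_of_notMem hq, mul_zero, add_zero]
      have h1 := gI_nn hm hr2 hm0 (by linarith : m0 ≤ 1) (Fb L b v) q
      have h2 : 0 ≤ Kq.indicator (fun _ : ℝ × ℝ => (1 : ℝ)) q := indicator_nonneg (fun _ _ => zero_le_one) q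
      have h3 : 0 ≤ ∫ z, pd 2 (Fb L b v) (pt q z) ^ 2 := integral_nonneg fun z => sq_nonneg _
      positivity
  refine hmono.trans ?_
  rw [integral_add j12 j4, integral_add j1 j2, integral_const_mul, integral_const_mul, integral_const_mul,
    integral_add (k1.const_mul _) d1, integral_const_mul]
  have e1 : ∫ q, gI m r2 m0 (Fb L b v) q = Gain m r2 m0 (Fb L b v) := rfl
  rw [e1]
  have e2 : 2 * τ * m * m0 * κ ^ 4 * ph L a b * (4 * L * (∫ q, Kq.indicator (fun _ : ℝ × ℝ => (1 : ℝ)) q) +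
      ∫ q, ∫ z, pd 2 (Fb L b v) (pt q z) ^ 2) ≤
      2 * τ * m * m0 * κ ^ 4 * ph L a b * (16 * L + ∫ q, ∫ z, pd 2 (Fb L b v) (pt q z) ^ 2) := by
    apply mul_le_mul_of_nonneg_left _ hc
    nlinarith
  have e3 : 2 * τ * m * m0 * κ ^ 4 * (ph L a b * (16 * L + ∫ q, ∫ z, pd 2 (Fb L b v) (pt q z) ^ 2)) =
    2 * τ * m * m0 * κ ^ 4 * ph L a b * (16 * L + ∫ q, ∫ z, pd 2 (Fb L b v) (pt q z) ^ 2) := by ring
  rw [e3]
  linarith

end Pool.Agent.H90.TQ
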