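import Pool.Agent.H90.TQ.T1m
import Pool.Agent.H90.TQ.Gs

/-! The source term in the scale-free zone: Fenchel inequality on a fibre. -/

set_option autoImplicit false

open Set Filter Topology MeasureTheory
open scoped ContDiff InnerProductSpace

namespace Pool.Agent.H90.TQ

open Pool.Agent.H16 Pool.Agent.H72.CC Pool.Agent.H94.EP Pool.Agent.H87.EP Pool.Agent.H42.TQ Pool.Agent.H90.EP
open Pool.Agent.H87.NS hiding c1
open Pool.Agent.H16.TU hiding Sl

/-- The localised source. -/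
noncomputable def Gb (L a b : ℝ) (v : E3 → E3) (x : E3) : ℝ := c2 x ^ 1 * I_eta ((x 2 - b) / L) * (ph L a (x 2) * GO v x)

theorem GO_smooth {v : E3 → E3} (hv : Vs v) : ContDiff ℝ ∞ (GO v) := by
  unfold GO
  exact (contDiff_const.mul (vs_ri hv).1.sm).mul (vs_ri hv).2.2.2.1.sm

theorem Gb_cs {L : ℝ} (hL : 0 < L) (a b : ℝ) {v : E3 → E3} (hv : Vs v) : Cs (Gb L a b v) :=
  box_cs I_eta_smooth eta_pr.zr hL b (((ph_smooth L a).comp co2_smooth).mul (GO_smooth hv)) 1 one_ne_zero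

theorem V2_der {v : E3 → E3} (hv : Vs v) (q : ℝ × ℝ) (z : ℝ) : HasDerivAt (fun z => sV v (pt q z) ^ 2) (GO v (pt q z)) z := by
  have h1 := (A5_der (vs_ri hv).1.sm q z).pow 2
  refine h1.congr_deriv ?_
  unfold GO Zz
  simp

theorem V_bd {ε K κ : ℝ} {v : E3 → E3} (h : Pool.Agent.H94.EP.Sl ε K κ v) {x : E3} (hx : rsq x < 1 / 2) :
    rsq x * |sV v x| ≤ ε ∧ rsq x * |sV v x| ≤ ε * (κ * rad x) := by
  have hrad : rad x < 1 := by
    have h1 := rad_sq' x
    have h3 := rad_nonneg x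
    nlinarith
  have hg := h.gam x hrad
  rw [circ_eq h.vs.ax x, abs_mul, abs_of_nonneg (TA_rsq_nn x)] at hg
  exact ⟨hg.trans (mul_le_of_le_one_right h.e0.le (min_le_left _ _)),
    hg.trans (mul_le_mul_of_nonneg_left (min_le_right _ _) h.e0.le)⟩

theorem V2_bd {ε K κ : ℝ} {v : E3 → E3} (h : Pool.Agent.H94.EP.Sl ε K κ v) {x : E3} (hx : rsq x < 1 / 2) (h0 : 0 < rsq x) :
    sV v x ^ 2 ≤ ε ^ 2 / rsq x ^ 2 := by
  have h1 := (V_bd h hx).1
  rw [le_div_iff₀ (by positivity), ← sq_abs (sV v x)]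
  have h2 : (rsq x * |sV v x|) ^ 2 ≤ ε ^ 2 := pow_le_pow_left₀ (by positivity) h1 2
  linarith

/-- The constant of the Fenchel condition. -/
noncomputable def CF : ℝ := 5 * ((∫ t, |deriv I_eta t|) + 5)

theorem CF_pos : 25 ≤ CF := by
  unfold CF
  have : 0 ≤ ∫ t, |deriv I_eta t| := integral_nonneg fun t => abs_nonneg _
  linarith

theorem Gb_fib {L a b : ℝ} (hL : 0 < L) {v : E3 → E3} (hv : Vs v) {q : ℝ × ℝ} (hq : sq2 q ≤ 1 / 16) (z : ℝ) :
    Gb L a b v (pt q z) = kb L a b z * GO v (pt q z) := by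
  unfold Gb kb
  rw [c2_one (by rw [rsq_pt]; exact hq)]
  show 1 ^ 1 * I_eta ((z - b) / L) * (ph L a z * GO v (pt q z)) = _
  ring

theorem Gb_Kc {ε K κ L a b c : ℝ} {v : E3 → E3} (h : Pool.Agent.H94.EP.Sl ε K κ v) (hL : 0 < L) {q : ℝ × ℝ} (h0 : 0 < sq2 q)
    (hq : sq2 q ≤ 1 / 16) (hc : CF * ph L a b * (ε ^ 2 / sq2 q ^ 2) ≤ 2 * c) : fib (Gb L a b v) q ∈ Kc c := by
  intro α β
  have hv := h.vs
  have e1 : ∫ z in α..β, (fib (Gb L a b v) q : ℝ → ℝ) z = ∫ z in α..β, kb L a b z * GO v (pt q z) := by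
    refine intervalIntegral.integral_congr_ae ?_
    filter_upwards [fib_coe (Gb_cs hL a b hv) q] with z hz _
    rw [hz, Gb_fib hL hv hq]
  rw [e1]
  refine (T1_by (k := kb L a b) (k' := kb' L a b) (g := fun z => sV v (pt q z) ^ 2) (fun z => kb_der L a b z)
    (fun z => V2_der hv q z) (kb'_cont a b)
    ((GO_smooth hv).continuous.comp (pt_cont' continuous_const continuous_id)) (k0 := 5 * ph L a b)
    (k1 := 5 * ph L a b * ((∫ t, |deriv I_eta t|) + 4)) (s := ε ^ 2 / sq2 q ^ 2) (fun z => kb_bd hL a b z) (fun z => ⟨sq_nonneg _, ?_⟩)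
    (kb'_int hL a b).1 (kb'_int hL a b).2 α β).trans ?_
  · have h1 := V2_bd h (x := pt q z) (by rw [rsq_pt]; linarith) (by rw [rsq_pt]; exact h0)
    rw [rsq_pt] at h1
    exact h1
  · refine le_trans (le_of_eq ?_) hc
    unfold CF
    ring

theorem Gb_norm {ε K κ L a b : ℝ} {v : E3 → E3} (h : Pool.Agent.H94.EP.Sl ε K κ v) (hL : 0 < L) {q : ℝ × ℝ} (h0 : 0 < sq2 q)
    (hq : sq2 q ≤ 1 / 16) : ‖fib (Gb L a b v) q‖ ^ 2 ≤
      20 * ph L a b * (ε ^ 2 / sq2 q ^ 2) * ∫ z, I_eta ((z - b) / L) ^ 2 * (ph L a z * Zz v (pt q z) ^ 2) := by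
  have hv := h.vs
  rw [fib_norm (Gb_cs hL a b hv), ← integral_const_mul]
  have hcs : HasCompactSupport (fun z => Gb L a b v (pt q z)) := ((Gb_cs hL a b hv).slice q).2
  have i1 : Integrable (fun z => Gb L a b v (pt q z) ^ 2) := by
    refine ((((Gb_cs hL a b hv).slice q).1).pow 2).integrable_of_hasCompactSupport (hcs.mono fun z hz h => hz ?_)
    have h' : Gb L a b v (pt q z) = 0 := h
    show Gb L a b v (pt q z) ^ 2 = 0
    rw [h']
    simp
  have hZc : Continuous (fun z => Zz v (pt q z)) :=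
    (vs_ri hv).2.2.2.1.sm.continuous.comp (pt_cont' continuous_const continuous_id)
  have hec : Continuous (fun z : ℝ => I_eta ((z - b) / L)) := I_eta_c.comp (by fun_prop)
  have hes : HasCompactSupport (fun z : ℝ => I_eta ((z - b) / L)) := by
    refine HasCompactSupport.intro (isCompact_Icc (a := b - 2 * L) (b := b + 2 * L)) fun z hz => ?_
    apply I_eta_zero
    have h5 : 2 * L < |z - b| := by
      by_contra h6
      rw [not_lt, abs_le] at h6
      exact hz ⟨by linarith [h6.1], by linarith [h6.2]⟩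
    have h6 : (2 * L) ^ 2 < |z - b| ^ 2 := pow_lt_pow_left₀ h5 (by positivity) (by norm_num)
    rw [sq_abs] at h6
    rw [div_pow, le_div_iff₀ (by positivity)]
    nlinarith [sq_nonneg L]
  have i2 : Integrable (fun z => I_eta ((z - b) / L) ^ 2 * (ph L a z * Zz v (pt q z) ^ 2)) := by
    refine ((hec.pow 2).mul ((ph_smooth L a).continuous.mul (hZc.pow 2))).integrable_of_hasCompactSupport
      (hes.mono fun z hz h => hz ?_)
    have h' : I_eta ((z - b) / L) = 0 := h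
    show I_eta ((z - b) / L) ^ 2 * (ph L a z * Zz v (pt q z) ^ 2) = 0
    rw [h']
    simp
  refine integral_mono i1 (i2.const_mul _) fun z => ?_
  show Gb L a b v (pt q z) ^ 2 ≤ 20 * ph L a b * (ε ^ 2 / sq2 q ^ 2) * (I_eta ((z - b) / L) ^ 2 * (ph L a z * Zz v (pt q z) ^ 2))
  rw [Gb_fib hL hv hq]
  have h1 := V2_bd h (x := pt q z) (by rw [rsq_pt]; linarith) (by rw [rsq_pt]; exact h0)
  rw [rsq_pt] at h1
  have h2 : kb L a b z ^ 2 ≤ 5 * ph L a b * (I_eta ((z - b) / L) ^ 2 * ph L a z) := by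
    have h3 := kb_bd hL a b z
    have h4 : kb L a b z ≤ 5 * ph L a b := h3.2
    have h5 := I_eta_nn ((z - b) / L)
    have h6 := ph_pos L a z
    rcases h5.eq_or_lt with h7 | h7
    · unfold kb
      rw [← h7]
      simp
    · have h8 : ph L a z ≤ 5 * ph L a b := by
        rcases le_or_gt ((z - b) ^ 2) (2 * L ^ 2) with h9 | h9
        · exact ph_box hL a h9
        · exfalso
          have : I_eta ((z - b) / L) = 0 := by
            apply I_eta_zero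
            rw [div_pow, le_div_iff₀ (by positivity)]
            nlinarith [sq_nonneg L]
          linarith
      unfold kb
      calc (I_eta ((z - b) / L) * ph L a z) ^ 2 = ph L a z * (I_eta ((z - b) / L) ^ 2 * ph L a z) := by ring
        _ ≤ 5 * ph L a b * (I_eta ((z - b) / L) ^ 2 * ph L a z) := mul_le_mul_of_nonneg_right h8 (by positivity)
  unfold GO
  calc (kb L a b z * (2 * sV v (pt q z) * Zz v (pt q z))) ^ 2
      = kb L a b z ^ 2 * (4 * sV v (pt q z) ^ 2 * Zz v (pt q z) ^ 2) := by ring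
    _ ≤ (5 * ph L a b * (I_eta ((z - b) / L) ^ 2 * ph L a z)) * (4 * (ε ^ 2 / sq2 q ^ 2) * Zz v (pt q z) ^ 2) := by
        have := ph_pos L a b
        have := ph_pos L a z
        gcongr
    _ = _ := by ring

/-- The algebra of the Fenchel inequality. -/
theorem T1_alg {τ p r r2 m m0 κ R ip P2 G2 X S : ℝ} (hτ : 0 < τ) (hp : 0 < p) (hr : 0 < r) (hr2 : 0 < r2) (hrr : r2 ≤ r)
    (hκ : 1 ≤ κ ^ 2 * r) (hm : 0 < m) (hm0 : 0 < m0) (hm1 : m0 ≤ 1 / 2) (hR : 0 ≤ R) (hS : 0 ≤ S)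
    (h1 : ip ≤ τ * p / r * (R / (1 - m0)) + G2 / (2 * (τ * p / r)) + √P2 * √G2) (hP0 : 0 ≤ P2) (hG0 : 0 ≤ G2)
    (h2 : P2 ≤ 2 * (2 * m * m0 / (r + r2)) * S) (h3 : G2 ≤ 20 * p * X / r ^ 2) :
    ip ≤ 8 * τ * p * (r / (r + r2) ^ 2 * R) + 20 / τ * (X / r) + 2 * τ * m * m0 * κ ^ 4 * p * S := by
  obtain ⟨t, ht⟩ : ∃ t, t = τ * p / r := ⟨_, rfl⟩
  have ht0 : 0 < t := by rw [ht]; positivity
  rw [← ht] at h1
  have a1 : t * (R / (1 - m0)) ≤ 8 * τ * p * (r / (r + r2) ^ 2 * R) := by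
    have b1 : R / (1 - m0) ≤ 2 * R := by
      rw [div_le_iff₀ (by linarith)]
      nlinarith
    have b2 : 1 / r ≤ 4 * (r / (r + r2) ^ 2) := by
      rw [← mul_div_assoc, div_le_div_iff₀ hr (by positivity)]
      nlinarith
    calc t * (R / (1 - m0)) ≤ t * (2 * R) := mul_le_mul_of_nonneg_left b1 ht0.le
      _ = 2 * τ * p * (1 / r) * R := by rw [ht]; ring
      _ ≤ 2 * τ * p * (4 * (r / (r + r2) ^ 2)) * R := by gcongr
      _ = _ := by ring
  have a2 : √P2 * √G2 ≤ t * P2 / 2 + G2 / (2 * t) := by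
    have b1 : √P2 * √G2 = √(t * P2) * √(G2 / t) := by
      rw [← Real.sqrt_mul hP0, ← Real.sqrt_mul (by positivity)]
      congr 1
      field_simp
    have b2 := Real.sq_sqrt (show 0 ≤ t * P2 by positivity)
    have b3 := Real.sq_sqrt (show 0 ≤ G2 / t by positivity)
    have b4 : G2 / (2 * t) = G2 / t / 2 := by field_simp
    rw [b1, b4]
    nlinarith [sq_nonneg (√(t * P2) - √(G2 / t))]
  have a3 : G2 / (2 * t) + G2 / (2 * t) ≤ 20 / τ * (X / r) := by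
    have b1 : G2 / (2 * t) + G2 / (2 * t) = G2 / t := by field_simp; ring
    rw [b1, ht]
    calc G2 / (τ * p / r) ≤ (20 * p * X / r ^ 2) / (τ * p / r) := by gcongr
      _ = 20 / τ * (X / r) := by field_simp
  have a4 : t * P2 / 2 ≤ 2 * τ * m * m0 * κ ^ 4 * p * S := by
    have b1 : 1 / r ^ 2 ≤ κ ^ 4 := by
      rw [div_le_iff₀ (by positivity)]
      nlinarith
    calc t * P2 / 2 ≤ t * (2 * (2 * m * m0 / (r + r2)) * S) / 2 := by gcongr
      _ ≤ t * (2 * (2 * m * m0 / r) * S) / 2 := by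
          gcongr
          linarith
      _ = 2 * τ * m * m0 * p * S * (1 / r ^ 2) := by rw [ht]; field_simp
      _ ≤ 2 * τ * m * m0 * p * S * κ ^ 4 := by gcongr
      _ = _ := by ring
  linarith

theorem T1_fib {ε K κ L a b m m0 r2 τ : ℝ} {v : E3 → E3} (h : Pool.Agent.H94.EP.Sl ε K κ v) (hL : 1 ≤ L) (hm : 0 < m)
    (hr2 : 0 < r2) (hm0 : 0 < m0) (hm1 : m0 ≤ 1 / 2) (hτ : 0 < τ) (hcond : CF * ε ^ 2 ≤ 2 * τ * m) {q : ℝ × ℝ}
    (hq1 : 1 ≤ κ ^ 2 * sq2 q) (hq2 : r2 ≤ sq2 q) (hq : sq2 q ≤ 1 / 16) :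
    ⟪fib (Fb L b v) q, fib (Gb L a b v) q⟫_ℝ ≤ 8 * τ * ph L a b * gI m r2 m0 (Fb L b v) q +
      20 * ε ^ 2 / τ * (1 / sq2 q * ∫ z, I_eta ((z - b) / L) ^ 2 * (ph L a z * Zz v (pt q z) ^ 2)) +
      2 * τ * m * m0 * κ ^ 4 * ph L a b * (4 * L + ∫ z, pd 2 (Fb L b v) (pt q z) ^ 2) := by
  have hL0 : 0 < L := by linarith
  have hv := h.vs
  have hr : 0 < sq2 q := by linarith
  have hp := ph_pos L a b
  have hc1 := cmu_pos hm hr2 one_pos q
  have hc0 := cmu_pos hm hr2 hm0 q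
  have hcc : cmu m r2 m0 q = m0 * cmu m r2 1 q := by
    unfold cmu
    ring
  have hlt : cmu m r2 m0 q < cmu m r2 1 q := by
    rw [hcc]
    nlinarith
  have hdiv : cmu m r2 m0 q / cmu m r2 1 q = m0 := by
    rw [hcc]
    field_simp
  have ht : 0 < τ * ph L a b / sq2 q := by positivity
  have hK : fib (Gb L a b v) q ∈ Kc (τ * ph L a b / sq2 q * cmu m r2 1 q) := by
    refine Gb_Kc h hL0 hr hq ?_
    have e1 : 2 * (τ * ph L a b / sq2 q * cmu m r2 1 q) = 4 * τ * m * ph L a b / (sq2 q * (sq2 q + r2)) := by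
      unfold cmu
      field_simp
      ring
    rw [e1]
    have e2 : 4 * τ * m * ph L a b / (sq2 q * (2 * sq2 q)) ≤ 4 * τ * m * ph L a b / (sq2 q * (sq2 q + r2)) := by
      apply div_le_div_of_nonneg_left (by positivity) (by positivity)
      exact mul_le_mul_of_nonneg_left (by linarith) hr.le
    refine le_trans ?_ e2
    have e3 : 4 * τ * m * ph L a b / (sq2 q * (2 * sq2 q)) = ph L a b * (2 * τ * m) / sq2 q ^ 2 := by
      field_simp
      ring
    rw [e3, le_div_iff₀ (by positivity)]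
    have e4 : CF * ph L a b * (ε ^ 2 / sq2 q ^ 2) * sq2 q ^ 2 = ph L a b * (CF * ε ^ 2) := by
      field_simp
    rw [e4]
    exact mul_le_mul_of_nonneg_left hcond hp.le
  have hF := ec_fenchel hc0 hlt ht (fib (Fb L b v) q) hK
  rw [hdiv] at hF
  have hP := (Pc_tv hc0.le (Fb_cs hL0 b hv) q).trans (mul_le_mul_of_nonneg_left (Fb_tv hL hv q) (by positivity))
  have hG := Gb_norm (a := a) (b := b) h hL0 hr hq
  have hS : 0 ≤ 4 * L + ∫ z, pd 2 (Fb L b v) (pt q z) ^ 2 := by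
    have : 0 ≤ ∫ z, pd 2 (Fb L b v) (pt q z) ^ 2 := integral_nonneg fun z => sq_nonneg _
    linarith
  have hR : 0 ≤ ec (cmu m r2 1 q) (fib (Fb L b v) q) - ec (cmu m r2 m0 q) (fib (Fb L b v) q) := by
    have := ec_mono hc0.le hlt.le (fib (Fb L b v) q)
    linarith
  have hip : ⟪Pc (cmu m r2 m0 q) (fib (Fb L b v) q), fib (Gb L a b v) q⟫_ℝ ≤
      √(‖Pc (cmu m r2 m0 q) (fib (Fb L b v) q)‖ ^ 2) * √(‖fib (Gb L a b v) q‖ ^ 2) := by
    rw [Real.sqrt_sq (norm_nonneg _), Real.sqrt_sq (norm_nonneg _)]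
    exact real_inner_le_norm _ _
  have hmain := T1_alg (κ := κ) (m := m) (m0 := m0) (p := ph L a b) (r := sq2 q) (r2 := r2) (τ := τ)
    (R := ec (cmu m r2 1 q) (fib (Fb L b v) q) - ec (cmu m r2 m0 q) (fib (Fb L b v) q))
    (ip := ⟪fib (Fb L b v) q, fib (Gb L a b v) q⟫_ℝ) (P2 := ‖Pc (cmu m r2 m0 q) (fib (Fb L b v) q)‖ ^ 2)
    (G2 := ‖fib (Gb L a b v) q‖ ^ 2)
    (X := ε ^ 2 * ∫ z, I_eta ((z - b) / L) ^ 2 * (ph L a z * Zz v (pt q z) ^ 2))
    (S := 4 * L + ∫ z, pd 2 (Fb L b v) (pt q z) ^ 2) hτ hp hr hr2 hq2 hq1 hm hm0 hm1 hR hS (by linarith) (sq_nonneg _)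
    (sq_nonneg _) hP (hG.trans (le_of_eq (by ring)))
  refine hmain.trans (le_of_eq ?_)
  unfold gI
  ring

end Pool.Agent.H90.TQ
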