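import Pool.Agent.H90.TQ.Mb

/-! The source term in the scale-free zone, one fibre. -/

set_option autoImplicit false

open Set Filter Topology MeasureTheory
open scoped ContDiff InnerProductSpace

namespace Pool.Agent.H90.TQ

open Pool.Agent.H16 Pool.Agent.H72.CC Pool.Agent.H94.EP Pool.Agent.H87.EP Pool.Agent.H42.TQ Pool.Agent.H90.EP
open Pool.Agent.H87.NS hiding c1
open Pool.Agent.H16.TU hiding Sl

/-! ### Bounds of the vertical derivative of `Fb` -/

/-- A wider profile. -/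
noncomputable def w3 (t : ℝ) : ℝ := Real.smoothTransition (3 - t ^ 2)

theorem w3_pr : Pr w3 := by
  refine ⟨?_, fun _ => Real.smoothTransition.nonneg _, fun _ => Real.smoothTransition.le_one _, fun t h =>
    Real.smoothTransition.zero_of_nonpos (by linarith)⟩
  unfold w3
  exact Real.smoothTransition.continuous.comp (by fun_prop)

theorem w3_one {t : ℝ} (h : t ^ 2 ≤ 2) : w3 t = 1 := Real.smoothTransition.one_of_one_le (by linarith)

theorem wS_w3 (t : ℝ) : wS t ≤ w3 t := by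
  rcases le_or_gt (t ^ 2) 2 with h | h
  · rw [w3_one h]
    exact wS_pr.le t
  · rw [wS_zero h.le]
    exact w3_pr.nn t

theorem wS_deriv : ∃ D : ℝ, 1 ≤ D ∧ ∀ t, |deriv wS t| ≤ D * w3 t := by
  have hcs : HasCompactSupport wS := by
    refine HasCompactSupport.intro (isCompact_Icc (a := (-2 : ℝ)) (b := 2)) fun t ht => ?_
    apply wS_zero
    by_contra h
    rw [not_le] at h
    apply ht
    constructor <;> nlinarith
  obtain ⟨D, hD⟩ := (wS_smooth.continuous_deriv (by simp)).bounded_above_of_compact_support hcs.deriv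
  refine ⟨max D 1, le_max_right _ _, fun t => ?_⟩
  rcases le_or_gt (t ^ 2) 2 with h | h
  · rw [w3_one h, mul_one]
    have := hD t
    rw [Real.norm_eq_abs] at this
    exact this.trans (le_max_left _ _)
  · have h1 : wS =ᶠ[𝓝 t] fun _ => 0 := by
      have h2 : ∀ᶠ s : ℝ in 𝓝 t, 2 < s ^ 2 := (continuousAt_const (y := (2 : ℝ))).eventually_lt (by fun_prop) h
      filter_upwards [h2] with s hs
      exact wS_zero hs.le
    rw [h1.deriv_eq]
    simp only [deriv_const', abs_zero]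
    have := w3_pr.nn t
    positivity

theorem c2_pd2 (x : E3) : pd 2 c2 x = 0 := by
  have h1 : HasDerivAt (fun z => c2 (pt (x 0, x 1) z)) (pd 2 c2 (pt (x 0, x 1) (x 2))) (x 2) := A5_der c2_smooth _ _
  have h2 : (fun z => c2 (pt (x 0, x 1) z)) = fun _ => c2 x := by
    funext z
    rfl
  rw [h2, pt_eta] at h1
  exact h1.unique (hasDerivAt_const _ _)

theorem Fb_pd2 {L b : ℝ} {v : E3 → E3} (hv : Vs v) (x : E3) :
    pd 2 (Fb L b v) x = c2 x ^ 2 * (deriv wS ((x 2 - b) / L) / L) * sO v x + cb L b x * pd 2 (sO v) x := by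
  have hO := (vs_ri hv).2.2.1.sm
  have hF : ContDiff ℝ ∞ (Fb L b v) := (cb_smooth L b).mul hO
  have h1 := A5_der hF (x 0, x 1) (x 2)
  have h2 := A5_der hO (x 0, x 1) (x 2)
  have h3 : HasDerivAt (fun z : ℝ => c2 x ^ 2 * wS ((z - b) / L)) (c2 x ^ 2 * (deriv wS ((x 2 - b) / L) * (1 / L))) (x 2) := by
    have h4 : HasDerivAt wS (deriv wS ((x 2 - b) / L)) ((x 2 - b) / L) :=
      (wS_smooth.differentiable (by simp) _).hasDerivAt
    have h5 : HasDerivAt (fun z : ℝ => (z - b) / L) (1 / L) (x 2) := ((hasDerivAt_id (x 2)).sub_const b).div_const L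
    exact (h4.comp (x 2) h5).const_mul _
  have h6 : (fun z => Fb L b v (pt (x 0, x 1) z)) = fun z => (c2 x ^ 2 * wS ((z - b) / L)) * sO v (pt (x 0, x 1) z) := by
    funext z
    rfl
  rw [pt_eta] at h1 h2
  rw [h6] at h1
  have h7 := h1.unique (h3.mul h2)
  rw [h7, pt_eta, cb_eq]
  ring

theorem Fb_pd2_sq : ∃ D : ℝ, 1 ≤ D ∧ ∀ (L b : ℝ) (v : E3 → E3) (x : E3), 1 ≤ L → Vs v →
    pd 2 (Fb L b v) x ^ 2 ≤ D * (w3 ((x 2 - b) / L) * (c2 x * (sO v x ^ 2 + pd 2 (sO v) x ^ 2))) := by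
  obtain ⟨D, hD1, hD⟩ := wS_deriv
  refine ⟨2 * D ^ 2, by nlinarith, fun L b v x hL hv => ?_⟩
  rw [Fb_pd2 hv, cb_eq]
  obtain ⟨c0, c1'⟩ := c2_01 x
  have h3 := w3_pr.nn ((x 2 - b) / L)
  have h3' := w3_pr.le ((x 2 - b) / L)
  have hL0 : 0 < L := by linarith
  obtain ⟨A, hA⟩ : ∃ A, A = deriv wS ((x 2 - b) / L) / L := ⟨_, rfl⟩
  have hA1 : |A| ≤ D * w3 ((x 2 - b) / L) := by
    rw [hA, abs_div, abs_of_pos hL0]
    exact (div_le_self (abs_nonneg _) hL).trans (hD _)
  have hA2 : A ^ 2 ≤ D ^ 2 * w3 ((x 2 - b) / L) := by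
    rw [← sq_abs A]
    calc |A| ^ 2 ≤ (D * w3 ((x 2 - b) / L)) ^ 2 := pow_le_pow_left₀ (abs_nonneg _) hA1 2
      _ = D ^ 2 * (w3 ((x 2 - b) / L) * w3 ((x 2 - b) / L)) := by ring
      _ ≤ D ^ 2 * (w3 ((x 2 - b) / L) * 1) := by gcongr
      _ = _ := by ring
  have hB0 := wS_pr.nn ((x 2 - b) / L)
  have hB1 := wS_pr.le ((x 2 - b) / L)
  have hB2 := wS_w3 ((x 2 - b) / L)
  have hB3 : wS ((x 2 - b) / L) ^ 2 ≤ D ^ 2 * w3 ((x 2 - b) / L) := by
    have : wS ((x 2 - b) / L) ^ 2 ≤ w3 ((x 2 - b) / L) := by nlinarith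
    have hD2 : 1 ≤ D ^ 2 := by nlinarith
    nlinarith
  have hc4 : (c2 x ^ 2) ^ 2 ≤ c2 x := by
    have e1 : (c2 x ^ 2) ^ 2 = c2 x * c2 x ^ 3 := by ring
    rw [e1]
    exact mul_le_of_le_one_right c0 (pow_le_one₀ c0 c1')
  rw [← hA]
  calc (c2 x ^ 2 * A * sO v x + c2 x ^ 2 * wS ((x 2 - b) / L) * pd 2 (sO v) x) ^ 2
      ≤ 2 * ((c2 x ^ 2) ^ 2 * (A ^ 2 * sO v x ^ 2)) + 2 * ((c2 x ^ 2) ^ 2 * (wS ((x 2 - b) / L) ^ 2 * pd 2 (sO v) x ^ 2)) := by
        nlinarith [sq_nonneg (c2 x ^ 2 * A * sO v x - c2 x ^ 2 * wS ((x 2 - b) / L) * pd 2 (sO v) x)]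
    _ ≤ 2 * (c2 x * (D ^ 2 * w3 ((x 2 - b) / L) * sO v x ^ 2)) + 2 * (c2 x * (D ^ 2 * w3 ((x 2 - b) / L) * pd 2 (sO v) x ^ 2)) := by
        gcongr
    _ = _ := by ring

/-- The total variation of a fibre. -/
theorem Fb_tv {L b : ℝ} (hL : 1 ≤ L) {v : E3 → E3} (hv : Vs v) (q : ℝ × ℝ) :
    ∫ z, |pd 2 (Fb L b v) (pt q z)| ≤ 4 * L + ∫ z, pd 2 (Fb L b v) (pt q z) ^ 2 := by
  have hL0 : 0 < L := by linarith
  have hc := (Fb_cs hL0 b hv).pd 2
  obtain ⟨h1, h2⟩ := hc.slice q
  have i1 : Integrable (fun z => |pd 2 (Fb L b v) (pt q z)|) := (h1.integrable_of_hasCompactSupport h2).abs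
  have i2 : Integrable (fun z => pd 2 (Fb L b v) (pt q z) ^ 2) := by
    refine (h1.pow 2).integrable_of_hasCompactSupport (h2.mono fun z hz h => hz ?_)
    have h' : pd 2 (Fb L b v) (pt q z) = 0 := h
    show pd 2 (Fb L b v) (pt q z) ^ 2 = 0
    rw [h']
    simp
  have i3 : Integrable ((Icc (b - 2 * L) (b + 2 * L)).indicator (fun _ : ℝ => (1 : ℝ))) := by
    rw [integrable_indicator_iff measurableSet_Icc]
    exact integrableOn_const (by simp)
  have e3 : ∫ z, (Icc (b - 2 * L) (b + 2 * L)).indicator (fun _ : ℝ => (1 : ℝ)) z = 4 * L := by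
    rw [integral_indicator measurableSet_Icc, setIntegral_const, smul_eq_mul, mul_one,
      Real.volume_real_Icc_of_le (by linarith)]
    ring
  rw [← e3, ← integral_add i3 i2]
  refine integral_mono i1 (i3.add i2) fun z => ?_
  show |pd 2 (Fb L b v) (pt q z)| ≤ (Icc (b - 2 * L) (b + 2 * L)).indicator (fun _ : ℝ => (1 : ℝ)) z + pd 2 (Fb L b v) (pt q z) ^ 2
  by_cases hz : z ∈ Icc (b - 2 * L) (b + 2 * L)
  · rw [indicator_of_mem hz, ← sq_abs (pd 2 (Fb L b v) (pt q z))]
    nlinarith [abs_nonneg (pd 2 (Fb L b v) (pt q z)), sq_nonneg (|pd 2 (Fb L b v) (pt q z)| - 1)]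
  · rw [indicator_of_notMem hz]
    obtain ⟨D, hD1, hD⟩ := Fb_pd2_sq
    have h3 := hD L b v (pt q z) hL hv
    have h4 : w3 (((pt q z) 2 - b) / L) = 0 := by
      apply w3_pr.zr
      show 3 < ((z - b) / L) ^ 2
      rw [div_pow, lt_div_iff₀ (by positivity)]
      have h5 : 2 * L < |z - b| := by
        by_contra h6
        rw [not_lt, abs_le] at h6
        exact hz ⟨by linarith [h6.1], by linarith [h6.2]⟩
      have h6 : (2 * L) ^ 2 < |z - b| ^ 2 := pow_lt_pow_left₀ h5 (by positivity) (by norm_num)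
      rw [sq_abs] at h6
      nlinarith
    rw [h4] at h3
    simp only [zero_mul, mul_zero] at h3
    have h5 : pd 2 (Fb L b v) (pt q z) = 0 := by
      have := sq_nonneg (pd 2 (Fb L b v) (pt q z))
      exact pow_eq_zero_iff (two_ne_zero) |>.1 (le_antisymm h3 this)
    rw [h5]
    simp

/-! ### The source -/

theorem T1_by {k k' g g' : ℝ → ℝ} (hk : ∀ z, HasDerivAt k (k' z) z) (hg : ∀ z, HasDerivAt g (g' z) z) (hk' : Continuous k')
    (hg' : Continuous g') {k0 k1 s : ℝ} (h0 : ∀ z, 0 ≤ k z ∧ k z ≤ k0) (h1 : ∀ z, 0 ≤ g z ∧ g z ≤ s) (hi : Integrable k')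
    (h2 : ∫ z, |k' z| ≤ k1) (α β : ℝ) : |∫ z in α..β, k z * g' z| ≤ (k0 + k1) * s := by
  have hs : 0 ≤ s := (h1 0).1.trans (h1 0).2
  have e1 := intervalIntegral.integral_mul_deriv_eq_deriv_mul (a := α) (b := β) (fun z _ => hk z) (fun z _ => hg z)
    (hk'.intervalIntegrable _ _) (hg'.intervalIntegrable _ _)
  rw [e1]
  have b1 : |k β * g β - k α * g α| ≤ k0 * s := by
    have p1 := mul_nonneg (h0 β).1 (h1 β).1
    have p2 := mul_nonneg (h0 α).1 (h1 α).1
    have p3 : k β * g β ≤ k0 * s := mul_le_mul (h0 β).2 (h1 β).2 (h1 β).1 ((h0 β).1.trans (h0 β).2)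
    have p4 : k α * g α ≤ k0 * s := mul_le_mul (h0 α).2 (h1 α).2 (h1 α).1 ((h0 α).1.trans (h0 α).2)
    rw [abs_le]
    constructor <;> linarith
  have b2 : |∫ z in α..β, k' z * g z| ≤ k1 * s := by
    have c1 : |∫ z in α..β, k' z * g z| ≤ ∫ z in uIoc α β, ‖k' z * g z‖ := by
      rw [← Real.norm_eq_abs]
      exact intervalIntegral.norm_integral_le_integral_norm_uIoc
    have gm : Continuous g := continuous_iff_continuousAt.2 fun z => (hg z).continuousAt
    have c2 : Integrable (fun z => |k' z| * s) := hi.abs.mul_const s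
    calc |∫ z in α..β, k' z * g z| ≤ ∫ z in uIoc α β, ‖k' z * g z‖ := c1
      _ ≤ ∫ z in uIoc α β, |k' z| * s := by
          refine integral_mono_of_nonneg (ae_of_all _ fun z => norm_nonneg _) c2.integrableOn (ae_of_all _ fun z => ?_)
          show ‖k' z * g z‖ ≤ |k' z| * s
          rw [norm_mul, Real.norm_eq_abs, Real.norm_of_nonneg (h1 z).1]
          exact mul_le_mul_of_nonneg_left (h1 z).2 (abs_nonneg _)
      _ ≤ ∫ z, |k' z| * s := setIntegral_le_integral c2 (ae_of_all _ fun z => by positivity)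
      _ = (∫ z, |k' z|) * s := integral_mul_const _ _
      _ ≤ k1 * s := mul_le_mul_of_nonneg_right h2 hs
  calc |k β * g β - k α * g α - ∫ z in α..β, k' z * g z| ≤ |k β * g β - k α * g α| + |∫ z in α..β, k' z * g z| := abs_sub _ _
    _ ≤ (k0 + k1) * s := by linarith

theorem eta_pr : Pr I_eta := ⟨I_eta_c, I_eta_nn, I_eta_le, fun _ h => I_eta_zero (by linarith)⟩

theorem eta_one : 1 ≤ ∫ t, I_eta t := by
  have h1 : ∫ t in Icc (-(1 / 2) : ℝ) (1 / 2), (1 : ℝ) = 1 := by
    rw [setIntegral_const, smul_eq_mul, mul_one, Real.volume_real_Icc_of_le (by norm_num)]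
    norm_num
  have hi := eta_pr.int.1
  calc (1 : ℝ) = ∫ t in Icc (-(1 / 2) : ℝ) (1 / 2), (1 : ℝ) := h1.symm
    _ ≤ ∫ t in Icc (-(1 / 2) : ℝ) (1 / 2), I_eta t := by
        refine setIntegral_mono_on (integrableOn_const (by simp)) hi.integrableOn measurableSet_Icc fun t ht => ?_
        rw [I_eta_one (by nlinarith [ht.1, ht.2])]
    _ ≤ ∫ t, I_eta t := setIntegral_le_integral hi (ae_of_all _ I_eta_nn)

/-- The localised weight. -/
noncomputable def kb (L a b z : ℝ) : ℝ := I_eta ((z - b) / L) * ph L a z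

/-- Its derivative. -/
noncomputable def kb' (L a b z : ℝ) : ℝ := deriv I_eta ((z - b) / L) / L * ph L a z + I_eta ((z - b) / L) * deriv (ph L a) z

theorem kb_der (L a b z : ℝ) : HasDerivAt (kb L a b) (kb' L a b z) z := by
  have h4 : HasDerivAt I_eta (deriv I_eta ((z - b) / L)) ((z - b) / L) :=
    (I_eta_smooth.differentiable (by simp) _).hasDerivAt
  have h5 : HasDerivAt (fun z : ℝ => (z - b) / L) (1 / L) z := ((hasDerivAt_id z).sub_const b).div_const L
  have h6 : HasDerivAt (ph L a) (deriv (ph L a) z) z := ((ph_smooth L a).differentiable (by simp) _).hasDerivAt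
  have h7 := (h4.comp z h5).mul h6
  have h8 : deriv I_eta ((z - b) / L) * (1 / L) * ph L a z + (I_eta ∘ fun z => (z - b) / L) z * deriv (ph L a) z =
      kb' L a b z := by
    unfold kb'
    simp only [Function.comp_apply]
    ring
  rw [h8] at h7
  exact h7

theorem kb'_cont {L : ℝ} (a b : ℝ) : Continuous (kb' L a b) := by
  unfold kb'
  have h1 : Continuous (fun z : ℝ => (z - b) / L) := by fun_prop
  exact (((I_deta_c.comp h1).div_const L).mul (ph_smooth L a).continuous).add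
    ((I_eta_c.comp h1).mul ((ph_smooth L a).continuous_deriv (by simp)))

theorem deta_zero {t : ℝ} (h : 2 < t ^ 2) : deriv I_eta t = 0 := by
  have h1 : I_eta =ᶠ[𝓝 t] fun _ => 0 := by
    have h2 : ∀ᶠ s : ℝ in 𝓝 t, 2 < s ^ 2 := (continuousAt_const (y := (2 : ℝ))).eventually_lt (by fun_prop) h
    filter_upwards [h2] with s hs
    exact I_eta_zero (by linarith)
  rw [h1.deriv_eq]
  simp

theorem kb_bd {L : ℝ} (hL : 0 < L) (a b z : ℝ) : 0 ≤ kb L a b z ∧ kb L a b z ≤ 5 * ph L a b := by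
  unfold kb
  have h1 := I_eta_nn ((z - b) / L)
  have h2 := I_eta_le ((z - b) / L)
  have h3 := ph_pos L a z
  have h4 := ph_pos L a b
  refine ⟨by positivity, ?_⟩
  rcases le_or_gt ((z - b) ^ 2) (2 * L ^ 2) with h | h
  · have := ph_box hL a h
    nlinarith
  · have h5 : I_eta ((z - b) / L) = 0 := by
      apply I_eta_zero
      rw [div_pow, le_div_iff₀ (by positivity)]
      nlinarith [sq_nonneg L]
    rw [h5, zero_mul]
    positivity

theorem kb'_int {L : ℝ} (hL : 0 < L) (a b : ℝ) : Integrable (kb' L a b) ∧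
    ∫ z, |kb' L a b z| ≤ 5 * ph L a b * ((∫ t, |deriv I_eta t|) + 4) := by
  have hd : Integrable (fun t => |deriv I_eta t|) := (I_deta_c.integrable_of_hasCompactSupport I_eta_cs.deriv).abs
  have he := eta_pr.int
  have g1 : Integrable (fun z : ℝ => |deriv I_eta ((z - b) / L)| / L) := by
    have := (hd.comp_div hL.ne').comp_sub_right b
    exact this.div_const L
  have g2 : Integrable (fun z : ℝ => I_eta ((z - b) / L) / L) := by
    have := (he.1.comp_div hL.ne').comp_sub_right b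
    exact this.div_const L
  have e1 : ∫ z : ℝ, |deriv I_eta ((z - b) / L)| / L = ∫ t, |deriv I_eta t| := by
    rw [integral_div, integral_sub_right_eq_self (fun z => |deriv I_eta (z / L)|) b,
      Measure.integral_comp_div (fun t => |deriv I_eta t|) L, smul_eq_mul, abs_of_pos hL]
    field_simp
  have e2 : ∫ z : ℝ, I_eta ((z - b) / L) / L = ∫ t, I_eta t := by
    rw [integral_div, integral_sub_right_eq_self (fun z => I_eta (z / L)) b,
      Measure.integral_comp_div (fun t => I_eta t) L, smul_eq_mul, abs_of_pos hL]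
    field_simp
  have hpb := ph_pos L a b
  have hb : ∀ z, |kb' L a b z| ≤ 5 * ph L a b * (|deriv I_eta ((z - b) / L)| / L + I_eta ((z - b) / L) / L) := by
    intro z
    have n1 := abs_nonneg (deriv I_eta ((z - b) / L))
    have n2 := I_eta_nn ((z - b) / L)
    rcases le_or_gt ((z - b) ^ 2) (2 * L ^ 2) with h | h
    · have h1 := ph_box hL a h
      have h2 := ph_deriv hL a z
      have h3 := ph_pos L a z
      unfold kb'
      calc |deriv I_eta ((z - b) / L) / L * ph L a z + I_eta ((z - b) / L) * deriv (ph L a) z|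
          ≤ |deriv I_eta ((z - b) / L) / L * ph L a z| + |I_eta ((z - b) / L) * deriv (ph L a) z| := abs_add_le _ _
        _ = |deriv I_eta ((z - b) / L)| / L * ph L a z + I_eta ((z - b) / L) * |deriv (ph L a) z| := by
            rw [abs_mul, abs_mul, abs_div, abs_of_pos hL, abs_of_pos h3, abs_of_nonneg n2]
        _ ≤ |deriv I_eta ((z - b) / L)| / L * (5 * ph L a b) + I_eta ((z - b) / L) * (5 * ph L a b / L) := by
            have h4 : |deriv (ph L a) z| ≤ 5 * ph L a b / L :=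
              h2.trans (div_le_div_of_nonneg_right h1 hL.le)
            exact add_le_add (mul_le_mul_of_nonneg_left h1 (by positivity)) (mul_le_mul_of_nonneg_left h4 n2)
        _ = _ := by ring
    · have h5 : I_eta ((z - b) / L) = 0 := by
        apply I_eta_zero
        rw [div_pow, le_div_iff₀ (by positivity)]
        nlinarith [sq_nonneg L]
      have h6 : deriv I_eta ((z - b) / L) = 0 := by
        apply deta_zero
        rw [div_pow, lt_div_iff₀ (by positivity)]
        exact h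
      unfold kb'
      rw [h5, h6]
      simp
  have hi : Integrable (kb' L a b) := by
    refine (((g1.add g2).const_mul (5 * ph L a b))).mono' (kb'_cont a b).aestronglyMeasurable (ae_of_all _ fun z => ?_)
    rw [Real.norm_eq_abs]
    exact hb z
  refine ⟨hi, ?_⟩
  calc ∫ z, |kb' L a b z| ≤ ∫ z : ℝ, 5 * ph L a b * (|deriv I_eta ((z - b) / L)| / L + I_eta ((z - b) / L) / L) :=
        integral_mono hi.abs ((g1.add g2).const_mul _) hb
    _ = 5 * ph L a b * ((∫ t, |deriv I_eta t|) + ∫ t, I_eta t) := by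
        rw [integral_const_mul, integral_add g1 g2, e1, e2]
    _ ≤ _ := by
        apply mul_le_mul_of_nonneg_left _ (by positivity)
        linarith [he.2]

end Pool.Agent.H90.TQ
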