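import Pool.Agent.H90.TQ.Bx

/-! The regions away from the scale-free zone. -/

set_option autoImplicit false

open Set Filter Topology MeasureTheory
open scoped ContDiff

namespace Pool.Agent.H90.TQ

open Pool.Agent.H16 Pool.Agent.H72.CC Pool.Agent.H94.EP Pool.Agent.H87.EP Pool.Agent.H42.TQ Pool.Agent.H90.EP
open Pool.Agent.H87.NS hiding c1
open Pool.Agent.H16.TU hiding Sl

/-- The kernel of the source. -/
noncomputable def kN (κ : ℝ) (x : E3) : ℝ := min 1 (κ ^ 2 * rsq x) / rsq x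

/-- The zone where the localised functions live. -/
def Bo : Set E3 := {x : E3 | rsq x ≤ 1 / 8}

theorem Bo_meas : MeasurableSet Bo := (isClosed_le TA_rsq_cont continuous_const).measurableSet

theorem kN_nn {κ : ℝ} (x : E3) : 0 ≤ kN κ x := by
  unfold kN
  have := TA_rsq_nn x
  positivity

theorem kN_le {κ : ℝ} (x : E3) : kN κ x ≤ κ ^ 2 := by
  unfold kN
  rcases (TA_rsq_nn x).eq_or_lt with h | h
  · rw [← h, div_zero]
    positivity
  · rw [div_le_iff₀ h]
    exact min_le_right _ _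

theorem kN_meas (κ : ℝ) : Measurable (kN κ) := by
  unfold kN
  exact ((measurable_const.min (measurable_const.mul TA_rsq_cont.measurable))).div TA_rsq_cont.measurable

theorem zd_pt {κ L a : ℝ} (hκ : 1 ≤ κ) {v : E3 → E3} (hv : Vs v) (x : E3) :
    Bo.indicator (fun x => ph L a (x 2) * (kN κ x * Zz v x ^ 2)) x ≤
      (TA_Md κ).indicator (fun x => ph L a (x 2) * Zz v x ^ 2 / rsq x) x
      + 6 * (A1 L a x * ck κ (1 / κ) x * Zz v x ^ 2)
      + 256 * ({x : E3 | rsq x < 1 / 2}).indicator (fun x => ph L a (x 2) * gv v x) x := by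
  have hk0 : 0 < κ := by linarith
  have hδ : 0 < 1 / κ := by positivity
  have hp := ph_pos L a (x 2)
  have hr := TA_rsq_nn x
  obtain ⟨hA0, hA1⟩ := A1_nn L a x
  have hck := (ck_f hκ hδ).2 x
  have t1 : 0 ≤ (TA_Md κ).indicator (fun x => ph L a (x 2) * Zz v x ^ 2 / rsq x) x := by
    apply indicator_nonneg
    intro y _
    have h1 := ph_pos L a (y 2)
    have h2 := TA_rsq_nn y
    positivity
  have t2 : 0 ≤ 6 * (A1 L a x * ck κ (1 / κ) x * Zz v x ^ 2) := by positivity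
  have t3 : 0 ≤ 256 * ({x : E3 | rsq x < 1 / 2}).indicator (fun x => ph L a (x 2) * gv v x) x := by
    apply mul_nonneg (by norm_num)
    apply indicator_nonneg
    intro y _
    exact mul_nonneg (ph_pos L a (y 2)).le (gv_nn v y)
  by_cases hx : x ∈ Bo
  · rw [indicator_of_mem hx]
    have hx8 : rsq x ≤ 1 / 8 := hx
    rcases lt_or_ge (κ * rad x) 1 with hc | hc
    · have h1 : κ ^ 2 * rsq x < 1 := by
        rw [← rad_sq' x]
        have := rad_nonneg x
        nlinarith only [mul_nonneg hk0.le this, hk0, hc, this]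
      have h2 : κ ^ 2 ≤ 6 * ck κ (1 / κ) x := by
        refine ck_lb hκ hδ (by positivity) hc.le ?_ ?_
        · nlinarith only [hκ, hc]
        · apply le_of_eq
          field_simp
      have h3 : A1 L a x = ph L a (x 2) := A1_one L a (by linarith)
      have h4 : ph L a (x 2) * (kN κ x * Zz v x ^ 2) ≤ ph L a (x 2) * (6 * ck κ (1 / κ) x * Zz v x ^ 2) :=
        mul_le_mul_of_nonneg_left (mul_le_mul_of_nonneg_right ((kN_le x).trans h2) (sq_nonneg _)) hp.le
      rw [h3] at t2 ⊢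
      linarith only [t1, t3, h4]
    · have hr0 : 0 < rsq x := by
        rw [← rad_sq' x]
        have : 0 < rad x := by
          by_contra h
          have h2 : rad x = 0 := le_antisymm (not_lt.1 h) (rad_nonneg x)
          rw [h2, mul_zero] at hc
          linarith
        positivity
      have hkn : kN κ x ≤ 1 / rsq x := by
        unfold kN
        exact div_le_div_of_nonneg_right (min_le_left _ _) hr
      rcases le_or_gt (rsq x) (1 / 16) with h16 | h16
      · have hm : x ∈ TA_Md κ := ⟨hc, h16⟩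
        rw [indicator_of_mem hm] at t1 ⊢
        have h4 : ph L a (x 2) * (kN κ x * Zz v x ^ 2) ≤ ph L a (x 2) * (1 / rsq x * Zz v x ^ 2) :=
          mul_le_mul_of_nonneg_left (mul_le_mul_of_nonneg_right hkn (sq_nonneg _)) hp.le
        have h5 : ph L a (x 2) * (1 / rsq x * Zz v x ^ 2) = ph L a (x 2) * Zz v x ^ 2 / rsq x := by ring
        linarith
      · have hm : x ∈ {x : E3 | rsq x < 1 / 2} := by
          show rsq x < 1 / 2
          linarith
        rw [indicator_of_mem hm] at t3 ⊢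
        have h1 := gv_Z hv x
        have h2 : Zz v x ^ 2 ≤ 16 * gv v x := by nlinarith only [sq_nonneg (Zz v x), h16, h1]
        have h3 : 1 / rsq x ≤ 16 := by
          rw [div_le_iff₀ hr0]
          linarith
        have h4 : kN κ x * Zz v x ^ 2 ≤ 16 * (16 * gv v x) :=
          mul_le_mul (hkn.trans h3) h2 (sq_nonneg _) (by norm_num)
        have h5 := mul_le_mul_of_nonneg_left h4 hp.le
        linarith
  · rw [indicator_of_notMem hx]
    linarith

theorem zd_int {κ L a : ℝ} {v : E3 → E3} (hv : Vs v) :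
    Integrable (Bo.indicator (fun x => ph L a (x 2) * (kN κ x * Zz v x ^ 2))) := by
  have hZ := ri_int (vs_ri hv).2.2.2.1
  have hcZ : Continuous (Zz v) := hZ.2.2.2.2.1
  have hcp : Continuous (fun x : E3 => ph L a (x 2)) := by
    have h1 := (ph_smooth L a).continuous
    exact h1.comp (by fun_prop)
  refine Integrable.mono' (g := fun x => κ ^ 2 * Zz v x ^ 2) (hZ.1.const_mul _)
    ((hcp.measurable.mul ((kN_meas κ).mul (hcZ.pow 2).measurable)).indicator Bo_meas).aestronglyMeasurable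
    (ae_of_all _ fun x => ?_)
  by_cases hx : x ∈ Bo
  · rw [indicator_of_mem hx]
    have hp := ph_pos L a (x 2)
    have hp1 := ph_le L a (x 2)
    have hk := kN_nn (κ := κ) x
    rw [Real.norm_of_nonneg (by positivity)]
    calc ph L a (x 2) * (kN κ x * Zz v x ^ 2) ≤ 1 * (κ ^ 2 * Zz v x ^ 2) :=
          mul_le_mul hp1 (mul_le_mul_of_nonneg_right (kN_le x) (sq_nonneg _)) (by positivity) zero_le_one
      _ = κ ^ 2 * Zz v x ^ 2 := one_mul _
  · rw [indicator_of_notMem hx, norm_zero]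
    positivity

theorem zd : ∃ C : ℝ, 1 ≤ C ∧ ∀ (κ L a : ℝ) (v : E3 → E3), 1 ≤ κ → 1 ≤ L → Vs v →
    ∫ x in Bo, ph L a (x 2) * (kN κ x * Zz v x ^ 2) ≤ C * (YY κ L a v + Sc κ * DJ L a v + GG L a v) := by
  obtain ⟨C1, hC1, H1⟩ := hardy_pt
  refine ⟨24 * C1 + 256, by linarith, fun κ L a v hκ hL hv => ?_⟩
  have hk0 : 0 < κ := by linarith
  have hδ : 0 < 1 / κ := by positivity
  obtain ⟨-, -, -, rZ, -⟩ := vs_ri hv
  obtain ⟨i2, b2⟩ := H1 L a κ (1 / κ) (Zz v) hL hκ hδ rZ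
  have i1 := TA_YYi (L := L) (a := a) hκ hv
  have i3 : Integrable (({x : E3 | rsq x < 1 / 2}).indicator (fun x => ph L a (x 2) * gv v x)) :=
    (gv_int hv hL a).indicator TA_meas'
  have h1 : ∫ x in Bo, ph L a (x 2) * (kN κ x * Zz v x ^ 2) ≤
      ∫ x, ((TA_Md κ).indicator (fun x => ph L a (x 2) * Zz v x ^ 2 / rsq x) x
      + 6 * (A1 L a x * ck κ (1 / κ) x * Zz v x ^ 2)
      + 256 * ({x : E3 | rsq x < 1 / 2}).indicator (fun x => ph L a (x 2) * gv v x) x) := by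
    rw [← integral_indicator Bo_meas]
    exact integral_mono (zd_int hv) ((i1.add (i2.const_mul 6)).add (i3.const_mul 256)) fun x => zd_pt hκ hv x
  have j12 : Integrable (fun x => (TA_Md κ).indicator (fun x => ph L a (x 2) * Zz v x ^ 2 / rsq x) x
      + 6 * (A1 L a x * ck κ (1 / κ) x * Zz v x ^ 2)) := i1.add (i2.const_mul 6)
  have e1 : ∫ x, ((TA_Md κ).indicator (fun x => ph L a (x 2) * Zz v x ^ 2 / rsq x) x
      + 6 * (A1 L a x * ck κ (1 / κ) x * Zz v x ^ 2)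
      + 256 * ({x : E3 | rsq x < 1 / 2}).indicator (fun x => ph L a (x 2) * gv v x) x) =
      YY κ L a v + 6 * (∫ x, A1 L a x * ck κ (1 / κ) x * Zz v x ^ 2) + 256 * GG L a v := by
    rw [integral_add j12 (i3.const_mul 256), integral_add i1 (i2.const_mul 6), integral_const_mul, integral_const_mul,
      integral_indicator (TA_meas κ), integral_indicator TA_meas']
    rfl
  rw [e1] at h1
  have hDn : Dn L a (Zz v) = DJ L a v := rfl
  rw [hDn] at b2
  have e5 := gn_Z hL a hv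
  have hG : 0 ≤ GG L a v := PA_GG_nn L a v
  have hD : 0 ≤ DJ L a v := PA_Dn_nn L a (Zz v)
  have hY : 0 ≤ YY κ L a v := by
    unfold YY
    refine integral_nonneg fun x => ?_
    have h1 := ph_pos L a (x 2)
    have h2 := TA_rsq_nn x
    positivity
  have hS : 20 ≤ Sc κ := PA_Sc hκ
  have hSD : 0 ≤ Sc κ * DJ L a v := by positivity
  have f1 : C1 * (Sc κ * DJ L a v + Gn L a (Zz v)) ≤ C1 * (Sc κ * DJ L a v + 4 * GG L a v) :=
    mul_le_mul_of_nonneg_left (by linarith) (by linarith)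
  have f2 : (24 * C1 + 256) * (YY κ L a v + Sc κ * DJ L a v + GG L a v) =
      YY κ L a v + 6 * (C1 * (Sc κ * DJ L a v + 4 * GG L a v)) + 256 * GG L a v +
        ((24 * C1 + 255) * YY κ L a v + (18 * C1 + 256) * (Sc κ * DJ L a v)) := by ring
  have f3 : 0 ≤ (24 * C1 + 255) * YY κ L a v + (18 * C1 + 256) * (Sc κ * DJ L a v) := by positivity
  linarith

/-! ### The source term outside of the scale-free zone -/

theorem t1c_pt {ε K κ L a η B : ℝ} {v : E3 → E3} (h : Pool.Agent.H94.EP.Sl ε K κ v) (hη : 0 < η)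
    (hB : 0 < B) (hV : ∀ x, |sV v x| ≤ B) {x : E3} (hx : x ∉ TA_Md κ) :
    |A1 L a x * (sO v x * GO v x)| ≤
      6 * η * (A1 L a x * ck κ (ε * κ / B) x * Zz v x ^ 2)
      + 6 * ε ^ 2 / η * (A1 L a x * ck κ (ε * κ / B) x * sO v x ^ 2)
      + 1280 * ({x : E3 | rsq x < 1 / 2}).indicator (fun x => ph L a (x 2) * gv v x) x := by
  refine le_of_forall_pos_le_add fun s hs => ?_
  have hn : 0 ≤ A1 L a x * bk κ x * sO v x ^ 2 := by
    have h1 := (A1_nn L a x).1
    have h2 := ((bk_f h.k1).2.1 x).1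
    positivity
  have hM : 0 < 1 + 2 * ε ^ 2 * (A1 L a x * bk κ x * sO v x ^ 2) := by positivity
  have hμ : 0 < (1 + 2 * ε ^ 2 * (A1 L a x * bk κ x * sO v x ^ 2)) / s := by positivity
  have h1 := TA_pt (L := L) (a := a) h hη hμ hB hV x
  rw [indicator_of_notMem hx, mul_zero, add_zero] at h1
  have h2 : 2 * ε ^ 2 / ((1 + 2 * ε ^ 2 * (A1 L a x * bk κ x * sO v x ^ 2)) / s) * (A1 L a x * bk κ x * sO v x ^ 2) ≤ s := by
    have h3 : 2 * ε ^ 2 / ((1 + 2 * ε ^ 2 * (A1 L a x * bk κ x * sO v x ^ 2)) / s) * (A1 L a x * bk κ x * sO v x ^ 2) =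
        s * ((2 * ε ^ 2 * (A1 L a x * bk κ x * sO v x ^ 2)) / (1 + 2 * ε ^ 2 * (A1 L a x * bk κ x * sO v x ^ 2))) := by
      field_simp
    rw [h3]
    have h4 : (2 * ε ^ 2 * (A1 L a x * bk κ x * sO v x ^ 2)) / (1 + 2 * ε ^ 2 * (A1 L a x * bk κ x * sO v x ^ 2)) ≤ 1 := by
      rw [div_le_one hM]
      linarith
    calc s * _ ≤ s * 1 := mul_le_mul_of_nonneg_left h4 hs.le
      _ = s := mul_one s
  linarith

theorem t1c : ∃ C : ℝ, 1 ≤ C ∧ ∀ (ε K κ L a : ℝ) (v : E3 → E3), Pool.Agent.H94.EP.Sl ε K κ v → 1 ≤ L →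
    |∫ x in (TA_Md κ)ᶜ, A1 L a x * (sO v x * GO v x)| ≤ 1 / 64 * DO L a v +
      C * (ε ^ 2 * Sc κ ^ 2 * (DJ L a v + GG L a v)) + C * GG L a v := by
  obtain ⟨C1, hC1, H1⟩ := hardy_pt
  refine ⟨36 * 64 * C1 ^ 2 * 4 + 1281, by nlinarith, fun ε K κ L a v h hL => ?_⟩
  have hv := h.vs
  obtain ⟨rV, rW, rO, rZ, r2⟩ := vs_ri hv
  obtain ⟨B, hB, hVB⟩ := (ri_int rV).2.2.2.2.2.2.2.2
  have he := h.e0
  have hk := h.k1
  have hk0 : 0 < κ := by linarith
  have hS : 20 ≤ Sc κ := PA_Sc hk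
  have hS0 : 0 < Sc κ := by linarith
  have hC10 : 0 < C1 := by linarith
  obtain ⟨δ, hδe⟩ : ∃ δ, δ = ε * κ / B := ⟨_, rfl⟩
  have hδ : 0 < δ := by rw [hδe]; positivity
  obtain ⟨η, hηe⟩ : ∃ η, η = 6 * 64 * C1 * ε ^ 2 * Sc κ := ⟨_, rfl⟩
  have hη : 0 < η := by rw [hηe]; positivity
  have hpt : ∀ x, x ∉ TA_Md κ → |A1 L a x * (sO v x * GO v x)| ≤ _ := fun x hx =>
    t1c_pt (L := L) (a := a) h hη hB (fun x => (hVB x).1) hx
  rw [← hδe] at hpt
  obtain ⟨i1, b1⟩ := H1 L a κ δ (Zz v) hL hk hδ rZ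
  obtain ⟨i2, b2⟩ := H1 L a κ δ (sO v) hL hk hδ rO
  have i3 : Integrable (({x : E3 | rsq x < 1 / 2}).indicator (fun x => ph L a (x 2) * gv v x)) :=
    (gv_int hv hL a).indicator TA_meas'
  have j12 : Integrable (fun x => 6 * η * (A1 L a x * ck κ δ x * Zz v x ^ 2)
      + 6 * ε ^ 2 / η * (A1 L a x * ck κ δ x * sO v x ^ 2)) := (i1.const_mul (6 * η)).add (i2.const_mul (6 * ε ^ 2 / η))
  have j123 : Integrable (fun x => 6 * η * (A1 L a x * ck κ δ x * Zz v x ^ 2)
      + 6 * ε ^ 2 / η * (A1 L a x * ck κ δ x * sO v x ^ 2)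
      + 1280 * ({x : E3 | rsq x < 1 / 2}).indicator (fun x => ph L a (x 2) * gv v x) x) := j12.add (i3.const_mul 1280)
  have hnn : ∀ x, 0 ≤ 6 * η * (A1 L a x * ck κ δ x * Zz v x ^ 2)
      + 6 * ε ^ 2 / η * (A1 L a x * ck κ δ x * sO v x ^ 2)
      + 1280 * ({x : E3 | rsq x < 1 / 2}).indicator (fun x => ph L a (x 2) * gv v x) x := by
    intro x
    have h1 := (A1_nn L a x).1
    have h2 := (ck_f hk hδ).2 x
    have h3 : 0 ≤ ({x : E3 | rsq x < 1 / 2}).indicator (fun x => ph L a (x 2) * gv v x) x := by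
      apply indicator_nonneg
      intro y _
      exact mul_nonneg (ph_pos L a (y 2)).le (gv_nn v y)
    positivity
  have h1 : |∫ x in (TA_Md κ)ᶜ, A1 L a x * (sO v x * GO v x)| ≤
      ∫ x, (6 * η * (A1 L a x * ck κ δ x * Zz v x ^ 2)
      + 6 * ε ^ 2 / η * (A1 L a x * ck κ δ x * sO v x ^ 2)
      + 1280 * ({x : E3 | rsq x < 1 / 2}).indicator (fun x => ph L a (x 2) * gv v x) x) := by
    rw [← Real.norm_eq_abs]
    refine (norm_integral_le_of_norm_le j123.integrableOn ?_).trans ?_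
    · rw [ae_restrict_iff' (TA_meas κ).compl]
      refine ae_of_all _ fun x hx => ?_
      rw [Real.norm_eq_abs]
      exact hpt x hx
    · exact setIntegral_le_integral j123 (ae_of_all _ hnn)
  have e1 : ∫ x, (6 * η * (A1 L a x * ck κ δ x * Zz v x ^ 2)
      + 6 * ε ^ 2 / η * (A1 L a x * ck κ δ x * sO v x ^ 2)
      + 1280 * ({x : E3 | rsq x < 1 / 2}).indicator (fun x => ph L a (x 2) * gv v x) x) =
      6 * η * (∫ x, A1 L a x * ck κ δ x * Zz v x ^ 2) + 6 * ε ^ 2 / η * (∫ x, A1 L a x * ck κ δ x * sO v x ^ 2)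
      + 1280 * GG L a v := by
    rw [integral_add j12 (i3.const_mul 1280), integral_add (i1.const_mul _) (i2.const_mul _), integral_const_mul,
      integral_const_mul, integral_const_mul, integral_indicator TA_meas']
    rfl
  rw [e1] at h1
  have hDn : Dn L a (Zz v) = DJ L a v := rfl
  have hDn' : Dn L a (sO v) = DO L a v := rfl
  rw [hDn] at b1
  rw [hDn'] at b2
  have g1 := gn_Z hL a hv
  have g2 := gn_O hL a hv
  have hG : 0 ≤ GG L a v := PA_GG_nn L a v
  have hD : 0 ≤ DJ L a v := PA_Dn_nn L a (Zz v)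
  have hO : 0 ≤ DO L a v := PA_Dn_nn L a (sO v)
  have q1 : 6 * η * (∫ x, A1 L a x * ck κ δ x * Zz v x ^ 2) ≤
      36 * 64 * C1 ^ 2 * 4 * (ε ^ 2 * Sc κ ^ 2 * (DJ L a v + GG L a v)) := by
    have r1 : 6 * η * (∫ x, A1 L a x * ck κ δ x * Zz v x ^ 2) ≤ 6 * η * (C1 * (Sc κ * DJ L a v + 4 * GG L a v)) :=
      mul_le_mul_of_nonneg_left (b1.trans (mul_le_mul_of_nonneg_left (by linarith) hC10.le)) (by positivity)
    have r2 : Sc κ * DJ L a v + 4 * GG L a v ≤ 4 * (Sc κ * (DJ L a v + GG L a v)) := by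
      linarith only [mul_nonneg hS0.le hD, mul_nonneg (by linarith : (0 : ℝ) ≤ Sc κ - 1) hG, hS, hS0, hG, hD]
    have r3 : 6 * η * (C1 * (Sc κ * DJ L a v + 4 * GG L a v)) ≤ 6 * η * (C1 * (4 * (Sc κ * (DJ L a v + GG L a v)))) :=
      mul_le_mul_of_nonneg_left (mul_le_mul_of_nonneg_left r2 hC10.le) (by positivity)
    have r4 : 6 * η * (C1 * (4 * (Sc κ * (DJ L a v + GG L a v)))) =
        36 * 64 * C1 ^ 2 * 4 * (ε ^ 2 * Sc κ ^ 2 * (DJ L a v + GG L a v)) := by
      rw [hηe]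
      ring
    linarith
  have q2 : 6 * ε ^ 2 / η * (∫ x, A1 L a x * ck κ δ x * sO v x ^ 2) ≤ 1 / 64 * DO L a v + GG L a v := by
    have r1 : 6 * ε ^ 2 / η * (∫ x, A1 L a x * ck κ δ x * sO v x ^ 2) ≤
        6 * ε ^ 2 / η * (C1 * (Sc κ * DO L a v + 16 * GG L a v)) :=
      mul_le_mul_of_nonneg_left (b2.trans (mul_le_mul_of_nonneg_left (by linarith) hC10.le)) (by positivity)
    have r2 : 6 * ε ^ 2 / η * (C1 * (Sc κ * DO L a v + 16 * GG L a v)) =
        1 / 64 * DO L a v + 1 / (4 * Sc κ) * GG L a v := by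
      rw [hηe]
      field_simp
      ring
    have r3 : 1 / (4 * Sc κ) * GG L a v ≤ 1 * GG L a v := by
      apply mul_le_mul_of_nonneg_right _ hG
      rw [div_le_one (by positivity)]
      linarith
    linarith
  have q3 : 0 ≤ 1281 * (ε ^ 2 * Sc κ ^ 2 * (DJ L a v + GG L a v)) := by positivity
  have q4 : 0 ≤ 36 * 64 * C1 ^ 2 * 4 * GG L a v := by positivity
  have q5 : (36 * 64 * C1 ^ 2 * 4 + 1281) * (ε ^ 2 * Sc κ ^ 2 * (DJ L a v + GG L a v)) =
      36 * 64 * C1 ^ 2 * 4 * (ε ^ 2 * Sc κ ^ 2 * (DJ L a v + GG L a v)) + 1281 * (ε ^ 2 * Sc κ ^ 2 * (DJ L a v + GG L a v)) := by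
    ring
  have q6 : (36 * 64 * C1 ^ 2 * 4 + 1281) * GG L a v = 36 * 64 * C1 ^ 2 * 4 * GG L a v + 1281 * GG L a v := by ring
  rw [q5, q6]
  linarith

end Pool.Agent.H90.TQ
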